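import Pool.Agent.FMV.Rules

/-!
Sums and rotations of basic tangles.
-/

namespace Pool.Agent.FMV

theorem sum_id_x : FourEquiv 2 2 [⟨.cup, 1⟩, ⟨.pos, 2⟩, ⟨.cap, 1⟩]
    [] := cert 3 73667891564928 (by decide)

theorem sum_id_y : FourEquiv 2 2 [⟨.cup, 1⟩, ⟨.neg, 2⟩, ⟨.cap, 1⟩]
    [] := cert 3 73667883176384 (by decide)

theorem sum_id_e : FourEquiv 2 2 [⟨.cup, 1⟩, ⟨.cap, 2⟩, ⟨.cup, 2⟩, ⟨.cap, 1⟩]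
    [] := cert 2 562040960 (by decide)

theorem sum_id_k : FourEquiv 2 2 [⟨.cup, 1⟩, ⟨.cup, 3⟩, ⟨.pos, 2⟩, ⟨.pos, 4⟩, ⟨.cap, 3⟩, ⟨.cap, 1⟩]
    [] := cert 10 48960711929274919783567453587820540373109951299584 (by decide)

theorem sum_x_id : FourEquiv 2 2 [⟨.cup, 1⟩, ⟨.pos, 0⟩, ⟨.cap, 1⟩]
    [] := cert 3 2199635820992 (by decide)

theorem sum_x_x : FourEquiv 2 2 [⟨.cup, 1⟩, ⟨.pos, 0⟩, ⟨.pos, 2⟩, ⟨.cap, 1⟩]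
    [⟨.cup, 1⟩, ⟨.pos, 0⟩, ⟨.pos, 2⟩, ⟨.cap, 1⟩] := cert 0 0 (by decide)

theorem sum_x_y : FourEquiv 2 2 [⟨.cup, 1⟩, ⟨.pos, 0⟩, ⟨.neg, 2⟩, ⟨.cap, 1⟩]
    [⟨.cap, 0⟩, ⟨.cup, 0⟩] := cert 4 84688735896000 (by decide)

theorem sum_x_xx : FourEquiv 2 2 [⟨.cup, 1⟩, ⟨.pos, 0⟩, ⟨.pos, 2⟩, ⟨.pos, 2⟩, ⟨.cap, 1⟩]
    [⟨.pos, 0⟩, ⟨.pos, 0⟩] := cert 9 368049409393191738347500502548436877379118338 (by decide)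

theorem sum_x_e : FourEquiv 2 2 [⟨.cup, 1⟩, ⟨.pos, 0⟩, ⟨.cap, 2⟩, ⟨.cup, 2⟩, ⟨.cap, 1⟩]
    [⟨.pos, 0⟩] := cert 3 73685012578305 (by decide)

theorem sum_x_k : FourEquiv 2 2 [⟨.cup, 1⟩, ⟨.pos, 0⟩, ⟨.cup, 3⟩, ⟨.pos, 2⟩, ⟨.pos, 4⟩, ⟨.cap, 3⟩, ⟨.cap, 1⟩]
    [⟨.neg, 0⟩] := cert 18 4201386708800662143924190527325161847897979047019052478672069427127736158045068524431802816 (by decide)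

theorem sum_y_id : FourEquiv 2 2 [⟨.cup, 1⟩, ⟨.neg, 0⟩, ⟨.cap, 1⟩]
    [] := cert 3 2199627432320 (by decide)

theorem sum_y_x : FourEquiv 2 2 [⟨.cup, 1⟩, ⟨.neg, 0⟩, ⟨.pos, 2⟩, ⟨.cap, 1⟩]
    [⟨.cap, 0⟩, ⟨.cup, 0⟩] := cert 4 83589232656768 (by decide)

theorem sum_y_y : FourEquiv 2 2 [⟨.cup, 1⟩, ⟨.neg, 0⟩, ⟨.neg, 2⟩, ⟨.cap, 1⟩]
    [⟨.cup, 1⟩, ⟨.pos, 0⟩, ⟨.pos, 2⟩, ⟨.cap, 1⟩] := cert 5 1303964453981082632913280 (by decide)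

theorem sum_y_xx : FourEquiv 2 2 [⟨.cup, 1⟩, ⟨.neg, 0⟩, ⟨.pos, 2⟩, ⟨.pos, 2⟩, ⟨.cap, 1⟩]
    [⟨.pos, 0⟩, ⟨.pos, 0⟩] := cert 9 11324597835745731727941848131925140595736960 (by decide)

theorem sum_y_e : FourEquiv 2 2 [⟨.cup, 1⟩, ⟨.neg, 0⟩, ⟨.cap, 2⟩, ⟨.cup, 2⟩, ⟨.cap, 1⟩]
    [⟨.neg, 0⟩] := cert 3 73685012578305 (by decide)

theorem sum_y_k : FourEquiv 2 2 [⟨.cup, 1⟩, ⟨.neg, 0⟩, ⟨.cup, 3⟩, ⟨.pos, 2⟩, ⟨.pos, 4⟩, ⟨.cap, 3⟩, ⟨.cap, 1⟩]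
    [⟨.pos, 0⟩] := cert 13 4936526422522569829134375925784800982862345384408874503559905664 (by decide)

theorem sum_xx_x : FourEquiv 2 2 [⟨.cup, 1⟩, ⟨.pos, 0⟩, ⟨.pos, 0⟩, ⟨.pos, 2⟩, ⟨.cap, 1⟩]
    [⟨.pos, 0⟩, ⟨.pos, 0⟩] := cert 11 288840245226200769162917200153512573286043556494968065 (by decide)

theorem sum_xx_y : FourEquiv 2 2 [⟨.cup, 1⟩, ⟨.pos, 0⟩, ⟨.pos, 0⟩, ⟨.neg, 2⟩, ⟨.cap, 1⟩]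
    [⟨.pos, 0⟩, ⟨.pos, 0⟩] := cert 11 99995336245175435299031915125020373524686263538527044032 (by decide)

theorem sum_xx_e : FourEquiv 2 2 [⟨.cup, 1⟩, ⟨.pos, 0⟩, ⟨.pos, 0⟩, ⟨.cap, 2⟩, ⟨.cup, 2⟩, ⟨.cap, 1⟩]
    [⟨.pos, 0⟩, ⟨.pos, 0⟩] := cert 4 9660293768477278210 (by decide)

theorem sum_e_id : FourEquiv 2 2 [⟨.cup, 1⟩, ⟨.cap, 0⟩, ⟨.cup, 0⟩, ⟨.cap, 1⟩]
    [] := cert 2 16777408 (by decide)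

theorem sum_e_x : FourEquiv 2 2 [⟨.cup, 1⟩, ⟨.cap, 0⟩, ⟨.cup, 0⟩, ⟨.pos, 2⟩, ⟨.cap, 1⟩]
    [⟨.pos, 0⟩] := cert 3 2216203124928 (by decide)

theorem sum_e_y : FourEquiv 2 2 [⟨.cup, 1⟩, ⟨.cap, 0⟩, ⟨.cup, 0⟩, ⟨.neg, 2⟩, ⟨.cap, 1⟩]
    [⟨.neg, 0⟩] := cert 3 2216203124928 (by decide)

theorem sum_e_xx : FourEquiv 2 2 [⟨.cup, 1⟩, ⟨.cap, 0⟩, ⟨.cup, 0⟩, ⟨.pos, 2⟩, ⟨.pos, 2⟩, ⟨.cap, 1⟩]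
    [⟨.pos, 0⟩, ⟨.pos, 0⟩] := cert 4 292733992958951616 (by decide)

theorem sum_e_e : FourEquiv 2 2 [⟨.cup, 1⟩, ⟨.cap, 0⟩, ⟨.cup, 0⟩, ⟨.cap, 2⟩, ⟨.cup, 2⟩, ⟨.cap, 1⟩]
    [⟨.cap, 0⟩, ⟨.cup, 0⟩] := cert 4 292733992958951616 (by decide)

theorem sum_e_k : FourEquiv 2 2 [⟨.cup, 1⟩, ⟨.cap, 0⟩, ⟨.cup, 0⟩, ⟨.cup, 3⟩, ⟨.pos, 2⟩, ⟨.pos, 4⟩, ⟨.cap, 3⟩, ⟨.cap, 1⟩]
    [⟨.cup, 1⟩, ⟨.pos, 0⟩, ⟨.pos, 2⟩, ⟨.cap, 1⟩] := cert 6 5106503547500412788824604864 (by decide)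

theorem sum_k_id : FourEquiv 2 2 [⟨.cup, 1⟩, ⟨.cup, 1⟩, ⟨.pos, 0⟩, ⟨.pos, 2⟩, ⟨.cap, 1⟩, ⟨.cap, 1⟩]
    [] := cert 9 11153478675056257811259482648011096331518016 (by decide)

theorem sum_k_x : FourEquiv 2 2 [⟨.cup, 1⟩, ⟨.cup, 1⟩, ⟨.pos, 0⟩, ⟨.pos, 2⟩, ⟨.cap, 1⟩, ⟨.pos, 2⟩, ⟨.cap, 1⟩]
    [⟨.neg, 0⟩] := cert 12 828577430572004466300037959553668257268677217309149503095233 (by decide)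

theorem sum_k_y : FourEquiv 2 2 [⟨.cup, 1⟩, ⟨.cup, 1⟩, ⟨.pos, 0⟩, ⟨.pos, 2⟩, ⟨.cap, 1⟩, ⟨.neg, 2⟩, ⟨.cap, 1⟩]
    [⟨.pos, 0⟩] := cert 11 6418869884606655472375294629696394540266574579937443904 (by decide)

theorem sum_k_xx : FourEquiv 2 2 [⟨.cup, 1⟩, ⟨.cup, 1⟩, ⟨.pos, 0⟩, ⟨.pos, 2⟩, ⟨.cap, 1⟩, ⟨.pos, 2⟩, ⟨.pos, 2⟩, ⟨.cap, 1⟩]
    [⟨.pos, 0⟩, ⟨.pos, 0⟩] := cert 20 2221426647728618180923987818742636991278703736726158230142331847812883862648853305497195831380869569 (by decide)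

theorem sum_k_e : FourEquiv 2 2 [⟨.cup, 1⟩, ⟨.cup, 1⟩, ⟨.pos, 0⟩, ⟨.pos, 2⟩, ⟨.cap, 1⟩, ⟨.cap, 2⟩, ⟨.cup, 2⟩, ⟨.cap, 1⟩]
    [⟨.cup, 1⟩, ⟨.pos, 0⟩, ⟨.pos, 2⟩, ⟨.cap, 1⟩] := cert 6 166042372915844902042405568576 (by decide)

theorem sum_k_k : FourEquiv 2 2 [⟨.cup, 1⟩, ⟨.cup, 1⟩, ⟨.pos, 0⟩, ⟨.pos, 2⟩, ⟨.cap, 1⟩, ⟨.cup, 3⟩, ⟨.pos, 2⟩, ⟨.pos, 4⟩, ⟨.cap, 3⟩, ⟨.cap, 1⟩]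
    [⟨.cap, 0⟩, ⟨.cup, 0⟩] := cert 18 36922347566258557807442982895400755278728573415837524927575876286697954485369368412609 (by decide)

theorem rot_id : FourEquiv 2 2 [⟨.cup, 2⟩, ⟨.cap, 0⟩]
    [⟨.cap, 0⟩, ⟨.cup, 0⟩] := cert 1 64 (by decide)

theorem rot_x : FourEquiv 2 2 [⟨.cup, 2⟩, ⟨.pos, 1⟩, ⟨.cap, 0⟩]
    [⟨.neg, 0⟩] := cert 3 3298543473088 (by decide)

theorem rot_y : FourEquiv 2 2 [⟨.cup, 2⟩, ⟨.neg, 1⟩, ⟨.cap, 0⟩]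
    [⟨.pos, 0⟩] := cert 3 3298543473024 (by decide)

theorem rot_xx : FourEquiv 2 2 [⟨.cup, 2⟩, ⟨.pos, 1⟩, ⟨.pos, 1⟩, ⟨.cap, 0⟩]
    [⟨.cup, 1⟩, ⟨.pos, 0⟩, ⟨.pos, 2⟩, ⟨.cap, 1⟩] := cert 4 147497329379775745 (by decide)

theorem rot_e : FourEquiv 2 2 [⟨.cup, 2⟩, ⟨.cap, 1⟩, ⟨.cup, 1⟩, ⟨.cap, 0⟩]
    [] := cert 2 25170112 (by decide)

theorem rot_k : FourEquiv 2 2 [⟨.cup, 2⟩, ⟨.cup, 2⟩, ⟨.pos, 1⟩, ⟨.pos, 3⟩, ⟨.cap, 2⟩, ⟨.cap, 0⟩]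
    [⟨.pos, 0⟩, ⟨.pos, 0⟩] := cert 10 2192258118338867761914785369899978697815322202561 (by decide)

theorem sum_xx_k : FourEquiv 2 2 [⟨.cup, 1⟩, ⟨.pos, 0⟩, ⟨.pos, 0⟩, ⟨.cup, 3⟩, ⟨.pos, 2⟩, ⟨.pos, 4⟩, ⟨.cap, 3⟩, ⟨.cap, 1⟩]
    [⟨.pos, 0⟩, ⟨.pos, 0⟩] := cert 35 190939568133619127532269581155606983773084389708244590318295054422059712197806084789323675287526423241465049556320837270576367608122263910512650312865002671709127344679668417793 (by decide)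

end Pool.Agent.FMV
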