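import Pool.Agent.FMV.Count
import Pool.Agent.FMV.CertA

/-!
Algebraic tangles without closed components are equivalent to one of six basic tangles.
-/

namespace Pool.Agent.FMV

/-- The six basic tangles. -/
inductive Six where
  | id
  | pos
  | neg
  | two
  | turn
  | clasp
  deriving DecidableEq

/-- The basic tangle as a diagram. -/
def six : Six → Word
  | .id => []
  | .pos => [⟨.pos, 0⟩]
  | .neg => [⟨.neg, 0⟩]
  | .two => [⟨.pos, 0⟩, ⟨.pos, 0⟩]
  | .turn => [⟨.cap, 0⟩, ⟨.cup, 0⟩]
  | .clasp => [⟨.cup, 1⟩, ⟨.pos, 0⟩, ⟨.pos, 2⟩, ⟨.cap, 1⟩]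

theorem run_six (t : Six) : run 2 (six t) = some 2 := by
  cases t <;> rfl

/-- Horizontal composition. -/
def beside (A B : Word) : Word := [⟨.cup, 1⟩] ++ A ++ shift 2 B ++ [⟨.cap, 1⟩]

/-- Rotation by a quarter turn. -/
def rot (A : Word) : Word := [⟨.cup, 2⟩] ++ shift 1 A ++ [⟨.cap, 0⟩]

theorem run_beside {A B : Word} (hA : run 2 A = some 2) (hB : run 2 B = some 2) :
    run 2 (beside A B) = some 2 := by
  have h₁ : run 4 A = some 4 := by simpa using run_shift 0 2 hA
  have h₂ : run 4 (shift 2 B) = some 4 := by simpa using run_shift 2 0 hB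
  exact run_append_of (run_append_of (run_append_of (show run 2 [⟨.cup, 1⟩] = some 4 from rfl)
    h₁) h₂) rfl

theorem run_rot {A : Word} (hA : run 2 A = some 2) : run 2 (rot A) = some 2 := by
  have h₁ : run 4 (shift 1 A) = some 4 := by simpa using run_shift 1 1 hA
  exact run_append_of (run_append_of (show run 2 [⟨.cup, 2⟩] = some 4 from rfl) h₁) rfl

theorem Algebraic.run {W : Word} (h : Algebraic W) : run 2 W = some 2 := by
  induction h with
  | two => rfl
  | pos => rfl
  | neg => rfl
  | turn => rfl
  | beside _ _ ihA ihB => exact run_beside ihA ihB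
  | rotate _ ih => exact run_rot ih

theorem beside_congr {A A' B B' : Word} (hA : FourEquiv 2 2 A A') (hB : FourEquiv 2 2 B B')
    (hrA : FMV.run 2 A = some 2) (hrB : FMV.run 2 B = some 2) :
    FourEquiv 2 2 (beside A B) (beside A' B') := by
  have hrA' := hA.run_iff.1 hrA
  have h₁ : FourEquiv 2 2 (beside A B) (beside A' B) := by
    have := hA.context (p := 2) (q := 2) (j := 0) (r := 2) (a := [⟨.cup, 1⟩])
      (b := shift 2 B ++ [⟨.cap, 1⟩]) rfl
      (run_append_of (by simpa using run_shift 2 0 hrB) rfl)
    simpa [beside] using this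
  have h₂ : FourEquiv 2 2 (beside A' B) (beside A' B') := by
    have := hB.context (p := 2) (q := 2) (j := 2) (r := 0) (a := [⟨.cup, 1⟩] ++ A')
      (b := [⟨.cap, 1⟩])
      (run_append_of (show FMV.run 2 [⟨.cup, 1⟩] = some 4 from rfl)
        (by simpa using run_shift 0 2 hrA')) rfl
    simpa [beside] using this
  exact h₁.trans h₂

theorem rot_congr {A A' : Word} (hA : FourEquiv 2 2 A A') :
    FourEquiv 2 2 (rot A) (rot A') :=
  hA.context (p := 2) (q := 2) (j := 1) (r := 1) (a := [⟨.cup, 2⟩]) (b := [⟨.cap, 0⟩]) rfl rfl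

theorem colorings_beside {A B : Word} (hA : FMV.run 2 A = some 2) :
    colorings A [false, false] [false, false] * colorings B [false, false] [false, false] ≤
      colorings (beside A B) [false, false] [false, false] := by
  have e₁ : colorings A ([false, false] ++ [false, false]) ([false, false] ++ [false, false])
      = colorings A [false, false] [false, false] := by
    unfold colorings
    rw [sumColorings_append_list hA _ _ rfl]
    refine sumColorings_congr hA (fun t ht => ?_) rfl
    match t, ht with
    | [x, y], _ => cases x <;> cases y <;> simp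
  have e₂ : colorings (shift 2 B) ([false, false] ++ [false, false])
      ([false, false] ++ [false, false]) = colorings B [false, false] [false, false] := by
    unfold colorings
    rw [show (2 : ℕ) = [false, false].length from rfl, sumColorings_shift]
    exact sumColorings_congr_fun _ (fun t => by simp) _
  have e₃ : colorings [(⟨.cup, 1⟩ : Letter)] [false, false]
      [false, false, false, false] = 1 := by decide
  have e₄ : colorings [(⟨.cap, 1⟩ : Letter)] [false, false, false, false]
      [false, false] = 1 := by decide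
  have h₁ := mul_le_colorings [(⟨.cup, 1⟩ : Letter)] A [false, false]
    [false, false, false, false] [false, false, false, false]
  have h₂ := mul_le_colorings ([(⟨.cup, 1⟩ : Letter)] ++ A) (shift 2 B) [false, false]
    [false, false, false, false] [false, false, false, false]
  have h₃ := mul_le_colorings ([(⟨.cup, 1⟩ : Letter)] ++ A ++ shift 2 B) [⟨.cap, 1⟩]
    [false, false] [false, false] [false, false, false, false]
  simp only [List.cons_append, List.nil_append] at e₁ e₂
  rw [e₁, e₃, one_mul] at h₁
  rw [e₂] at h₂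
  rw [e₄, mul_one] at h₃
  exact (Nat.mul_le_mul_right _ h₁).trans (h₂.trans h₃)

theorem colorings_rot {A : Word} (hA : FMV.run 2 A = some 2) :
    colorings (rot A) [false, false] [false, false] =
      colorings A [false, false] [false, false] := by
  unfold rot colorings
  rw [sumColorings_append, sumColorings_append]
  simp only [sumColorings_cup, sumColorings_nil, insertPair_succ, insertPair_zero]
  have e (c : Bool) : sumColorings (shift 1 A) (sumColorings [⟨.cap, 0⟩] fun u =>
      if u = [false, false] then 1 else 0) [false, false, c, c] =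
      sumColorings A (fun t => if c = false ∧ t = [false, false] then 1 else 0) [false, c] := by
    have h := sumColorings_shift A (sumColorings [⟨.cap, 0⟩] fun u =>
      if u = [false, false] then 1 else 0) [false] [false, c, c]
    simp only [List.length_cons, List.length_nil, List.cons_append, List.nil_append,
      Nat.zero_add] at h
    rw [h]
    have h' := sumColorings_append_list hA (fun t => sumColorings [⟨.cap, 0⟩] (fun u =>
      if u = [false, false] then 1 else 0) (false :: t)) (s := [false, c]) [c] rfl
    simp only [List.cons_append, List.nil_append] at h'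
    rw [h']
    refine sumColorings_congr hA (fun t ht => ?_) rfl
    match t, ht with
    | [x, y], _ => cases x <;> cases y <;> cases c <;> simp
  rw [e, e]
  have z : sumColorings A (fun t => if true = false ∧ t = [false, false] then 1 else 0)
      [false, true] = 0 := by
    have : (fun t : List Bool => if true = false ∧ t = [false, false] then 1 else 0)
        = fun _ => 0 := by funext t; simp
    rw [this, sumColorings_zero]
  rw [z, Nat.add_zero]
  exact sumColorings_congr_fun _ (fun t => by simp) _

theorem one_le_alg {A : Word} (hA : FMV.run 2 A = some 2) :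
    1 ≤ colorings A [false, false] [false, false] := one_le_colorings hA false

theorem beside_six (s t : Six)
    (h : colorings (beside (six s) (six t)) [false, false] [false, false] = 1) :
    ∃ r, FourEquiv 2 2 (beside (six s) (six t)) (six r) := by
  cases s <;> cases t
  · exact absurd h (by decide)
  · exact ⟨.id, sum_id_x⟩
  · exact ⟨.id, sum_id_y⟩
  · exact absurd h (by decide)
  · exact ⟨.id, sum_id_e⟩
  · exact ⟨.id, sum_id_k⟩
  · exact ⟨.id, sum_x_id⟩
  · exact ⟨.clasp, sum_x_x⟩
  · exact ⟨.turn, sum_x_y⟩
  · exact ⟨.two, sum_x_xx⟩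
  · exact ⟨.pos, sum_x_e⟩
  · exact ⟨.neg, sum_x_k⟩
  · exact ⟨.id, sum_y_id⟩
  · exact ⟨.turn, sum_y_x⟩
  · exact ⟨.clasp, sum_y_y⟩
  · exact ⟨.two, sum_y_xx⟩
  · exact ⟨.neg, sum_y_e⟩
  · exact ⟨.pos, sum_y_k⟩
  · exact absurd h (by decide)
  · exact ⟨.two, sum_xx_x⟩
  · exact ⟨.two, sum_xx_y⟩
  · exact absurd h (by decide)
  · exact ⟨.two, sum_xx_e⟩
  · exact ⟨.two, sum_xx_k⟩
  · exact ⟨.id, sum_e_id⟩
  · exact ⟨.pos, sum_e_x⟩
  · exact ⟨.neg, sum_e_y⟩
  · exact ⟨.two, sum_e_xx⟩
  · exact ⟨.turn, sum_e_e⟩
  · exact ⟨.clasp, sum_e_k⟩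
  · exact ⟨.id, sum_k_id⟩
  · exact ⟨.neg, sum_k_x⟩
  · exact ⟨.pos, sum_k_y⟩
  · exact ⟨.two, sum_k_xx⟩
  · exact ⟨.clasp, sum_k_e⟩
  · exact ⟨.turn, sum_k_k⟩

theorem rot_six (s : Six) : ∃ r, FourEquiv 2 2 (rot (six s)) (six r) := by
  cases s
  · exact ⟨.turn, rot_id⟩
  · exact ⟨.neg, rot_x⟩
  · exact ⟨.pos, rot_y⟩
  · exact ⟨.clasp, rot_xx⟩
  · exact ⟨.id, rot_e⟩
  · exact ⟨.two, rot_k⟩

/-- Algebraic tangles without closed components are equivalent to basic tangles. -/
theorem Algebraic.basic {W : Word} (h : Algebraic W)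
    (hc : colorings W [false, false] [false, false] = 1) :
    ∃ t, FourEquiv 2 2 W (six t) := by
  induction h with
  | two => exact ⟨.id, .refl _⟩
  | pos => exact ⟨.pos, .refl _⟩
  | neg => exact ⟨.neg, .refl _⟩
  | turn => exact ⟨.turn, .refl _⟩
  | @beside A B hA hB ihA ihB =>
      have h₁ := one_le_alg hA.run
      have h₂ := one_le_alg hB.run
      have h₃ := colorings_beside (B := B) hA.run
      change colorings (FMV.beside A B) [false, false] [false, false] = 1 at hc
      rw [hc] at h₃
      have hA1 : colorings A [false, false] [false, false] = 1 := by nlinarith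
      have hB1 : colorings B [false, false] [false, false] = 1 := by nlinarith
      obtain ⟨s, hs⟩ := ihA hA1
      obtain ⟨t, ht⟩ := ihB hB1
      have hst := beside_congr hs ht hA.run hB.run
      obtain ⟨r, hr⟩ := beside_six s t (by rw [← hst.colorings_eq rfl]; exact hc)
      exact ⟨r, hst.trans hr⟩
  | @rotate A hA ih =>
      change colorings (FMV.rot A) [false, false] [false, false] = 1 at hc
      rw [colorings_rot hA.run] at hc
      obtain ⟨s, hs⟩ := ih hc
      obtain ⟨r, hr⟩ := rot_six s
      exact ⟨r, (rot_congr hs).trans hr⟩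

end Pool.Agent.FMV
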