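import Pool.Agent.FMV.Check

/-!
The table of rules used by all certificates.
-/

namespace Pool.Agent.FMV

/-- The moves, as a table. -/
def tab0 : Table :=
  [([⟨.cup, 0⟩, ⟨.cap, 1⟩], []),
   ([⟨.cup, 1⟩, ⟨.cap, 0⟩], []),
   ([⟨.pos, 0⟩, ⟨.cap, 1⟩], [⟨.neg, 1⟩, ⟨.cap, 0⟩]),
   ([⟨.neg, 0⟩, ⟨.cap, 1⟩], [⟨.pos, 1⟩, ⟨.cap, 0⟩]),
   ([⟨.cup, 0⟩, ⟨.pos, 1⟩], [⟨.cup, 1⟩, ⟨.neg, 0⟩]),
   ([⟨.cup, 0⟩, ⟨.neg, 1⟩], [⟨.cup, 1⟩, ⟨.pos, 0⟩]),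
   ([⟨.pos, 0⟩, ⟨.cap, 0⟩], [⟨.cap, 0⟩]),
   ([⟨.neg, 0⟩, ⟨.cap, 0⟩], [⟨.cap, 0⟩]),
   ([⟨.cup, 0⟩, ⟨.pos, 0⟩], [⟨.cup, 0⟩]),
   ([⟨.cup, 0⟩, ⟨.neg, 0⟩], [⟨.cup, 0⟩]),
   ([⟨.pos, 0⟩, ⟨.neg, 0⟩], []),
   ([⟨.neg, 0⟩, ⟨.pos, 0⟩], []),
   ([⟨.pos, 0⟩, ⟨.pos, 1⟩, ⟨.pos, 0⟩], [⟨.pos, 1⟩, ⟨.pos, 0⟩, ⟨.pos, 1⟩]),
   ([⟨.pos, 0⟩, ⟨.pos, 0⟩, ⟨.pos, 0⟩, ⟨.pos, 0⟩], [])]

theorem tab0_good : Table.Good tab0 := by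
  intro p hp
  simp only [tab0, List.mem_cons, List.not_mem_nil, or_false] at hp
  rcases hp with rfl | rfl | rfl | rfl | rfl | rfl | rfl | rfl | rfl | rfl | rfl | rfl |
    rfl | rfl
  · exact (Move.zig 0).validRule
  · exact (Move.zag 0).validRule
  · exact (Move.slide₁ 0).validRule
  · exact (Move.slide₂ 0).validRule
  · exact (Move.slide₃ 0).validRule
  · exact (Move.slide₄ 0).validRule
  · exact (Move.r1₁ 0).validRule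
  · exact (Move.r1₂ 0).validRule
  · exact (Move.r1₃ 0).validRule
  · exact (Move.r1₄ 0).validRule
  · exact (Move.r2₁ 0).validRule
  · exact (Move.r2₂ 0).validRule
  · exact (Move.r3 0).validRule
  · exact (Move.four 0).validRule

theorem width_two (a b : Piece) (ha : a = .pos ∨ a = .neg) (hb : b = .pos ∨ b = .neg)
    (k n m : ℕ) (h : run n (shift k [⟨a, 0⟩, ⟨b, 0⟩]) = some m) :
    ∃ j, n = k + 2 + j ∧ m = k + 2 + j := by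
  rcases ha with rfl | rfl <;> rcases hb with rfl | rfl <;>
    (simp only [shift_cons, shift_nil, run, Piece.ins, Piece.outs] at h
     split_ifs at h
     simp only [Option.some.injEq] at h
     exact ⟨n - k - 2, by omega, by omega⟩)

theorem width_three (a b c : Piece) (ha : a = .pos ∨ a = .neg) (hb : b = .pos ∨ b = .neg)
    (hc : c = .pos ∨ c = .neg)
    (k n m : ℕ) (h : run n (shift k [⟨a, 0⟩, ⟨b, 1⟩, ⟨c, 0⟩]) = some m) :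
    ∃ j, n = k + 3 + j ∧ m = k + 3 + j := by
  rcases ha with rfl | rfl <;> rcases hb with rfl | rfl <;> rcases hc with rfl | rfl <;>
    (simp only [shift_cons, shift_nil, run, Piece.ins, Piece.outs] at h
     split_ifs at h
     simp only [Option.some.injEq] at h
     exact ⟨n - k - 3, by omega, by omega⟩)

theorem rule_flip : ValidRule [⟨.pos, 0⟩, ⟨.pos, 0⟩] [⟨.neg, 0⟩, ⟨.neg, 0⟩] := by
  refine ValidRule.of (n₀ := 2) (m₀ := 2) ?_ (width_two _ _ (.inl rfl) (.inl rfl))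
  exact (checkCert_sound tab0_good (k := 3) (c := 13228600394688) (by decide)).symm

theorem rule_r3b : ValidRule [⟨.neg, 0⟩, ⟨.neg, 1⟩, ⟨.neg, 0⟩]
    [⟨.neg, 1⟩, ⟨.neg, 0⟩, ⟨.neg, 1⟩] := by
  refine ValidRule.of (n₀ := 3) (m₀ := 3) ?_
    (width_three _ _ _ (.inr rfl) (.inr rfl) (.inr rfl))
  exact checkCert_sound tab0_good (k := 7) (c := 4218931879257526576861256140526339)
    (by decide)

theorem rule_r3c : ValidRule [⟨.pos, 0⟩, ⟨.pos, 1⟩, ⟨.neg, 0⟩]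
    [⟨.neg, 1⟩, ⟨.pos, 0⟩, ⟨.pos, 1⟩] := by
  refine ValidRule.of (n₀ := 3) (m₀ := 3) ?_
    (width_three _ _ _ (.inl rfl) (.inl rfl) (.inr rfl))
  exact checkCert_sound tab0_good (k := 3) (c := 13254386717504) (by decide)

theorem rule_r3d : ValidRule [⟨.neg, 0⟩, ⟨.pos, 1⟩, ⟨.pos, 0⟩]
    [⟨.pos, 1⟩, ⟨.pos, 0⟩, ⟨.neg, 1⟩] := by
  refine ValidRule.of (n₀ := 3) (m₀ := 3) ?_
    (width_three _ _ _ (.inr rfl) (.inl rfl) (.inl rfl))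
  exact checkCert_sound tab0_good (k := 3) (c := 14302358737667) (by decide)

def tab1 : Table := tab0 ++
  [([⟨.neg, 0⟩, ⟨.pos, 1⟩, ⟨.pos, 0⟩], [⟨.pos, 1⟩, ⟨.pos, 0⟩, ⟨.neg, 1⟩]),
   ([⟨.neg, 0⟩, ⟨.neg, 1⟩, ⟨.neg, 0⟩], [⟨.neg, 1⟩, ⟨.neg, 0⟩, ⟨.neg, 1⟩])]

theorem tab1_good : Table.Good tab1 := by
  intro p hp
  simp only [tab1, List.mem_append, List.mem_cons, List.not_mem_nil, or_false] at hp
  rcases hp with hp | rfl | rfl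
  · exact tab0_good p hp
  · exact rule_r3d
  · exact rule_r3b

theorem rule_r3e : ValidRule [⟨.pos, 0⟩, ⟨.neg, 1⟩, ⟨.neg, 0⟩]
    [⟨.neg, 1⟩, ⟨.neg, 0⟩, ⟨.pos, 1⟩] := by
  refine ValidRule.of (n₀ := 3) (m₀ := 3) ?_
    (width_three _ _ _ (.inl rfl) (.inr rfl) (.inr rfl))
  exact checkCert_sound tab1_good (k := 3) (c := 13254403494720) (by decide)

theorem rule_r3f : ValidRule [⟨.neg, 0⟩, ⟨.neg, 1⟩, ⟨.pos, 0⟩]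
    [⟨.pos, 1⟩, ⟨.neg, 0⟩, ⟨.neg, 1⟩] := by
  refine ValidRule.of (n₀ := 3) (m₀ := 3) ?_
    (width_three _ _ _ (.inr rfl) (.inr rfl) (.inl rfl))
  exact checkCert_sound tab1_good (k := 3) (c := 14353923511040) (by decide)

/-- The table for all certificates: rule number `i + 2` is entry `i`. -/
def tab : Table :=
  [([⟨.cup, 0⟩, ⟨.cap, 1⟩], []),
   ([⟨.cup, 1⟩, ⟨.cap, 0⟩], []),
   ([⟨.pos, 0⟩, ⟨.cap, 1⟩], [⟨.neg, 1⟩, ⟨.cap, 0⟩]),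
   ([⟨.neg, 0⟩, ⟨.cap, 1⟩], [⟨.pos, 1⟩, ⟨.cap, 0⟩]),
   ([⟨.cup, 0⟩, ⟨.pos, 1⟩], [⟨.cup, 1⟩, ⟨.neg, 0⟩]),
   ([⟨.cup, 0⟩, ⟨.neg, 1⟩], [⟨.cup, 1⟩, ⟨.pos, 0⟩]),
   ([⟨.pos, 0⟩, ⟨.cap, 0⟩], [⟨.cap, 0⟩]),
   ([⟨.neg, 0⟩, ⟨.cap, 0⟩], [⟨.cap, 0⟩]),
   ([⟨.cup, 0⟩, ⟨.pos, 0⟩], [⟨.cup, 0⟩]),
   ([⟨.cup, 0⟩, ⟨.neg, 0⟩], [⟨.cup, 0⟩]),
   ([⟨.pos, 0⟩, ⟨.neg, 0⟩], []),
   ([⟨.neg, 0⟩, ⟨.pos, 0⟩], []),
   ([⟨.pos, 0⟩, ⟨.pos, 1⟩, ⟨.pos, 0⟩], [⟨.pos, 1⟩, ⟨.pos, 0⟩, ⟨.pos, 1⟩]),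
   ([⟨.neg, 0⟩, ⟨.neg, 1⟩, ⟨.neg, 0⟩], [⟨.neg, 1⟩, ⟨.neg, 0⟩, ⟨.neg, 1⟩]),
   ([⟨.pos, 0⟩, ⟨.pos, 1⟩, ⟨.neg, 0⟩], [⟨.neg, 1⟩, ⟨.pos, 0⟩, ⟨.pos, 1⟩]),
   ([⟨.neg, 0⟩, ⟨.pos, 1⟩, ⟨.pos, 0⟩], [⟨.pos, 1⟩, ⟨.pos, 0⟩, ⟨.neg, 1⟩]),
   ([⟨.pos, 0⟩, ⟨.neg, 1⟩, ⟨.neg, 0⟩], [⟨.neg, 1⟩, ⟨.neg, 0⟩, ⟨.pos, 1⟩]),
   ([⟨.neg, 0⟩, ⟨.neg, 1⟩, ⟨.pos, 0⟩], [⟨.pos, 1⟩, ⟨.neg, 0⟩, ⟨.neg, 1⟩]),
   ([⟨.pos, 0⟩, ⟨.pos, 0⟩], [⟨.neg, 0⟩, ⟨.neg, 0⟩])]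

theorem tab_good : Table.Good tab := by
  intro p hp
  simp only [tab, List.mem_cons, List.not_mem_nil, or_false] at hp
  rcases hp with rfl | rfl | rfl | rfl | rfl | rfl | rfl | rfl | rfl | rfl | rfl | rfl |
    rfl | rfl | rfl | rfl | rfl | rfl | rfl
  · exact (Move.zig 0).validRule
  · exact (Move.zag 0).validRule
  · exact (Move.slide₁ 0).validRule
  · exact (Move.slide₂ 0).validRule
  · exact (Move.slide₃ 0).validRule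
  · exact (Move.slide₄ 0).validRule
  · exact (Move.r1₁ 0).validRule
  · exact (Move.r1₂ 0).validRule
  · exact (Move.r1₃ 0).validRule
  · exact (Move.r1₄ 0).validRule
  · exact (Move.r2₁ 0).validRule
  · exact (Move.r2₂ 0).validRule
  · exact (Move.r3 0).validRule
  · exact rule_r3b
  · exact rule_r3c
  · exact rule_r3d
  · exact rule_r3e
  · exact rule_r3f
  · exact rule_flip

/-- The certificates of this development. -/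
theorem cert {n m : ℕ} (k c : ℕ) {w w' : Word}
    (h : checkCert tab n m k c w w' = true) : FourEquiv n m w w' :=
  checkCert_sound tab_good h

end Pool.Agent.FMV
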