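import Mathlib.GroupTheory.Subgroup.Centralizer
import Mathlib.Tactic

/-!
Identities in a quotient of the braid group on four strings.
-/

namespace Pool.Agent.FMV

section

variable {G : Type*} [Group G] {b c : G}

theorem gx_eq (hbc : b * c * b = c * b * c) : (b * c) ^ 3 = (b * c * b) * (b * c * b) := by
  calc (b * c) ^ 3 = (b * c * b) * (c * b * c) := by simp [pow_succ, mul_assoc]
    _ = _ := by rw [← hbc]

theorem gx_c (hbc : b * c * b = c * b * c) : (b * c) ^ 3 * c = c * (b * c) ^ 3 := by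
  have h₁ : (b * c * b) * c = b * (b * c * b) := by
    calc (b * c * b) * c = b * (c * b * c) := by simp [mul_assoc]
      _ = _ := by rw [← hbc]
  have h₂ : (b * c * b) * b = c * (b * c * b) := by
    calc (b * c * b) * b = (c * b * c) * b := by rw [hbc]
      _ = _ := by simp [mul_assoc]
  rw [gx_eq hbc]
  calc (b * c * b) * (b * c * b) * c = (b * c * b) * ((b * c * b) * c) := by rw [mul_assoc]
    _ = (b * c * b) * (b * (b * c * b)) := by rw [h₁]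
    _ = ((b * c * b) * b) * (b * c * b) := by rw [← mul_assoc]
    _ = c * (b * c * b) * (b * c * b) := by rw [h₂]
    _ = _ := by rw [mul_assoc]

theorem gx_b (hbc : b * c * b = c * b * c) : (b * c) ^ 3 * b = b * (b * c) ^ 3 := by
  have h₁ : (b * c * b) * c = b * (b * c * b) := by
    calc (b * c * b) * c = b * (c * b * c) := by simp [mul_assoc]
      _ = _ := by rw [← hbc]
  have h₂ : (b * c * b) * b = c * (b * c * b) := by
    calc (b * c * b) * b = (c * b * c) * b := by rw [hbc]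
      _ = _ := by simp [mul_assoc]
  rw [gx_eq hbc]
  calc (b * c * b) * (b * c * b) * b = (b * c * b) * ((b * c * b) * b) := by rw [mul_assoc]
    _ = (b * c * b) * (c * (b * c * b)) := by rw [h₂]
    _ = ((b * c * b) * c) * (b * c * b) := by rw [← mul_assoc]
    _ = b * (b * c * b) * (b * c * b) := by rw [h₁]
    _ = _ := by rw [mul_assoc]

theorem gx_eq₂ (hbc : b * c * b = c * b * c) : (b * c) ^ 3 = b * c ^ 2 * b * c ^ 2 := by
  calc (b * c) ^ 3 = b * c * (b * c * b) * c := by simp [pow_succ, mul_assoc]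
    _ = b * c * (c * b * c) * c := by rw [hbc]
    _ = _ := by simp [pow_succ, mul_assoc]

theorem gx_eq₃ (hbc : b * c * b = c * b * c) : (b * c) ^ 3 = c * b ^ 2 * c * b ^ 2 := by
  rw [gx_eq hbc]
  calc (b * c * b) * (b * c * b) = (c * b * c) * (b * c * b) := by rw [← hbc]
    _ = c * b * (c * b * c) * b := by simp [mul_assoc]
    _ = c * b * (b * c * b) * b := by rw [← hbc]
    _ = _ := by simp [pow_succ, mul_assoc]

theorem gy_eq (hbc : b * c * b = c * b * c) (hc : c ^ 4 = 1) :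
    b * c ^ 2 * b = (b * c) ^ 3 * c ^ 2 := by
  rw [gx_eq₂ hbc]
  calc b * c ^ 2 * b = b * c ^ 2 * b * c ^ 4 := by rw [hc, mul_one]
    _ = _ := by rw [mul_assoc (b * c ^ 2 * b), ← pow_add]

theorem sq_inv {g : G} (h : g ^ 4 = 1) : (g ^ 2)⁻¹ = g ^ 2 := by
  rw [inv_eq_iff_mul_eq_one, ← pow_add]
  exact h

theorem cube_inv {g : G} (h : g ^ 4 = 1) : g⁻¹ = g ^ 3 := by
  rw [inv_eq_iff_mul_eq_one, ← pow_succ']
  exact h

theorem g1 (hbc : b * c * b = c * b * c) (hb : b ^ 4 = 1) :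
    b ^ 2 * c⁻¹ * b ^ 2 = ((b * c) ^ 3)⁻¹ * c := by
  rw [gx_eq₃ hbc]
  calc b ^ 2 * c⁻¹ * b ^ 2 = (b ^ 2)⁻¹ * c⁻¹ * (b ^ 2)⁻¹ := by rw [sq_inv hb]
    _ = _ := by group

theorem g2 (hbc : b * c * b = c * b * c) :
    b⁻¹ = ((b * c) ^ 3)⁻¹ * c ^ 2 * b * c ^ 2 := by
  have h := gx_b hbc
  have h₂ := gx_eq₂ hbc
  have h₃ : (b * c) ^ 3 = b * (c ^ 2 * b * c ^ 2) := by rw [h₂]; simp [mul_assoc]
  have h₄ : ((b * c) ^ 3)⁻¹ * b⁻¹ = b⁻¹ * ((b * c) ^ 3)⁻¹ := by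
    rw [← mul_inv_rev, ← mul_inv_rev, h]
  have h₅ : c ^ 2 * b * c ^ 2 = b⁻¹ * (b * c) ^ 3 := by rw [h₃]; group
  calc b⁻¹ = (b⁻¹ * ((b * c) ^ 3)⁻¹) * (b * c) ^ 3 := by group
    _ = (((b * c) ^ 3)⁻¹ * b⁻¹) * (b * c) ^ 3 := by rw [h₄]
    _ = ((b * c) ^ 3)⁻¹ * (b⁻¹ * (b * c) ^ 3) := by rw [mul_assoc]
    _ = ((b * c) ^ 3)⁻¹ * (c ^ 2 * b * c ^ 2) := by rw [← h₅]
    _ = _ := by simp [mul_assoc]

theorem x_pow (hbc : b * c * b = c * b * c) (hb : b ^ 4 = 1) (hc : c ^ 4 = 1) :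
    ((b * c) ^ 3) ^ 4 = 1 := by
  have h : c⁻¹ * (b * c) ^ 3 = b ^ 2 * c * (b ^ 2)⁻¹ := by
    rw [gx_eq₃ hbc, sq_inv hb]
    group
  have h₂ : (c⁻¹ * (b * c) ^ 3) ^ 4 = 1 := by
    rw [h, conj_pow, hc]
    simp
  have hcomm : Commute c⁻¹ ((b * c) ^ 3) := by
    have : Commute c ((b * c) ^ 3) := (gx_c hbc).symm
    exact this.inv_left
  rw [hcomm.mul_pow] at h₂
  rw [inv_pow, hc] at h₂
  simpa using h₂

theorem y_pow (hbc : b * c * b = c * b * c)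
    (hb : b ^ 4 = 1) (hc : c ^ 4 = 1) : (b * c ^ 2 * b) ^ 4 = 1 := by
  have hcomm : Commute ((b * c) ^ 3) (c ^ 2) := by
    have : Commute ((b * c) ^ 3) c := gx_c hbc
    exact this.pow_right 2
  rw [gy_eq hbc hc, hcomm.mul_pow, x_pow hbc hb hc, one_mul, ← pow_mul,
    show 2 * 4 = 4 * 2 from rfl, pow_mul, hc, one_pow]

/-- `c b⁻¹ c⁻¹ x = b c b⁻¹`. -/
theorem k1 (hbc : b * c * b = c * b * c) (hc : c ^ 4 = 1) :
    c * b⁻¹ * c⁻¹ * (b * c) ^ 3 = b * c * b⁻¹ := by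
  have hy := gy_eq hbc hc
  have hxb := gx_b hbc
  have hxc := gx_c hbc
  have e₁ : b * c * b⁻¹ = c⁻¹ * b * c := by
    calc b * c * b⁻¹ = c⁻¹ * (c * b * c) * b⁻¹ := by group
      _ = c⁻¹ * (b * c * b) * b⁻¹ := by rw [hbc]
      _ = _ := by group
  have hxc2 : (b * c) ^ 3 * c ^ 2 = c ^ 2 * (b * c) ^ 3 := by
    have : Commute ((b * c) ^ 3) c := gx_c hbc
    exact this.pow_right 2
  have hxci : c⁻¹ * (b * c) ^ 3 = (b * c) ^ 3 * c⁻¹ := by
    have : Commute c ((b * c) ^ 3) := (gx_c hbc).symm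
    exact this.inv_left
  have hxbi : (b * c) ^ 3 * b⁻¹ = b⁻¹ * (b * c) ^ 3 := by
    have : Commute ((b * c) ^ 3) b := gx_b hbc
    exact this.inv_right
  have e₂ : b * c ^ 2 = c ^ 2 * b⁻¹ * (b * c) ^ 3 := by
    calc b * c ^ 2 = (b * c ^ 2 * b) * b⁻¹ := by group
      _ = c ^ 2 * ((b * c) ^ 3 * b⁻¹) := by rw [hy, hxc2, mul_assoc]
      _ = _ := by rw [hxbi, mul_assoc]
  calc c * b⁻¹ * c⁻¹ * (b * c) ^ 3 = c * b⁻¹ * (c⁻¹ * (b * c) ^ 3) := by rw [mul_assoc]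
    _ = c * b⁻¹ * ((b * c) ^ 3 * c⁻¹) := by rw [hxci]
    _ = c⁻¹ * (c ^ 2 * b⁻¹ * (b * c) ^ 3) * c⁻¹ := by group
    _ = c⁻¹ * (b * c ^ 2) * c⁻¹ := by rw [← e₂]
    _ = c⁻¹ * b * c := by group
    _ = _ := by rw [e₁]

end

end Pool.Agent.FMV
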