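import Pool.Agent.FMV.Color

/-!
Inequalities for numbers of colourings.
-/

namespace Pool.Agent.FMV

theorem swapAt_append {i : ℕ} {s : List Bool} (r : List Bool) (h : i + 2 ≤ s.length) :
    swapAt i (s ++ r) = swapAt i s ++ r := by
  induction i generalizing s with
  | zero =>
      match s, h with
      | x :: y :: s, _ => rfl
  | succ i ih =>
      match s, h with
      | x :: s, h =>
          simp only [List.length_cons] at h
          simp only [List.cons_append, swapAt_succ, ih (s := s) (by omega)]

theorem insertPair_append {c : Bool} {i : ℕ} {s : List Bool} (r : List Bool)
    (h : i ≤ s.length) : insertPair c i (s ++ r) = insertPair c i s ++ r := by
  induction i generalizing s with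
  | zero => simp
  | succ i ih =>
      match s, h with
      | x :: s, h =>
          simp only [List.length_cons] at h
          simp only [List.cons_append, insertPair_succ, ih (s := s) (by omega)]

theorem removePair_append {i : ℕ} {s : List Bool} (r : List Bool)
    (h : i + 2 ≤ s.length) : removePair i (s ++ r) = (removePair i s).map (· ++ r) := by
  induction i generalizing s with
  | zero =>
      match s, h with
      | x :: y :: s, _ =>
          simp only [List.cons_append, removePair_zero]
          split <;> rfl
  | succ i ih =>
      match s, h with
      | x :: s, h =>
          simp only [List.length_cons] at h
          simp only [List.cons_append, removePair_succ, ih (s := s) (by omega),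
            Option.map_map]
          rfl

/-- Strings on the right of the diagram do not matter. -/
theorem sumColorings_append_list {n m : ℕ} {w : Word} (hw : run n w = some m)
    (f : List Bool → ℕ) {s : List Bool} (r : List Bool) (hs : s.length = n) :
    sumColorings w f (s ++ r) = sumColorings w (fun t => f (t ++ r)) s := by
  induction w generalizing n s with
  | nil => simp
  | cons l a ih =>
      obtain ⟨k, i⟩ := l
      simp only [run] at hw
      split at hw
      · rename_i hle
        cases k
        · simp only [Piece.ins, Piece.outs] at hw hle
          simp only [sumColorings_pos]
          rw [swapAt_append r (by omega)]
          exact ih hw (by rw [swapAt_length]; omega)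
        · simp only [Piece.ins, Piece.outs] at hw hle
          simp only [sumColorings_neg]
          rw [swapAt_append r (by omega)]
          exact ih hw (by rw [swapAt_length]; omega)
        · simp only [Piece.ins, Piece.outs] at hw hle
          simp only [sumColorings_cup]
          rw [insertPair_append r (by omega), insertPair_append r (by omega),
            ih hw (by rw [insertPair_length _ (by omega)]; omega),
            ih hw (by rw [insertPair_length _ (by omega)]; omega)]
        · simp only [Piece.ins, Piece.outs] at hw hle
          simp only [sumColorings_cap]
          rw [removePair_append r (by omega)]
          cases hr : removePair i s with
          | none => rfl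
          | some t =>
              have := removePair_length hr
              simp only [Option.map_some, Option.elim_some]
              exact ih hw (by omega)
      · simp at hw

theorem sumColorings_mono (w : Word) {f g : List Bool → ℕ} (h : ∀ t, f t ≤ g t)
    (s : List Bool) : sumColorings w f s ≤ sumColorings w g s := by
  induction w generalizing s with
  | nil => simpa using h s
  | cons l a ih =>
      obtain ⟨k, i⟩ := l
      cases k
      · simpa using ih _
      · simpa using ih _
      · simp only [sumColorings_cup]
        exact Nat.add_le_add (ih _) (ih _)
      · simp only [sumColorings_cap]
        cases removePair i s with
        | none => simp
        | some t => simpa using ih _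

theorem sumColorings_mul (w : Word) (f : List Bool → ℕ) (k : ℕ)
    (s : List Bool) : sumColorings w (fun t => f t * k) s = sumColorings w f s * k := by
  induction w generalizing s with
  | nil => simp
  | cons l a ih =>
      obtain ⟨q, i⟩ := l
      cases q
      · simpa using ih _
      · simpa using ih _
      · simp only [sumColorings_cup, ih, Nat.add_mul]
      · simp only [sumColorings_cap]
        cases removePair i s with
        | none => simp
        | some t => simpa using ih _

theorem le_sumColorings (w : Word) (f : List Bool → ℕ) (s t : List Bool) :
    colorings w s t * f t ≤ sumColorings w f s := by
  unfold colorings
  rw [← sumColorings_mul]
  refine sumColorings_mono _ (fun u => ?_) s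
  split
  · rename_i h; subst h; simp
  · simp

theorem colorings_append (a b : Word) (s t : List Bool) :
    colorings (a ++ b) s t = sumColorings a (fun u => colorings b u t) s := by
  unfold colorings
  rw [sumColorings_append]

theorem mul_le_colorings (a b : Word) (s t u : List Bool) :
    colorings a s u * colorings b u t ≤ colorings (a ++ b) s t := by
  rw [colorings_append]
  exact le_sumColorings a (fun u => colorings b u t) s u

/-- There is a constant colouring. -/
theorem one_le_colorings {n m : ℕ} {w : Word} (hw : run n w = some m) (c : Bool) :
    1 ≤ colorings w (List.replicate n c) (List.replicate m c) := by
  induction w generalizing n with
  | nil =>
      simp only [run, Option.some.injEq] at hw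
      subst hw
      simp [colorings]
  | cons l a ih =>
      obtain ⟨k, i⟩ := l
      simp only [run] at hw
      split at hw
      · rename_i hle
        have hsplit : ∀ j, j ≤ n → List.replicate n c = List.replicate j c ++
            List.replicate (n - j) c := by
          intro j hj
          rw [List.replicate_append_replicate]
          congr 1
          omega
        have hswap : swapAt i (List.replicate n c) = List.replicate n c := by
          clear hle hw hsplit ih
          induction i generalizing n with
          | zero =>
              match n with
              | 0 => rfl
              | 1 => rfl
              | n + 2 => rfl
          | succ i ih =>
              match n with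
              | 0 => rfl
              | n + 1 => simp [List.replicate_succ, ih]
        have hins : ∀ j, j ≤ n → insertPair c j (List.replicate n c) =
            List.replicate (n + 2) c := by
          intro j
          clear hle hw hsplit ih hswap
          induction j generalizing n with
          | zero => intro _; simp [List.replicate_succ]
          | succ j ih =>
              intro hj
              match n, hj with
              | n + 1, hj =>
                  rw [List.replicate_succ, insertPair_succ, ih (n := n) (by omega)]
                  rfl
        have hrem : ∀ j, j + 2 ≤ n → removePair j (List.replicate n c) =
            some (List.replicate (n - 2) c) := by
          intro j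
          clear hle hw hsplit ih hswap hins
          induction j generalizing n with
          | zero =>
              intro hj
              match n, hj with
              | n + 2, hj => simp [List.replicate_succ]
          | succ j ih =>
              intro hj
              match n, hj with
              | n + 3, hj =>
                  rw [List.replicate_succ, removePair_succ, ih (n := n + 2) (by omega)]
                  simp [List.replicate_succ]
        cases k
        · simp only [Piece.ins, Piece.outs] at hw hle
          unfold colorings
          simp only [sumColorings_pos]
          rw [hswap]
          rw [show n - 2 + 2 = n by omega] at hw
          exact ih hw
        · simp only [Piece.ins, Piece.outs] at hw hle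
          unfold colorings
          simp only [sumColorings_neg]
          rw [hswap]
          rw [show n - 2 + 2 = n by omega] at hw
          exact ih hw
        · simp only [Piece.ins, Piece.outs] at hw hle
          unfold colorings
          simp only [sumColorings_cup]
          have := ih hw
          unfold colorings at this
          rw [Nat.sub_zero, ← hins i (by omega)] at this
          cases c <;> omega
        · simp only [Piece.ins, Piece.outs] at hw hle
          unfold colorings
          simp only [sumColorings_cap]
          rw [hrem i (by omega)]
          exact ih hw
      · simp at hw

end Pool.Agent.FMV
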