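import Pool.Agent.FMV.Letters
import Pool.Agent.FMV.Count

/-!
Levels of a closed three-string word which are not coloured by one colour.
-/

namespace Pool.Agent.FMV

theorem swapAt_not (i : ℕ) (s : List Bool) :
    swapAt i (s.map (!·)) = (swapAt i s).map (!·) := by
  induction i generalizing s with
  | zero =>
      match s with
      | [] => rfl
      | [x] => rfl
      | x :: y :: s => rfl
  | succ i ih =>
      match s with
      | [] => rfl
      | x :: s => simp [ih]

theorem insertPair_not (c : Bool) (i : ℕ) (s : List Bool) :
    insertPair (!c) i (s.map (!·)) = (insertPair c i s).map (!·) := by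
  induction i generalizing s with
  | zero => simp
  | succ i ih =>
      match s with
      | [] => rfl
      | x :: s => simp [ih]

theorem removePair_not (i : ℕ) (s : List Bool) :
    removePair i (s.map (!·)) = (removePair i s).map (List.map (!·)) := by
  induction i generalizing s with
  | zero =>
      match s with
      | [] => rfl
      | [x] => rfl
      | x :: y :: s =>
          cases x <;> cases y <;> rfl
  | succ i ih =>
      match s with
      | [] => rfl
      | x :: s =>
          simp only [List.map_cons, removePair_succ, ih, Option.map_map]
          rfl

theorem sumColorings_not (w : Word) (f : List Bool → ℕ) (s : List Bool) :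
    sumColorings w f (s.map (!·)) = sumColorings w (fun t => f (t.map (!·))) s := by
  induction w generalizing s with
  | nil => simp
  | cons l a ih =>
      obtain ⟨k, i⟩ := l
      cases k
      · simp only [sumColorings_pos, swapAt_not, ih]
      · simp only [sumColorings_neg, swapAt_not, ih]
      · simp only [sumColorings_cup]
        have h₁ := insertPair_not true i s
        have h₂ := insertPair_not false i s
        simp only [Bool.not_true, Bool.not_false] at h₁ h₂
        rw [h₁, h₂, ih, ih, Nat.add_comm]
      · simp only [sumColorings_cap, removePair_not]
        cases removePair i s with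
        | none => rfl
        | some t => simp [ih]

/-- Interchange of the two colours. -/
theorem colorings_not (w : Word) (s t : List Bool) :
    colorings w (s.map (!·)) (t.map (!·)) = colorings w s t := by
  unfold colorings
  rw [sumColorings_not]
  refine sumColorings_congr_fun _ (fun u => ?_) s
  have hinj : Function.Injective (List.map (!·)) :=
    List.map_injective_iff.2 fun a b h => by simpa using h
  by_cases h : u = t
  · subst h; simp
  · rw [if_neg h, if_neg fun h' => h (hinj h')]

theorem run_tl (p : TLetter) : run 3 (tl p) = some 3 := by
  obtain ⟨b, k⟩ := p
  cases b <;> cases k <;> rfl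

theorem run_word3' (Y : List TLetter) : run 3 (word3 Y) = some 3 := by
  induction Y with
  | nil => rfl
  | cons p Y ih => exact run_append_of (run_tl p) ih

/-- The colourings of the closure, level by level. -/
theorem colorings_closure {Y : Word} (hY : run 3 Y = some 3) :
    colorings (closure Y) [] [] =
      colorings Y [false, false, false] [false, false, false] +
      colorings Y [false, false, true] [false, false, true] +
      (colorings Y [false, true, false] [false, true, false] +
      colorings Y [false, true, true] [false, true, true]) +
      (colorings Y [true, false, false] [true, false, false] +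
      colorings Y [true, false, true] [true, false, true] +
      (colorings Y [true, true, false] [true, true, false] +
      colorings Y [true, true, true] [true, true, true])) := by
  have key : ∀ a b c : Bool,
      sumColorings (Y ++ [⟨.cap, 2⟩, ⟨.cap, 1⟩, ⟨.cap, 0⟩])
        (fun u => if u = [] then 1 else 0) [a, b, c, c, b, a] =
        colorings Y [a, b, c] [a, b, c] := by
    intro a b c
    have e : [a, b, c, c, b, a] = [a, b, c] ++ [c, b, a] := rfl
    rw [sumColorings_append, e, sumColorings_append_list hY _ _ rfl]
    unfold colorings
    refine sumColorings_congr hY (fun t ht => ?_) rfl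
    match t, ht with
    | [x, y, z], _ =>
      cases a <;> cases b <;> cases c <;> cases x <;> cases y <;> cases z <;> simp
  unfold colorings closure
  simp only [List.cons_append, List.nil_append, sumColorings_cup, insertPair_zero,
    insertPair_succ, key]
  rfl

theorem pair_of_length_three {s : List Bool} (hs : s.length = 3) :
    ∃ a b c, s = [a, b, c] := by
  match s, hs with
  | [a, b, c], _ => exact ⟨a, b, c, rfl⟩

/-- If no level of a closed colouring takes two colours, there is at most one closed
colouring which starts with a given constant level. -/
theorem colorings_const_le (Y : List TLetter) (c : Bool)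
    (hno : ∀ Y₁ Y₂ s, Y = Y₁ ++ Y₂ → s.length = 3 → s ≠ [false, false, false] →
      s ≠ [true, true, true] → colorings (word3 (Y₂ ++ Y₁)) s s = 0) (S : List TLetter) :
    ∀ P, Y = P ++ S → 1 ≤ colorings (word3 P) [c, c, c] [c, c, c] →
      colorings (word3 S) [c, c, c] [c, c, c] ≤ 1 := by
  induction S with
  | nil => intro P _ _; simp [colorings]
  | cons p S ih =>
      intro P hP h1
      have hstep : ∀ u, 1 ≤ colorings (tl p) [c, c, c] u →
          u.length = 3 → u ≠ [false, false, false] → u ≠ [true, true, true] →
          colorings (word3 S) u [c, c, c] = 0 := by
        intro u hu hl h₁ h₂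
        by_contra hne
        have h0 := hno (P ++ [p]) S u (by simp [hP]) hl h₁ h₂
        have ha : 1 ≤ colorings (word3 S) u [c, c, c] := Nat.one_le_iff_ne_zero.2 hne
        have hb : 1 ≤ colorings (word3 (P ++ [p])) [c, c, c] u := by
          rw [word3_append]
          refine le_trans ?_ (mul_le_colorings (word3 P) (word3 [p]) _ _ [c, c, c])
          refine le_trans (by norm_num : 1 ≤ 1 * 1) (Nat.mul_le_mul h1 ?_)
          simpa using hu
        have hd : 1 ≤ colorings (word3 (S ++ (P ++ [p]))) u u := by
          rw [word3_append]
          refine le_trans ?_ (mul_le_colorings (word3 S) (word3 (P ++ [p])) _ _ [c, c, c])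
          exact le_trans (by norm_num : 1 ≤ 1 * 1) (Nat.mul_le_mul ha hb)
        omega
      have hc : 1 ≤ colorings (tl p) [c, c, c] [c, c, c] :=
        one_le_colorings (run_tl p) c
      have hS : colorings (word3 S) [c, c, c] [c, c, c] ≤ 1 := by
        refine ih (P ++ [p]) (by simp [hP]) ?_
        rw [word3_append]
        refine le_trans ?_ (mul_le_colorings (word3 P) (word3 [p]) _ _ [c, c, c])
        refine le_trans (by norm_num : 1 ≤ 1 * 1) (Nat.mul_le_mul h1 ?_)
        simpa using hc
      rw [word3_cons, colorings_append]
      obtain ⟨b, k⟩ := p
      cases b <;> cases k <;> cases c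
      all_goals first
        | (simpa [tl, box, shift] using hS)
        | skip
      · have h0 := hstep [true, true, false] (by simp [colorings, tl, box, shift]) rfl
          (by simp) (by simp)
        simp [tl, box, shift, h0, hS]
      · have h0 := hstep [false, false, true] (by simp [colorings, tl, box, shift]) rfl
          (by simp) (by simp)
        simp [tl, box, shift, h0, hS]
      · have h0 := hstep [true, true, false] (by simp [colorings, tl, box, shift]) rfl
          (by simp) (by simp)
        simp [tl, box, shift, h0, hS]
      · have h0 := hstep [false, false, true] (by simp [colorings, tl, box, shift]) rfl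
          (by simp) (by simp)
        simp [tl, box, shift, h0, hS]
      · have h0 := hstep [false, true, true] (by simp [colorings, tl, box, shift]) rfl
          (by simp) (by simp)
        simp [tl, box, shift, h0, hS]
      · have h0 := hstep [true, false, false] (by simp [colorings, tl, box, shift]) rfl
          (by simp) (by simp)
        simp [tl, box, shift, h0, hS]
      · have h0 := hstep [false, true, true] (by simp [colorings, tl, box, shift]) rfl
          (by simp) (by simp)
        simp [tl, box, shift, h0, hS]
      · have h0 := hstep [true, false, false] (by simp [colorings, tl, box, shift]) rfl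
          (by simp) (by simp)
        simp [tl, box, shift, h0, hS]

/-- A closed three-string word with four closed colourings has a level which is not coloured
by one colour in some closed colouring. -/
theorem exists_level (Y : List TLetter) (h : colorings (closure (word3 Y)) [] [] = 4) :
    ∃ Y₁ Y₂ s, Y = Y₁ ++ Y₂ ∧ s.length = 3 ∧ s ≠ [false, false, false] ∧
      s ≠ [true, true, true] ∧ colorings (word3 (Y₂ ++ Y₁)) s s ≠ 0 := by
  by_contra hcon
  have hno : ∀ Y₁ Y₂ s, Y = Y₁ ++ Y₂ → s.length = 3 → s ≠ [false, false, false] →
      s ≠ [true, true, true] → colorings (word3 (Y₂ ++ Y₁)) s s = 0 := by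
    intro Y₁ Y₂ s hY hs h₁ h₂
    by_contra hne
    exact hcon ⟨Y₁, Y₂, s, hY, hs, h₁, h₂, hne⟩
  have h0 : ∀ s : List Bool, s.length = 3 → s ≠ [false, false, false] →
      s ≠ [true, true, true] → colorings (word3 Y) s s = 0 := by
    intro s hs h₁ h₂
    simpa using hno [] Y s rfl hs h₁ h₂
  have hf := colorings_const_le Y false hno Y [] rfl (by simp [colorings])
  have ht := colorings_const_le Y true hno Y [] rfl (by simp [colorings])
  rw [colorings_closure (run_word3' Y)] at h
  rw [h0 [false, false, true] rfl (by simp) (by simp),
    h0 [false, true, false] rfl (by simp) (by simp),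
    h0 [false, true, true] rfl (by simp) (by simp),
    h0 [true, false, false] rfl (by simp) (by simp),
    h0 [true, false, true] rfl (by simp) (by simp),
    h0 [true, true, false] rfl (by simp) (by simp)] at h
  omega

/-- The colourings of the partial closure. -/
theorem colorings_partial {Y : Word} (hY : run 3 Y = some 3) (a b a' b' : Bool) :
    colorings ([⟨.cup, 2⟩] ++ Y ++ [⟨.cap, 2⟩]) [a, b] [a', b'] =
      colorings Y [a, b, false] [a', b', false] + colorings Y [a, b, true] [a', b', true] := by
  have key : ∀ c : Bool,
      sumColorings (Y ++ [⟨.cap, 2⟩])
        (fun u => if u = [a', b'] then 1 else 0) [a, b, c, c] =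
        colorings Y [a, b, c] [a', b', c] := by
    intro c
    have e : [a, b, c, c] = [a, b, c] ++ [c] := rfl
    rw [sumColorings_append, e, sumColorings_append_list hY _ _ rfl]
    unfold colorings
    refine sumColorings_congr hY (fun t ht => ?_) rfl
    match t, ht with
    | [x, y, z], _ =>
      cases c <;> cases z <;> simp
  rw [← key, ← key]
  unfold colorings
  simp

/-- The partial closure of a three-string diagram with a closed colouring at a level with
different colours at the first two places. -/
theorem partial_closure {Y : Word} (hY : run 3 Y = some 3)
    (h : colorings (closure Y) [] [] = 4) {s : List Bool} (hs : s.length = 3)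
    (h01 : s[0]! ≠ s[1]!) (hc : colorings Y s s ≠ 0) :
    colorings ([⟨.cup, 2⟩] ++ Y ++ [⟨.cap, 2⟩]) [false, false] [false, false] = 1 ∧
      ∃ x t, colorings ([⟨.cup, 2⟩] ++ Y ++ [⟨.cap, 2⟩]) [x, !x] t ≠ 0 := by
  have hA : 1 ≤ colorings Y [false, false, false] [false, false, false] :=
    one_le_colorings hY false
  have n1 := colorings_not Y [false, false, false] [false, false, false]
  have n2 := colorings_not Y [false, false, true] [false, false, true]
  have n3 := colorings_not Y [false, true, false] [false, true, false]
  have n4 := colorings_not Y [false, true, true] [false, true, true]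
  simp only [List.map_cons, List.map_nil, Bool.not_true, Bool.not_false] at n1 n2 n3 n4
  rw [colorings_closure hY] at h
  obtain ⟨a, b, c, rfl⟩ := pair_of_length_three hs
  simp only [List.getElem!_cons_zero, List.getElem!_cons_succ] at h01
  have hp := colorings_partial hY
  refine ⟨?_, a, [a, !a], ?_⟩
  · rw [hp]
    cases a <;> cases b <;> cases c <;> simp at h01 <;> omega
  · rw [hp]
    cases a <;> cases b <;> cases c <;> simp at h01 <;> simp only [Bool.not_true,
      Bool.not_false] <;> omega

end Pool.Agent.FMV
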