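import Pool.Agent.FMV.Defs
import Mathlib.Tactic

namespace Pool.Agent.FMV

theorem run_append (n : ℕ) (a b : Word) :
    run n (a ++ b) = (run n a).bind fun m => run m b := by
  induction a generalizing n with
  | nil => simp [run]
  | cons l a ih =>
      simp only [List.cons_append, run]
      split
      · exact ih _
      · rfl

theorem run_append_some {n m : ℕ} {a b : Word} (h : run n (a ++ b) = some m) :
    ∃ k, run n a = some k ∧ run k b = some m := by
  rw [run_append] at h
  cases ha : run n a with
  | none => rw [ha] at h; simp at h
  | some k => rw [ha] at h; exact ⟨k, rfl, h⟩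

theorem run_append_of {n m k : ℕ} {a b : Word} (h : run n a = some k)
    (h' : run k b = some m) : run n (a ++ b) = some m := by
  rw [run_append, h]; exact h'

@[simp] theorem shift_nil (k : ℕ) : shift k [] = [] := rfl

@[simp] theorem shift_cons (k : ℕ) (l : Letter) (w : Word) :
    shift k (l :: w) = ⟨l.kind, l.place + k⟩ :: shift k w := rfl

@[simp] theorem shift_append (k : ℕ) (a b : Word) :
    shift k (a ++ b) = shift k a ++ shift k b := by simp [shift]

@[simp] theorem shift_zero (w : Word) : shift 0 w = w := by
  induction w with
  | nil => rfl
  | cons l w ih => simp [ih]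

theorem shift_shift (j k : ℕ) (w : Word) : shift j (shift k w) = shift (j + k) w := by
  induction w with
  | nil => rfl
  | cons l w ih => simp [ih]; omega

theorem run_shift {n m : ℕ} {w : Word} (j r : ℕ) (h : run n w = some m) :
    run (j + n + r) (shift j w) = some (j + m + r) := by
  induction w generalizing n with
  | nil => simp only [run, Option.some.injEq] at h; subst h; simp [run]
  | cons l w ih =>
      simp only [run] at h
      split at h
      · rename_i hl
        simp only [shift_cons, run]
        rw [if_pos (by omega)]
        have := ih h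
        rw [show j + n + r - l.kind.ins + l.kind.outs
          = j + (n - l.kind.ins + l.kind.outs) + r by omega]
        exact this
      · simp at h

theorem Move.shift {l r : Word} (h : Move l r) (k : ℕ) :
    Move (shift k l) (shift k r) := by
  cases h with
  | far a b i j =>
      have := Move.far a b (i + k) j
      simp only [shift_cons, shift_nil]
      rw [show i + a.outs + j + k = i + k + a.outs + j by omega,
        show i + a.ins + j + k = i + k + a.ins + j by omega]
      exact this
  | zig i =>
      simp only [shift_cons, shift_nil, Nat.add_right_comm i 1 k]; exact .zig _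
  | zag i =>
      simp only [shift_cons, shift_nil, Nat.add_right_comm i 1 k]; exact .zag _
  | slide₁ i =>
      simp only [shift_cons, shift_nil, Nat.add_right_comm i 1 k]; exact .slide₁ _
  | slide₂ i =>
      simp only [shift_cons, shift_nil, Nat.add_right_comm i 1 k]; exact .slide₂ _
  | slide₃ i =>
      simp only [shift_cons, shift_nil, Nat.add_right_comm i 1 k]; exact .slide₃ _
  | slide₄ i =>
      simp only [shift_cons, shift_nil, Nat.add_right_comm i 1 k]; exact .slide₄ _
  | r1₁ i => exact .r1₁ _
  | r1₂ i => exact .r1₂ _
  | r1₃ i => exact .r1₃ _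
  | r1₄ i => exact .r1₄ _
  | r2₁ i => exact .r2₁ _
  | r2₂ i => exact .r2₂ _
  | r3 i =>
      simp only [shift_cons, shift_nil, Nat.add_right_comm i 1 k]; exact .r3 _
  | four i => exact .four _

theorem FourEquiv.refl {n m : ℕ} (w : Word) : FourEquiv n m w w := Relation.EqvGen.refl _

theorem FourEquiv.symm {n m : ℕ} {w w' : Word} (h : FourEquiv n m w w') :
    FourEquiv n m w' w := Relation.EqvGen.symm _ _ h

theorem FourEquiv.trans {n m : ℕ} {w w' w'' : Word} (h : FourEquiv n m w w')
    (h' : FourEquiv n m w' w'') : FourEquiv n m w w'' := Relation.EqvGen.trans _ _ _ h h'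

/-- Equivalence inside a larger diagram. -/
theorem FourEquiv.context {n m p q j r : ℕ} {w w' a b : Word} (h : FourEquiv n m w w')
    (ha : run p a = some (j + n + r)) (hb : run (j + m + r) b = some q) :
    FourEquiv p q (a ++ shift j w ++ b) (a ++ shift j w' ++ b) := by
  induction h with
  | refl w => exact .refl _
  | symm _ _ _ ih => exact ih.symm
  | trans _ _ _ _ _ ih₁ ih₂ => exact ih₁.trans ih₂
  | rel w w' h =>
      cases h with
      | mk c l r' d h h₁ h₂ =>
          have e₁ : a ++ shift j (c ++ l ++ d) ++ b
              = (a ++ shift j c) ++ shift j l ++ (shift j d ++ b) := by simp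
          have e₂ : a ++ shift j (c ++ r' ++ d) ++ b
              = (a ++ shift j c) ++ shift j r' ++ (shift j d ++ b) := by simp
          rw [e₁, e₂]
          refine Relation.EqvGen.rel _ _ (Step.mk _ _ _ _ (h.shift j) ?_ ?_)
          · rw [← e₁]
            exact run_append_of (run_append_of ha (run_shift j r h₁)) hb
          · rw [← e₂]
            exact run_append_of (run_append_of ha (run_shift j r h₂)) hb

theorem FourEquiv.append {n m p q : ℕ} {w w' a b : Word} (h : FourEquiv n m w w')
    (ha : run p a = some n) (hb : run m b = some q) :
    FourEquiv p q (a ++ w ++ b) (a ++ w' ++ b) := by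
  have := h.context (p := p) (q := q) (j := 0) (r := 0) (a := a) (b := b)
    (by simpa using ha) (by simpa using hb)
  simpa using this

theorem FourEquiv.append_right {n m q : ℕ} {w w' b : Word} (h : FourEquiv n m w w')
    (hb : run m b = some q) : FourEquiv n q (w ++ b) (w' ++ b) := by
  have := h.append (p := n) (q := q) (a := []) (b := b) (by simp [run]) hb
  simpa using this

theorem FourEquiv.append_left {n m p : ℕ} {w w' a : Word} (h : FourEquiv n m w w')
    (ha : run p a = some n) : FourEquiv p m (a ++ w) (a ++ w') := by
  have := h.append (p := p) (q := m) (a := a) (b := []) ha (by simp [run])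
  simpa using this

theorem FourEquiv.shift {n m : ℕ} {w w' : Word} (h : FourEquiv n m w w') (j r : ℕ) :
    FourEquiv (j + n + r) (j + m + r) (FMV.shift j w) (FMV.shift j w') := by
  have := h.context (p := j + n + r) (q := j + m + r) (j := j) (r := r) (a := []) (b := [])
    (by simp [run]) (by simp [run])
  simpa using this

/-- Equivalent words are equal or both make sense. -/
theorem FourEquiv.run_iff {n m : ℕ} {w w' : Word} (h : FourEquiv n m w w') :
    run n w = some m ↔ run n w' = some m := by
  induction h with
  | refl w => exact Iff.rfl
  | symm _ _ _ ih => exact ih.symm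
  | trans _ _ _ _ _ ih₁ ih₂ => exact ih₁.trans ih₂
  | rel w w' h =>
      cases h with
      | mk c l r' d h h₁ h₂ => exact ⟨fun _ => h₂, fun _ => h₁⟩

end Pool.Agent.FMV
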