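import Pool.Agent.FMV.Basic

/-!
The number of colourings does not change under the moves.
-/

namespace Pool.Agent.FMV

@[simp] theorem insertPair_zero (c : Bool) (s : List Bool) : insertPair c 0 s = c :: c :: s := by
  cases s <;> rfl

@[simp] theorem insertPair_succ (c : Bool) (i : ℕ) (x : Bool) (s : List Bool) :
    insertPair c (i + 1) (x :: s) = x :: insertPair c i s := rfl

@[simp] theorem swapAt_zero (x y : Bool) (s : List Bool) :
    swapAt 0 (x :: y :: s) = y :: x :: s := rfl

@[simp] theorem swapAt_succ (i : ℕ) (x : Bool) (s : List Bool) :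
    swapAt (i + 1) (x :: s) = x :: swapAt i s := by cases i <;> rfl

@[simp] theorem removePair_zero (x y : Bool) (s : List Bool) :
    removePair 0 (x :: y :: s) = if x = y then some s else none := rfl

@[simp] theorem removePair_succ (i : ℕ) (x : Bool) (s : List Bool) :
    removePair (i + 1) (x :: s) = (removePair i s).map (x :: ·) := by cases i <;> rfl

@[simp] theorem sumColorings_nil (f : List Bool → ℕ) (s : List Bool) :
    sumColorings [] f s = f s := by simp [sumColorings]

@[simp] theorem sumColorings_pos (i : ℕ) (w : Word) (f : List Bool → ℕ) (s : List Bool) :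
    sumColorings (⟨.pos, i⟩ :: w) f s = sumColorings w f (swapAt i s) := by
  simp [sumColorings]

@[simp] theorem sumColorings_neg (i : ℕ) (w : Word) (f : List Bool → ℕ) (s : List Bool) :
    sumColorings (⟨.neg, i⟩ :: w) f s = sumColorings w f (swapAt i s) := by
  simp [sumColorings]

@[simp] theorem sumColorings_cup (i : ℕ) (w : Word) (f : List Bool → ℕ) (s : List Bool) :
    sumColorings (⟨.cup, i⟩ :: w) f s =
      sumColorings w f (insertPair false i s) + sumColorings w f (insertPair true i s) := by
  simp [sumColorings]

@[simp] theorem sumColorings_cap (i : ℕ) (w : Word) (f : List Bool → ℕ) (s : List Bool) :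
    sumColorings (⟨.cap, i⟩ :: w) f s = (removePair i s).elim 0 (sumColorings w f) := by
  simp [sumColorings]

theorem sumColorings_append (a b : Word) (f : List Bool → ℕ) (s : List Bool) :
    sumColorings (a ++ b) f s = sumColorings a (sumColorings b f) s := by
  induction a generalizing s with
  | nil => simp
  | cons l a ih =>
      obtain ⟨k, i⟩ := l
      cases k
      · simp [ih]
      · simp [ih]
      · simp [ih]
      · simp only [List.cons_append, sumColorings_cap]
        cases removePair i s with
        | none => rfl
        | some t => simp [ih]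

theorem sumColorings_congr_fun (w : Word) {f g : List Bool → ℕ} (h : ∀ t, f t = g t)
    (s : List Bool) : sumColorings w f s = sumColorings w g s := by
  have : f = g := funext h
  rw [this]

theorem sumColorings_add (w : Word) (f g : List Bool → ℕ) (s : List Bool) :
    sumColorings w (fun t => f t + g t) s = sumColorings w f s + sumColorings w g s := by
  induction w generalizing s with
  | nil => simp
  | cons l a ih =>
      obtain ⟨k, i⟩ := l
      cases k
      · simp [ih]
      · simp [ih]
      · simp only [sumColorings_cup, ih]; omega
      · simp only [sumColorings_cap]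
        cases removePair i s with
        | none => rfl
        | some t => simp [ih]

theorem sumColorings_zero (w : Word) (s : List Bool) :
    sumColorings w (fun _ => 0) s = 0 := by
  induction w generalizing s with
  | nil => simp
  | cons l a ih =>
      obtain ⟨k, i⟩ := l
      cases k
      · simp [ih]
      · simp [ih]
      · simp [ih]
      · simp only [sumColorings_cap]
        cases removePair i s with
        | none => rfl
        | some t => simp [ih]

theorem sumColorings_shift_one (w : Word) (f : List Bool → ℕ) (x : Bool) (s : List Bool) :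
    sumColorings (shift 1 w) f (x :: s) = sumColorings w (fun t => f (x :: t)) s := by
  induction w generalizing s with
  | nil => simp
  | cons l a ih =>
      obtain ⟨k, i⟩ := l
      cases k
      · simp [ih]
      · simp [ih]
      · simp [ih]
      · simp only [shift_cons, sumColorings_cap, removePair_succ]
        cases removePair i s with
        | none => rfl
        | some t => simp [ih]

theorem sumColorings_shift (w : Word) (f : List Bool → ℕ) (p s : List Bool) :
    sumColorings (shift p.length w) f (p ++ s) = sumColorings w (fun t => f (p ++ t)) s := by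
  induction p generalizing f with
  | nil => simp
  | cons x p ih =>
      have e : shift (x :: p).length w = shift 1 (shift p.length w) := by
        rw [shift_shift]; simp [Nat.add_comm]
      rw [e, List.cons_append, sumColorings_shift_one, ih]
      rfl

theorem swapAt_length (i : ℕ) (s : List Bool) : (swapAt i s).length = s.length := by
  induction i generalizing s with
  | zero =>
      match s with
      | [] => rfl
      | [x] => rfl
      | x :: y :: s => rfl
  | succ i ih =>
      cases s with
      | nil => rfl
      | cons x s => simp [ih]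

theorem insertPair_length (c : Bool) {i : ℕ} {s : List Bool} (h : i ≤ s.length) :
    (insertPair c i s).length = s.length + 2 := by
  induction i generalizing s with
  | zero => simp
  | succ i ih =>
      cases s with
      | nil => simp at h
      | cons x s => simp at h; simp [ih h]

theorem removePair_length {i : ℕ} {s t : List Bool} (h : removePair i s = some t) :
    s.length = t.length + 2 := by
  induction i generalizing s t with
  | zero =>
      match s with
      | [] => simp [removePair] at h
      | [x] => simp [removePair] at h
      | x :: y :: s =>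
          simp only [removePair_zero] at h
          split at h
          · simp only [Option.some.injEq] at h; subst h; rfl
          · simp at h
  | succ i ih =>
      cases s with
      | nil => simp [removePair] at h
      | cons x s =>
          simp only [removePair_succ, Option.map_eq_some_iff] at h
          obtain ⟨a, ha, rfl⟩ := h
          simp [ih ha]

/-- Only lists of the right length matter at the bottom. -/
theorem sumColorings_congr {n m : ℕ} {w : Word} (hw : run n w = some m)
    {f g : List Bool → ℕ} (h : ∀ t, t.length = m → f t = g t) {s : List Bool}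
    (hs : s.length = n) : sumColorings w f s = sumColorings w g s := by
  induction w generalizing n s with
  | nil =>
      simp only [run, Option.some.injEq] at hw
      simp only [sumColorings_nil]
      exact h s (by omega)
  | cons l a ih =>
      obtain ⟨k, i⟩ := l
      simp only [run] at hw
      split at hw
      · rename_i hle
        cases k
        · simp only [Piece.ins, Piece.outs] at hw hle
          simp only [sumColorings_pos]
          exact ih hw (by rw [swapAt_length]; omega)
        · simp only [Piece.ins, Piece.outs] at hw hle
          simp only [sumColorings_neg]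
          exact ih hw (by rw [swapAt_length]; omega)
        · simp only [Piece.ins, Piece.outs] at hw hle
          simp only [sumColorings_cup]
          rw [ih hw (by rw [insertPair_length _ (by omega)]; omega),
            ih hw (by rw [insertPair_length _ (by omega)]; omega)]
        · simp only [Piece.ins, Piece.outs] at hw hle
          simp only [sumColorings_cap]
          cases hr : removePair i s with
          | none => rfl
          | some t =>
              have := removePair_length hr
              simp only [Option.elim_some]
              exact ih hw (by omega)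
      · simp at hw

theorem split_length {s : List Bool} {i : ℕ} (h : i ≤ s.length) :
    ∃ p t, p.length = i ∧ s = p ++ t :=
  ⟨s.take i, s.drop i, by simp [h], by simp⟩

theorem base_far (a b : Piece) (k : ℕ) (g : List Bool → ℕ) (s : List Bool)
    (hs : a.ins ≤ s.length) :
    sumColorings [⟨a, 0⟩, ⟨b, a.outs + k⟩] g s =
      sumColorings [⟨b, a.ins + k⟩, ⟨a, 0⟩] g s := by
  have two (x y : Bool) (f : List Bool → ℕ) (t : List Bool) (j : ℕ) :
      sumColorings [⟨b, 2 + j⟩] f (x :: y :: t) =
        sumColorings [⟨b, j⟩] (fun u => f (x :: y :: u)) t := by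
    have := sumColorings_shift [⟨b, j⟩] f [x, y] t
    simpa [Nat.add_comm] using this
  cases a
  · match s, hs with
    | x :: y :: t, _ =>
      have e : [⟨Piece.pos, 0⟩, (⟨b, Piece.pos.outs + k⟩ : Letter)]
          = [⟨Piece.pos, 0⟩] ++ [⟨b, 2 + k⟩] := rfl
      have e' : [(⟨b, Piece.pos.ins + k⟩ : Letter), ⟨Piece.pos, 0⟩]
          = [⟨b, 2 + k⟩] ++ [⟨Piece.pos, 0⟩] := rfl
      rw [e, e', sumColorings_append, sumColorings_append, two]
      simp only [sumColorings_pos, sumColorings_nil, swapAt_zero, two]
  · match s, hs with
    | x :: y :: t, _ =>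
      have e : [⟨Piece.neg, 0⟩, (⟨b, Piece.neg.outs + k⟩ : Letter)]
          = [⟨Piece.neg, 0⟩] ++ [⟨b, 2 + k⟩] := rfl
      have e' : [(⟨b, Piece.neg.ins + k⟩ : Letter), ⟨Piece.neg, 0⟩]
          = [⟨b, 2 + k⟩] ++ [⟨Piece.neg, 0⟩] := rfl
      rw [e, e', sumColorings_append, sumColorings_append, two]
      simp only [sumColorings_neg, sumColorings_nil, swapAt_zero, two]
  · have e : [⟨Piece.cup, 0⟩, (⟨b, Piece.cup.outs + k⟩ : Letter)]
        = [⟨Piece.cup, 0⟩] ++ [⟨b, 2 + k⟩] := rfl
    have e' : [(⟨b, Piece.cup.ins + k⟩ : Letter), ⟨Piece.cup, 0⟩]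
        = [⟨b, k⟩] ++ [⟨Piece.cup, 0⟩] := by simp [Piece.ins]
    rw [e, e', sumColorings_append, sumColorings_append]
    have hr : sumColorings [⟨b, k⟩] (sumColorings [⟨Piece.cup, 0⟩] g) s =
        sumColorings [⟨b, k⟩] (fun u => g (false :: false :: u) + g (true :: true :: u)) s :=
      sumColorings_congr_fun _ (fun u => by simp) s
    rw [hr, sumColorings_add]
    simp only [sumColorings_cup, sumColorings_nil, insertPair_zero, two]
  · match s, hs with
    | x :: y :: t, _ =>
      have e : [⟨Piece.cap, 0⟩, (⟨b, Piece.cap.outs + k⟩ : Letter)]
          = [⟨Piece.cap, 0⟩] ++ [⟨b, k⟩] := by simp [Piece.outs]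
      have e' : [(⟨b, Piece.cap.ins + k⟩ : Letter), ⟨Piece.cap, 0⟩]
          = [⟨b, 2 + k⟩] ++ [⟨Piece.cap, 0⟩] := rfl
      rw [e, e', sumColorings_append, sumColorings_append, two]
      simp only [sumColorings_cap, removePair_zero]
      by_cases hxy : x = y
      · subst hxy
        simp only [if_true, Option.elim_some]
        exact sumColorings_congr_fun _ (fun u => by simp) t
      · simp only [hxy, if_false, Option.elim_none]
        rw [sumColorings_zero]

/-- The moves at place zero. -/
theorem base_move {l r : Word} (h : Move l r) {k q : ℕ} (h₁ : run k l = some q)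
    (h₂ : run k r = some q) (g : List Bool → ℕ) {s : List Bool} (hs : s.length = k) :
    sumColorings l g s = sumColorings r g s := by
  cases h with
  | far a b i j =>
      have hi : i + a.ins ≤ k := by
        simp only [run] at h₁
        by_contra hc
        rw [if_neg hc] at h₁
        simp at h₁
      obtain ⟨p, t, hp, rfl⟩ := split_length (s := s) (i := i) (by omega)
      have e₁ : [(⟨a, i⟩ : Letter), ⟨b, i + a.outs + j⟩]
          = shift p.length [⟨a, 0⟩, ⟨b, a.outs + j⟩] := by
        simp only [shift_cons, shift_nil, hp]
        rw [show a.outs + j + i = i + a.outs + j by omega, Nat.zero_add]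
      have e₂ : [(⟨b, i + a.ins + j⟩ : Letter), ⟨a, i⟩]
          = shift p.length [⟨b, a.ins + j⟩, ⟨a, 0⟩] := by
        simp only [shift_cons, shift_nil, hp]
        rw [show a.ins + j + i = i + a.ins + j by omega, Nat.zero_add]
      rw [e₁, e₂, sumColorings_shift, sumColorings_shift]
      refine base_far a b j _ t ?_
      simp only [List.length_append] at hs
      omega
  | zig i =>
      simp only [run, Piece.ins, Piece.outs] at h₁
      split_ifs at h₁ with c₁ c₂
      obtain ⟨p, t, hp, rfl⟩ := split_length (s := s) (i := i) (by omega)
      simp only [List.length_append] at hs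
      have e₁ : [(⟨.cup, i⟩ : Letter), ⟨.cap, i + 1⟩]
          = shift p.length [⟨.cup, 0⟩, ⟨.cap, 1⟩] := by
        simp [hp, Nat.add_comm]
      rw [e₁, sumColorings_shift]
      match t with
      | [] => simp at hs; omega
      | x :: t => cases x <;> simp
  | zag i =>
      simp only [run, Piece.ins, Piece.outs] at h₁
      split_ifs at h₁ with c₁ c₂
      obtain ⟨p, t, hp, rfl⟩ := split_length (s := s) (i := i) (by omega)
      simp only [List.length_append] at hs
      have e₁ : [(⟨.cup, i + 1⟩ : Letter), ⟨.cap, i⟩]
          = shift p.length [⟨.cup, 1⟩, ⟨.cap, 0⟩] := by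
        simp [hp, Nat.add_comm]
      rw [e₁, sumColorings_shift]
      match t with
      | [] => simp at hs; omega
      | x :: t => cases x <;> simp
  | slide₁ i =>
      simp only [run, Piece.ins, Piece.outs] at h₁
      split_ifs at h₁ with c₁ c₂
      obtain ⟨p, t, hp, rfl⟩ := split_length (s := s) (i := i) (by omega)
      simp only [List.length_append] at hs
      have e₁ : [(⟨.pos, i⟩ : Letter), ⟨.cap, i + 1⟩]
          = shift p.length [⟨.pos, 0⟩, ⟨.cap, 1⟩] := by
        simp [hp, Nat.add_comm]
      have e₂ : [(⟨.neg, i + 1⟩ : Letter), ⟨.cap, i⟩]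
          = shift p.length [⟨.neg, 1⟩, ⟨.cap, 0⟩] := by
        simp [hp, Nat.add_comm]
      rw [e₁, e₂, sumColorings_shift, sumColorings_shift]
      match t with
      | [] => simp at hs; omega
      | [x] => simp at hs; omega
      | [x, y] => simp at hs; omega
      | x :: y :: z :: t => cases x <;> cases y <;> cases z <;> simp
  | slide₂ i =>
      simp only [run, Piece.ins, Piece.outs] at h₁
      split_ifs at h₁ with c₁ c₂
      obtain ⟨p, t, hp, rfl⟩ := split_length (s := s) (i := i) (by omega)
      simp only [List.length_append] at hs
      have e₁ : [(⟨.neg, i⟩ : Letter), ⟨.cap, i + 1⟩]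
          = shift p.length [⟨.neg, 0⟩, ⟨.cap, 1⟩] := by
        simp [hp, Nat.add_comm]
      have e₂ : [(⟨.pos, i + 1⟩ : Letter), ⟨.cap, i⟩]
          = shift p.length [⟨.pos, 1⟩, ⟨.cap, 0⟩] := by
        simp [hp, Nat.add_comm]
      rw [e₁, e₂, sumColorings_shift, sumColorings_shift]
      match t with
      | [] => simp at hs; omega
      | [x] => simp at hs; omega
      | [x, y] => simp at hs; omega
      | x :: y :: z :: t => cases x <;> cases y <;> cases z <;> simp
  | slide₃ i =>
      simp only [run, Piece.ins, Piece.outs] at h₁
      split_ifs at h₁ with c₁ c₂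
      obtain ⟨p, t, hp, rfl⟩ := split_length (s := s) (i := i) (by omega)
      simp only [List.length_append] at hs
      have e₁ : [(⟨.cup, i⟩ : Letter), ⟨.pos, i + 1⟩]
          = shift p.length [⟨.cup, 0⟩, ⟨.pos, 1⟩] := by
        simp [hp, Nat.add_comm]
      have e₂ : [(⟨.cup, i + 1⟩ : Letter), ⟨.neg, i⟩]
          = shift p.length [⟨.cup, 1⟩, ⟨.neg, 0⟩] := by
        simp [hp, Nat.add_comm]
      rw [e₁, e₂, sumColorings_shift, sumColorings_shift]
      match t with
      | [] => simp at hs; omega
      | x :: t => simp
  | slide₄ i =>
      simp only [run, Piece.ins, Piece.outs] at h₁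
      split_ifs at h₁ with c₁ c₂
      obtain ⟨p, t, hp, rfl⟩ := split_length (s := s) (i := i) (by omega)
      simp only [List.length_append] at hs
      have e₁ : [(⟨.cup, i⟩ : Letter), ⟨.neg, i + 1⟩]
          = shift p.length [⟨.cup, 0⟩, ⟨.neg, 1⟩] := by
        simp [hp, Nat.add_comm]
      have e₂ : [(⟨.cup, i + 1⟩ : Letter), ⟨.pos, i⟩]
          = shift p.length [⟨.cup, 1⟩, ⟨.pos, 0⟩] := by
        simp [hp, Nat.add_comm]
      rw [e₁, e₂, sumColorings_shift, sumColorings_shift]
      match t with
      | [] => simp at hs; omega
      | x :: t => simp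
  | r1₁ i =>
      simp only [run, Piece.ins, Piece.outs] at h₁
      split_ifs at h₁ with c₁ c₂
      obtain ⟨p, t, hp, rfl⟩ := split_length (s := s) (i := i) (by omega)
      simp only [List.length_append] at hs
      have e₁ : [(⟨.pos, i⟩ : Letter), ⟨.cap, i⟩]
          = shift p.length [⟨.pos, 0⟩, ⟨.cap, 0⟩] := by simp [hp]
      have e₂ : [(⟨.cap, i⟩ : Letter)] = shift p.length [⟨.cap, 0⟩] := by simp [hp]
      rw [e₁, e₂, sumColorings_shift, sumColorings_shift]
      match t with
      | [] => simp at hs; omega
      | [x] => simp at hs; omega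
      | x :: y :: t => cases x <;> cases y <;> simp
  | r1₂ i =>
      simp only [run, Piece.ins, Piece.outs] at h₁
      split_ifs at h₁ with c₁ c₂
      obtain ⟨p, t, hp, rfl⟩ := split_length (s := s) (i := i) (by omega)
      simp only [List.length_append] at hs
      have e₁ : [(⟨.neg, i⟩ : Letter), ⟨.cap, i⟩]
          = shift p.length [⟨.neg, 0⟩, ⟨.cap, 0⟩] := by simp [hp]
      have e₂ : [(⟨.cap, i⟩ : Letter)] = shift p.length [⟨.cap, 0⟩] := by simp [hp]
      rw [e₁, e₂, sumColorings_shift, sumColorings_shift]
      match t with
      | [] => simp at hs; omega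
      | [x] => simp at hs; omega
      | x :: y :: t => cases x <;> cases y <;> simp
  | r1₃ i =>
      simp only [run, Piece.ins, Piece.outs] at h₁
      split_ifs at h₁ with c₁ c₂
      obtain ⟨p, t, hp, rfl⟩ := split_length (s := s) (i := i) (by omega)
      have e₁ : [(⟨.cup, i⟩ : Letter), ⟨.pos, i⟩]
          = shift p.length [⟨.cup, 0⟩, ⟨.pos, 0⟩] := by simp [hp]
      have e₂ : [(⟨.cup, i⟩ : Letter)] = shift p.length [⟨.cup, 0⟩] := by simp [hp]
      rw [e₁, e₂, sumColorings_shift, sumColorings_shift]
      simp
  | r1₄ i =>
      simp only [run, Piece.ins, Piece.outs] at h₁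
      split_ifs at h₁ with c₁ c₂
      obtain ⟨p, t, hp, rfl⟩ := split_length (s := s) (i := i) (by omega)
      have e₁ : [(⟨.cup, i⟩ : Letter), ⟨.neg, i⟩]
          = shift p.length [⟨.cup, 0⟩, ⟨.neg, 0⟩] := by simp [hp]
      have e₂ : [(⟨.cup, i⟩ : Letter)] = shift p.length [⟨.cup, 0⟩] := by simp [hp]
      rw [e₁, e₂, sumColorings_shift, sumColorings_shift]
      simp
  | r2₁ i =>
      simp only [run, Piece.ins, Piece.outs] at h₁
      split_ifs at h₁ with c₁ c₂
      obtain ⟨p, t, hp, rfl⟩ := split_length (s := s) (i := i) (by omega)
      simp only [List.length_append] at hs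
      have e₁ : [(⟨.pos, i⟩ : Letter), ⟨.neg, i⟩]
          = shift p.length [⟨.pos, 0⟩, ⟨.neg, 0⟩] := by simp [hp]
      rw [e₁, sumColorings_shift]
      match t with
      | [] => simp at hs; omega
      | [x] => simp at hs; omega
      | x :: y :: t => simp
  | r2₂ i =>
      simp only [run, Piece.ins, Piece.outs] at h₁
      split_ifs at h₁ with c₁ c₂
      obtain ⟨p, t, hp, rfl⟩ := split_length (s := s) (i := i) (by omega)
      simp only [List.length_append] at hs
      have e₁ : [(⟨.neg, i⟩ : Letter), ⟨.pos, i⟩]
          = shift p.length [⟨.neg, 0⟩, ⟨.pos, 0⟩] := by simp [hp]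
      rw [e₁, sumColorings_shift]
      match t with
      | [] => simp at hs; omega
      | [x] => simp at hs; omega
      | x :: y :: t => simp
  | r3 i =>
      simp only [run, Piece.ins, Piece.outs] at h₁
      split_ifs at h₁ with c₁ c₂ c₃
      obtain ⟨p, t, hp, rfl⟩ := split_length (s := s) (i := i) (by omega)
      simp only [List.length_append] at hs
      have e₁ : [(⟨.pos, i⟩ : Letter), ⟨.pos, i + 1⟩, ⟨.pos, i⟩]
          = shift p.length [⟨.pos, 0⟩, ⟨.pos, 1⟩, ⟨.pos, 0⟩] := by
        simp [hp, Nat.add_comm]
      have e₂ : [(⟨.pos, i + 1⟩ : Letter), ⟨.pos, i⟩, ⟨.pos, i + 1⟩]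
          = shift p.length [⟨.pos, 1⟩, ⟨.pos, 0⟩, ⟨.pos, 1⟩] := by
        simp [hp, Nat.add_comm]
      rw [e₁, e₂, sumColorings_shift, sumColorings_shift]
      match t with
      | [] => simp at hs; omega
      | [x] => simp at hs; omega
      | [x, y] => simp at hs; omega
      | x :: y :: z :: t => simp
  | four i =>
      simp only [run, Piece.ins, Piece.outs] at h₁
      split_ifs at h₁ with c₁ c₂
      obtain ⟨p, t, hp, rfl⟩ := split_length (s := s) (i := i) (by omega)
      simp only [List.length_append] at hs
      have e₁ : [(⟨.pos, i⟩ : Letter), ⟨.pos, i⟩, ⟨.pos, i⟩, ⟨.pos, i⟩]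
          = shift p.length [⟨.pos, 0⟩, ⟨.pos, 0⟩, ⟨.pos, 0⟩, ⟨.pos, 0⟩] := by simp [hp]
      rw [e₁, sumColorings_shift]
      match t with
      | [] => simp at hs; omega
      | [x] => simp at hs; omega
      | x :: y :: t => simp

/-- Equivalent diagrams have the same colourings. -/
theorem FourEquiv.sumColorings_eq {n m : ℕ} {w w' : Word} (h : FourEquiv n m w w')
    (f : List Bool → ℕ) {s : List Bool} (hs : s.length = n) :
    sumColorings w f s = sumColorings w' f s := by
  induction h with
  | refl w => rfl
  | symm _ _ _ ih => exact ih.symm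
  | trans _ _ _ _ _ ih₁ ih₂ => exact ih₁.trans ih₂
  | rel w w' h =>
      cases h with
      | mk a l r b h h₁ h₂ =>
          obtain ⟨p, hp, hb⟩ := run_append_some h₁
          obtain ⟨q, hq, hl⟩ := run_append_some hp
          obtain ⟨p', hp', hb'⟩ := run_append_some h₂
          obtain ⟨q', hq', hr⟩ := run_append_some hp'
          obtain rfl : q = q' := by rw [hq] at hq'; simpa using hq'
          have key : p = p' := by
            have hw := h
            clear h₁ h₂ hp hp' hb hb'
            cases hw <;> simp only [run, Piece.ins, Piece.outs] at hl hr <;>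
              (split_ifs at hl hr; simp only [Option.some.injEq] at hl hr; omega)
          subst key
          simp only [sumColorings_append]
          refine sumColorings_congr hq (fun t ht => ?_) hs
          exact base_move h hl hr _ ht

theorem FourEquiv.colorings_eq {n m : ℕ} {w w' : Word} (h : FourEquiv n m w w')
    {s : List Bool} (hs : s.length = n) (t : List Bool) :
    colorings w s t = colorings w' s t := h.sumColorings_eq _ hs

end Pool.Agent.FMV
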