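import Pool.Agent.FMV.DC3

/-!
One double coset up to elements which preserve the partition.
-/

namespace Pool.Agent.FMV

open Subgroup

section general

variable {G : Type*} [Group G]

theorem conj_closure {S : Set G} {g : G} (h : ∀ s ∈ S, g * s * g⁻¹ ∈ closure S) {t : G}
    (ht : t ∈ closure S) : g * t * g⁻¹ ∈ closure S := by
  induction ht using Subgroup.closure_induction with
  | mem s hs => exact h s hs
  | one => simp
  | mul s t _ _ hs ht =>
      have : g * (s * t) * g⁻¹ = (g * s * g⁻¹) * (g * t * g⁻¹) := by group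
      rw [this]
      exact mul_mem hs ht
  | inv s _ hs =>
      have : g * s⁻¹ * g⁻¹ = (g * s * g⁻¹)⁻¹ := by group
      rw [this]
      exact inv_mem hs

/-- The normaliser. -/
def Nz (H : Subgroup G) : Subgroup G := Subgroup.normalizer (H : Set G)

theorem mem_Nz {H : Subgroup G} {g : G} : g ∈ Nz H ↔ ∀ h, h ∈ H ↔ g * h * g⁻¹ ∈ H :=
  Subgroup.mem_normalizer_iff

theorem le_Nz {H : Subgroup G} : H ≤ Nz H := Subgroup.le_normalizer

theorem normalizer_of {S : Set G} {g : G} (h₁ : ∀ s ∈ S, g * s * g⁻¹ ∈ closure S)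
    (h₂ : ∀ s ∈ S, g⁻¹ * s * g ∈ closure S) : g ∈ Nz (closure S) := by
  rw [mem_Nz]
  intro t
  constructor
  · exact fun ht => conj_closure h₁ ht
  · intro ht
    have h₂' : ∀ s ∈ S, g⁻¹ * s * g⁻¹⁻¹ ∈ closure S := fun s hs => by
      rw [inv_inv]; exact h₂ s hs
    have := conj_closure h₂' ht
    have e : g⁻¹ * (g * t * g⁻¹) * g⁻¹⁻¹ = t := by group
    rwa [e] at this

theorem normalizer_of_pow {S : Set G} {g : G} (hg : g ^ 4 = 1)
    (h : ∀ s ∈ S, g * s * g⁻¹ ∈ closure S) : g ∈ Nz (closure S) := by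
  refine normalizer_of h (fun s hs => ?_)
  have h₃ := conj_closure h (conj_closure h (h s hs))
  have e : g * (g * (g * s * g⁻¹) * g⁻¹) * g⁻¹ = g ^ 3 * s * (g ^ 3)⁻¹ := by
    simp only [pow_succ, pow_zero, one_mul]
    group
  rw [e, ← cube_inv hg, inv_inv] at h₃
  exact h₃

theorem inv_conj {g s z : G} (hz : Commute z g) (h : g * s * g⁻¹ = z * s) :
    g⁻¹ * s * g = z⁻¹ * s := by
  have e : s = g⁻¹ * (z * s) * g := by rw [← h]; group
  have hz' : g⁻¹ * z = z * g⁻¹ := hz.inv_right.symm.eq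
  have e' : s = z * (g⁻¹ * s * g) := by
    calc s = (g⁻¹ * z) * s * g := by rw [mul_assoc g⁻¹ z s]; exact e
      _ = _ := by rw [hz']; group
  calc g⁻¹ * s * g = z⁻¹ * (z * (g⁻¹ * s * g)) := by group
    _ = z⁻¹ * s := by rw [← e']

end general

namespace Rels

variable {G : Type*} [Group G] {a b c x z : G} (R : Rels a b c x z)

/-- The small group of translations. -/
def L0 (a c x z : G) : Subgroup G := closure {s1 a c x, s2 a c x, z}

/-- The group of translations. -/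
def Lam (a b c x z : G) : Subgroup G :=
  closure {s1 a c x, s2 a c x, s3 a b c x, s4 a b c x, z}

theorem s1_mem : s1 a c x ∈ Lam a b c x z := subset_closure (by simp)

theorem s2_mem : s2 a c x ∈ Lam a b c x z := subset_closure (by simp)

theorem s3_mem : s3 a b c x ∈ Lam a b c x z := subset_closure (by simp)

theorem s4_mem : s4 a b c x ∈ Lam a b c x z := subset_closure (by simp)

theorem z_mem : z ∈ Lam a b c x z := subset_closure (by simp)

include R

theorem b_norm : b ∈ Nz (Lam a b c x z) := by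
  refine normalizer_of_pow R.b4 (fun s hs => ?_)
  simp only [Set.mem_insert_iff, Set.mem_singleton_iff] at hs
  rcases hs with rfl | rfl | rfl | rfl | rfl
  · exact s3_mem (z := z)
  · rw [← R.s4_eq]; exact s4_mem (z := z)
  · rw [R.d2]
    exact mul_mem (mul_mem (mul_mem (inv_mem s2_mem) z_mem) s3_mem) s4_mem
  · rw [R.d2']
    exact mul_mem (mul_mem (mul_mem s1_mem s4_mem) (inv_mem s3_mem)) z_mem
  · rw [R.zb.symm.eq, mul_inv_cancel_right]
    exact z_mem

theorem c_norm : c ∈ Nz (Lam a b c x z) := by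
  refine normalizer_of_pow R.c4 (fun s hs => ?_)
  simp only [Set.mem_insert_iff, Set.mem_singleton_iff] at hs
  rcases hs with rfl | rfl | rfl | rfl | rfl
  · rw [R.c_comm_s1.eq, mul_inv_cancel_right]
    exact s1_mem
  · rw [R.c_comm_s2.eq, mul_inv_cancel_right]
    exact s2_mem
  · rw [R.d1]
    exact mul_mem s1_mem s4_mem
  · rw [R.d1']
    exact mul_mem (mul_mem s2_mem (inv_mem s3_mem)) z_mem
  · rw [R.zc.symm.eq, mul_inv_cancel_right]
    exact z_mem

theorem bc_norm : closure {b, c} ≤ Nz (Lam a b c x z) := by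
  rw [closure_le]
  rintro g hg
  simp only [Set.mem_insert_iff, Set.mem_singleton_iff] at hg
  rcases hg with rfl | rfl
  · exact R.b_norm
  · exact R.c_norm

theorem s3_norm : s3 a b c x ∈ Nz (L0 a c x z) := by
  have m1 : s1 a c x ∈ L0 a c x z := subset_closure (by simp)
  have m2 : s2 a c x ∈ L0 a c x z := subset_closure (by simp)
  have mz : z ∈ L0 a c x z := subset_closure (by simp)
  refine normalizer_of (fun s hs => ?_) (fun s hs => ?_)
  · simp only [Set.mem_insert_iff, Set.mem_singleton_iff] at hs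
    rcases hs with rfl | rfl | rfl
    · rw [R.c31]; exact mul_mem mz m1
    · rw [R.c32]; exact mul_mem (inv_mem mz) m2
    · rw [R.z_comm_s3.symm.eq, mul_inv_cancel_right]; exact mz
  · simp only [Set.mem_insert_iff, Set.mem_singleton_iff] at hs
    rcases hs with rfl | rfl | rfl
    · rw [inv_conj R.z_comm_s3 R.c31]; exact mul_mem (inv_mem mz) m1
    · rw [inv_conj R.z_comm_s3.inv_left R.c32]; exact mul_mem (inv_mem (inv_mem mz)) m2
    · rw [R.z_comm_s3.inv_right.symm.eq, inv_mul_cancel_right]; exact mz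

theorem s4_norm : s4 a b c x ∈ Nz (L0 a c x z) := by
  have m1 : s1 a c x ∈ L0 a c x z := subset_closure (by simp)
  have m2 : s2 a c x ∈ L0 a c x z := subset_closure (by simp)
  have mz : z ∈ L0 a c x z := subset_closure (by simp)
  refine normalizer_of (fun s hs => ?_) (fun s hs => ?_)
  · simp only [Set.mem_insert_iff, Set.mem_singleton_iff] at hs
    rcases hs with rfl | rfl | rfl
    · rw [R.c41]; exact mul_mem mz m1
    · rw [R.c42]; exact mul_mem mz m2
    · rw [R.z_comm_s4.symm.eq, mul_inv_cancel_right]; exact mz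
  · simp only [Set.mem_insert_iff, Set.mem_singleton_iff] at hs
    rcases hs with rfl | rfl | rfl
    · rw [inv_conj R.z_comm_s4 R.c41]; exact mul_mem (inv_mem mz) m1
    · rw [inv_conj R.z_comm_s4 R.c42]; exact mul_mem (inv_mem mz) m2
    · rw [R.z_comm_s4.inv_right.symm.eq, inv_mul_cancel_right]; exact mz

/-- Conjugates by `b` of small translations normalise the small group. -/
theorem conj_norm {m : G} (hm : m ∈ L0 a c x z) : b * m * b⁻¹ ∈ Nz (L0 a c x z) := by
  induction hm using Subgroup.closure_induction with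
  | mem s hs =>
      simp only [Set.mem_insert_iff, Set.mem_singleton_iff] at hs
      rcases hs with rfl | rfl | rfl
      · exact R.s3_norm
      · rw [← R.s4_eq]; exact R.s4_norm
      · rw [R.zb.symm.eq]
        have : s * b * b⁻¹ = s := by group
        rw [this]
        exact le_Nz (subset_closure (by simp))
  | one => simp
  | mul s t _ _ hs ht =>
      have : b * (s * t) * b⁻¹ = (b * s * b⁻¹) * (b * t * b⁻¹) := by group
      rw [this]
      exact mul_mem hs ht
  | inv s _ hs =>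
      have : b * s⁻¹ * b⁻¹ = (b * s * b⁻¹)⁻¹ := by group
      rw [this]
      exact inv_mem hs

theorem lam_split {l : G} (hl : l ∈ Lam a b c x z) :
    ∃ l₀ ∈ L0 a c x z, ∃ m₀ ∈ L0 a c x z, l = l₀ * (b * m₀ * b⁻¹) := by
  have m1 : s1 a c x ∈ L0 a c x z := subset_closure (by simp)
  have m2 : s2 a c x ∈ L0 a c x z := subset_closure (by simp)
  have mz : z ∈ L0 a c x z := subset_closure (by simp)
  induction hl using Subgroup.closure_induction with
  | mem s hs =>
      simp only [Set.mem_insert_iff, Set.mem_singleton_iff] at hs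
      rcases hs with rfl | rfl | rfl | rfl | rfl
      · exact ⟨_, m1, 1, one_mem _, by simp⟩
      · exact ⟨_, m2, 1, one_mem _, by simp⟩
      · exact ⟨1, one_mem _, _, m1, by rw [one_mul]; rfl⟩
      · exact ⟨1, one_mem _, _, m2, by rw [one_mul, R.s4_eq]⟩
      · exact ⟨_, mz, 1, one_mem _, by simp⟩
  | one => exact ⟨1, one_mem _, 1, one_mem _, by simp⟩
  | mul s t _ _ hs ht =>
      obtain ⟨l₁, hl₁, m₁, hm₁, e₁⟩ := hs
      obtain ⟨l₂, hl₂, m₂, hm₂, e₂⟩ := ht
      have hn := (mem_Nz.1 (R.conj_norm hm₁) l₂).1 hl₂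
      refine ⟨l₁ * ((b * m₁ * b⁻¹) * l₂ * (b * m₁ * b⁻¹)⁻¹), mul_mem hl₁ hn, m₁ * m₂,
        mul_mem hm₁ hm₂, ?_⟩
      rw [e₁, e₂]
      group
  | inv s _ hs =>
      obtain ⟨l₁, hl₁, m₁, hm₁, e₁⟩ := hs
      have hn := (mem_Nz.1 (inv_mem (R.conj_norm hm₁)) l₁⁻¹).1
        (inv_mem hl₁)
      refine ⟨(b * m₁ * b⁻¹)⁻¹ * l₁⁻¹ * (b * m₁ * b⁻¹)⁻¹⁻¹, hn, m₁⁻¹, inv_mem hm₁, ?_⟩
      rw [e₁]
      group

theorem abc_split {g : G} (hg : g ∈ closure {a, b, c}) :
    ∃ l ∈ Lam a b c x z, ∃ f ∈ closure {b, c}, g = l * f := by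
  have hb : b ∈ closure {b, c} := subset_closure (by simp)
  have hc : c ∈ closure {b, c} := subset_closure (by simp)
  have hx : x ∈ closure {b, c} := by
    rw [R.g3]
    exact mul_mem (mul_mem (mul_mem hc (pow_mem hb 2)) hc) (pow_mem hb 2)
  induction hg using Subgroup.closure_induction with
  | mem s hs =>
      simp only [Set.mem_insert_iff, Set.mem_singleton_iff] at hs
      rcases hs with rfl | rfl | rfl
      · refine ⟨_, s1_mem, x * c⁻¹, mul_mem hx (inv_mem hc), ?_⟩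
        unfold s1
        group
      · exact ⟨1, one_mem _, _, hb, by simp⟩
      · exact ⟨1, one_mem _, _, hc, by simp⟩
  | one => exact ⟨1, one_mem _, 1, one_mem _, by simp⟩
  | mul s t _ _ hs ht =>
      obtain ⟨l₁, hl₁, f₁, hf₁, e₁⟩ := hs
      obtain ⟨l₂, hl₂, f₂, hf₂, e₂⟩ := ht
      have hn := (mem_Nz.1 (R.bc_norm hf₁) l₂).1 hl₂
      refine ⟨l₁ * (f₁ * l₂ * f₁⁻¹), mul_mem hl₁ hn, f₁ * f₂, mul_mem hf₁ hf₂, ?_⟩
      rw [e₁, e₂]
      group
  | inv s _ hs =>
      obtain ⟨l₁, hl₁, f₁, hf₁, e₁⟩ := hs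
      have hn := (mem_Nz.1 (inv_mem (R.bc_norm hf₁)) l₁⁻¹).1
        (inv_mem hl₁)
      refine ⟨f₁⁻¹ * l₁⁻¹ * f₁⁻¹⁻¹, hn, f₁⁻¹, inv_mem hf₁, ?_⟩
      rw [e₁]
      group

theorem f_form {f : G} (hf : f ∈ closure {c, x}) :
    ∃ u ∈ closure {c, x}, Commute u b ∧ ∃ r : ℕ, r < 4 ∧ f = u * c ^ r := by
  have hc : c ∈ closure {c, x} := subset_closure (by simp)
  have hx : x ∈ closure {c, x} := subset_closure (by simp)
  have h : ∃ m k : ℤ, f = x ^ m * c ^ k := by
    induction hf using Subgroup.closure_induction with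
    | mem s hs =>
        simp only [Set.mem_insert_iff, Set.mem_singleton_iff] at hs
        rcases hs with rfl | rfl
        · exact ⟨0, 1, by simp⟩
        · exact ⟨1, 0, by simp⟩
    | one => exact ⟨0, 0, by simp⟩
    | mul s t _ _ hs ht =>
        obtain ⟨m, k, e₁⟩ := hs
        obtain ⟨m', k', e₂⟩ := ht
        refine ⟨m + m', k + k', ?_⟩
        have hcx : c ^ k * x ^ m' = x ^ m' * c ^ k := ((R.xc.zpow_zpow m' k).symm).eq
        calc s * t = x ^ m * (c ^ k * x ^ m') * c ^ k' := by rw [e₁, e₂]; group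
          _ = x ^ m * (x ^ m' * c ^ k) * c ^ k' := by rw [hcx]
          _ = _ := by rw [zpow_add, zpow_add]; simp only [mul_assoc]
    | inv s _ hs =>
        obtain ⟨m, k, e₁⟩ := hs
        refine ⟨-m, -k, ?_⟩
        have hcx : c ^ (-k) * x ^ (-m) = x ^ (-m) * c ^ (-k) :=
          ((R.xc.zpow_zpow (-m) (-k)).symm).eq
        rw [← hcx, e₁]
        group
  obtain ⟨m, k, e⟩ := h
  refine ⟨x ^ m, zpow_mem hx m, R.xb.zpow_left m, (k % 4).toNat, by omega, ?_⟩
  rw [e]
  congr 1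
  have hk : k = 4 * (k / 4) + ((k % 4).toNat : ℤ) := by omega
  have h4 : c ^ (4 : ℤ) = 1 := by
    have := R.c4
    exact_mod_cast this
  conv_lhs => rw [hk, zpow_add, zpow_mul, h4, one_zpow, one_mul, zpow_natCast]

/-- The elements `f₁ w f₂` with `w` one of `1`, `b`, `b²`. -/
def Dc (b c x g : G) : Prop :=
  ∃ f₁ ∈ closure {c, x}, ∃ w, (w = 1 ∨ w = b ∨ w = b ^ 2) ∧ ∃ f₂ ∈ closure {c, x},
    g = f₁ * w * f₂

omit R in
theorem Dc.left {g f : G} (h : Dc b c x g) (hf : f ∈ closure {c, x}) : Dc b c x (f * g) := by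
  obtain ⟨f₁, h₁, w, hw, f₂, h₂, e⟩ := h
  exact ⟨f * f₁, mul_mem hf h₁, w, hw, f₂, h₂, by rw [e]; group⟩

omit R in
theorem Dc.right {g f : G} (h : Dc b c x g) (hf : f ∈ closure {c, x}) : Dc b c x (g * f) := by
  obtain ⟨f₁, h₁, w, hw, f₂, h₂, e⟩ := h
  exact ⟨f₁, h₁, w, hw, f₂ * f, mul_mem h₂ hf, by rw [e]; group⟩

omit R in
theorem Dc.one : Dc b c x (1 : G) :=
  ⟨1, one_mem _, 1, .inl rfl, 1, one_mem _, by simp⟩

omit R in
theorem Dc.bb : Dc b c x b :=
  ⟨1, one_mem _, _, .inr (.inl rfl), 1, one_mem _, by simp⟩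

omit R in
theorem Dc.b2 : Dc b c x (b ^ 2) :=
  ⟨1, one_mem _, _, .inr (.inr rfl), 1, one_mem _, by simp⟩

theorem Dc.table (r : ℕ) (hr : r < 4) {w : G} (hw : w = 1 ∨ w = b ∨ w = b ^ 2) :
    Dc b c x (b * c ^ r * w) := by
  have hc : c ∈ closure {c, x} := subset_closure (by simp)
  have hx : x ∈ closure {c, x} := subset_closure (by simp)
  have hc3 : c ^ 3 = c⁻¹ := (cube_inv R.c4).symm
  have hb3 : b ^ 3 = b⁻¹ := (cube_inv R.b4).symm
  have binv : Dc b c x b⁻¹ := by
    rw [R.g2]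
    exact ((Dc.bb.left (mul_mem (inv_mem hx) (pow_mem hc 2)))).right (pow_mem hc 2)
  have key : Dc b c x (b * c⁻¹ * b ^ 2) := by
    have e : b * c⁻¹ * b ^ 2 = b⁻¹ * (x⁻¹ * c) := by
      rw [← R.g1]
      group
    rw [e]
    exact binv.right (mul_mem (inv_mem hx) hc)
  have key' : Dc b c x (b * c⁻¹ * b) := by
    have e₁ : b * c⁻¹ * b = b⁻¹ * (x⁻¹ * c) * b⁻¹ := by
      rw [← R.g1]
      group
    have e₂ : b⁻¹ * x⁻¹ = x⁻¹ * b⁻¹ := R.xb.symm.inv_right.inv_left.eq
    have e₃ : c ^ 2 * (x⁻¹ * c ^ 2) = x⁻¹ * c ^ 4 := by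
      have : c ^ 2 * x⁻¹ = x⁻¹ * c ^ 2 := (R.xc.symm.inv_right.pow_left 2).eq
      calc c ^ 2 * (x⁻¹ * c ^ 2) = (c ^ 2 * x⁻¹) * c ^ 2 := by rw [mul_assoc]
        _ = x⁻¹ * (c ^ 2 * c ^ 2) := by rw [this, mul_assoc]
        _ = _ := by rw [← pow_add]
    have e₄ : b * x⁻¹ = x⁻¹ * b := R.xb.symm.inv_right.eq
    have hxc : c * x⁻¹ = x⁻¹ * c := R.xc.symm.inv_right.eq
    have hxc2 : c ^ 2 * x⁻¹ = x⁻¹ * c ^ 2 := (R.xc.symm.inv_right.pow_left 2).eq
    have e₅ : b⁻¹ * c * b⁻¹ = (x⁻¹ * c ^ 2 * x⁻¹ * c) * b * (c * c ^ 2) := by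
      calc b⁻¹ * c * b⁻¹ = (x⁻¹ * c ^ 2 * b * c ^ 2) * c * (x⁻¹ * c ^ 2 * b * c ^ 2) := by
            rw [← R.g2]
        _ = x⁻¹ * c ^ 2 * b * c ^ 2 * (c * x⁻¹) * c ^ 2 * b * c ^ 2 := by
            simp only [mul_assoc]
        _ = x⁻¹ * c ^ 2 * b * (c ^ 2 * x⁻¹) * c * c ^ 2 * b * c ^ 2 := by
            rw [hxc]; simp only [mul_assoc]
        _ = x⁻¹ * c ^ 2 * (b * x⁻¹) * c ^ 2 * c * c ^ 2 * b * c ^ 2 := by
            rw [hxc2]; simp only [mul_assoc]
        _ = x⁻¹ * c ^ 2 * (x⁻¹ * b) * (c ^ 4 * c) * b * c ^ 2 := by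
            rw [e₄]
            simp only [mul_assoc, pow_succ, pow_zero, one_mul]
        _ = x⁻¹ * c ^ 2 * x⁻¹ * (b * c * b) * c ^ 2 := by
            rw [R.c4, one_mul]; simp only [mul_assoc]
        _ = x⁻¹ * c ^ 2 * x⁻¹ * (c * b * c) * c ^ 2 := by rw [R.hbc]
        _ = _ := by simp only [mul_assoc]
    have e₆ : b * c⁻¹ * b = x⁻¹ * ((x⁻¹ * c ^ 2 * x⁻¹ * c) * b * (c * c ^ 2)) := by
      rw [e₁, ← e₅]
      calc b⁻¹ * (x⁻¹ * c) * b⁻¹ = (b⁻¹ * x⁻¹) * c * b⁻¹ := by simp only [mul_assoc]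
        _ = _ := by rw [e₂]; simp only [mul_assoc]
    rw [e₆]
    refine Dc.left ?_ (inv_mem hx)
    refine (Dc.bb.left ?_).right (mul_mem hc (pow_mem hc 2))
    exact mul_mem (mul_mem (mul_mem (inv_mem hx) (pow_mem hc 2)) (inv_mem hx)) hc
  have hy := R.y
  have hbc := R.hbc
  rcases hw with hw | hw | hw <;> rw [hw]
  · rw [mul_one]
    exact Dc.bb.right (pow_mem hc r)
  · interval_cases r
    · have : b * c ^ 0 * b = b ^ 2 := by simp [pow_two]
      rw [this]; exact Dc.b2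
    · rw [pow_one, hbc]
      exact (Dc.bb.left hc).right hc
    · rw [hy]
      have := (Dc.one (b := b) (c := c) (x := x)).left (mul_mem hx (pow_mem hc 2))
      simpa using this
    · rw [hc3]; exact key'
  · interval_cases r
    · have : b * c ^ 0 * b ^ 2 = b⁻¹ := by rw [← hb3]; simp [pow_succ, mul_assoc]
      rw [this]; exact binv
    · have : b * c ^ 1 * b ^ 2 = (c * c) * b * c := by
        calc b * c ^ 1 * b ^ 2 = (b * c * b) * b := by rw [pow_one, pow_two]; simp [mul_assoc]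
          _ = (c * b * c) * b := by rw [hbc]
          _ = c * (b * c * b) := by simp only [mul_assoc]
          _ = c * (c * b * c) := by rw [hbc]
          _ = _ := by simp only [mul_assoc]
      rw [this]
      exact (Dc.bb.left (mul_mem hc hc)).right hc
    · have : b * c ^ 2 * b ^ 2 = (x * c ^ 2) * b := by rw [← hy]; simp [pow_two, mul_assoc]
      rw [this]
      exact Dc.bb.left (mul_mem hx (pow_mem hc 2))
    · rw [hc3]; exact key

theorem Dc.bmul {g : G} (h : Dc b c x g) : Dc b c x (b * g) := by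
  obtain ⟨f₁, h₁, w, hw, f₂, h₂, e⟩ := h
  obtain ⟨u, hu, hub, r, hr, e'⟩ := R.f_form h₁
  have ht := Dc.table R r hr hw
  have e₂ : b * g = u * (b * c ^ r * w) * f₂ := by
    calc b * g = (b * u) * c ^ r * w * f₂ := by rw [e, e']; simp only [mul_assoc]
      _ = (u * b) * c ^ r * w * f₂ := by rw [hub.eq]
      _ = _ := by simp only [mul_assoc]
  rw [e₂]
  exact (ht.left hu).right h₂

theorem bc_dc {g : G} (hg : g ∈ closure {b, c}) : Dc b c x g := by
  have hc : c ∈ closure {c, x} := subset_closure (by simp)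
  induction hg using Subgroup.closure_induction_left with
  | one => exact Dc.one
  | mul_left s hs t _ ht =>
      simp only [Set.mem_insert_iff, Set.mem_singleton_iff] at hs
      rcases hs with rfl | rfl
      · exact Dc.bmul R ht
      · exact ht.left hc
  | inv_mul_cancel s hs t _ ht =>
      simp only [Set.mem_insert_iff, Set.mem_singleton_iff] at hs
      rcases hs with rfl | rfl
      · have : s⁻¹ * t = s * (s * (s * t)) := by
          rw [cube_inv R.b4]
          simp only [pow_succ, pow_zero, one_mul, mul_assoc]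
        rw [this]
        exact Dc.bmul R (Dc.bmul R (Dc.bmul R ht))
      · exact ht.left (inv_mem hc)

theorem cosets {K H : Subgroup G} (hKa : a ∈ K) (hKc : c ∈ K) (hKx : x ∈ K)
    (hKb : b ^ 2 ∈ K) (hK3 : s3 a b c x ∈ K) (ha : a ∈ H) (hc : c ∈ H) (hx : x ∈ H)
    {g : G} (hg : g ∈ closure {a, b, c}) :
    g ∈ K ∨ ∃ h₁ ∈ H, ∃ h₂ ∈ H, g = h₁ * b * h₂ := by
  have low {M : Subgroup G} (ha : a ∈ M) (hc : c ∈ M) (hx : x ∈ M) :
      L0 a c x z ≤ M ∧ z ∈ M ∧ closure {c, x} ≤ M := by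
    have h1 : s1 a c x ∈ M := mul_mem (mul_mem ha hc) (inv_mem hx)
    have h2 : s2 a c x ∈ M := mul_mem (mul_mem hx h1) (inv_mem hx)
    have hz : z ∈ M := by
      rw [R.z₁]
      exact mul_mem (mul_mem (mul_mem (mul_mem hx ha) hx) ha) (pow_mem hc 2)
    refine ⟨?_, hz, ?_⟩
    · unfold L0
      rw [closure_le]
      rintro g hg
      simp only [Set.mem_insert_iff, Set.mem_singleton_iff] at hg
      rcases hg with rfl | rfl | rfl
      · exact h1
      · exact h2
      · exact hz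
    · rw [closure_le]
      rintro g hg
      simp only [Set.mem_insert_iff, Set.mem_singleton_iff] at hg
      rcases hg with rfl | rfl
      · exact hc
      · exact hx
  obtain ⟨HL, Hz, HF⟩ := low ha hc hx
  obtain ⟨KL, Kz, KF⟩ := low hKa hKc hKx
  have hK4 : s4 a b c x ∈ K := mul_mem (mul_mem hKx hK3) (inv_mem hKx)
  have hKb' : ∀ m ∈ L0 a c x z, b * m * b⁻¹ ∈ K := by
    intro m hm
    induction hm using Subgroup.closure_induction with
    | mem s hs =>
        simp only [Set.mem_insert_iff, Set.mem_singleton_iff] at hs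
        rcases hs with rfl | rfl | rfl
        · exact hK3
        · rw [← R.s4_eq]; exact hK4
        · rw [R.zb.symm.eq]; simpa using Kz
    | one => simp
    | mul s t _ _ hs ht =>
        have : b * (s * t) * b⁻¹ = (b * s * b⁻¹) * (b * t * b⁻¹) := by group
        rw [this]
        exact mul_mem hs ht
    | inv s _ hs =>
        have : b * s⁻¹ * b⁻¹ = (b * s * b⁻¹)⁻¹ := by group
        rw [this]
        exact inv_mem hs
  obtain ⟨l, hl, f, hf, e⟩ := R.abc_split hg
  obtain ⟨f₁, hf₁, w, hw, f₂, hf₂, e₂⟩ := R.bc_dc hf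
  have hb : b ∈ closure {b, c} := subset_closure (by simp)
  have hc' : c ∈ closure {b, c} := subset_closure (by simp)
  have hx' : x ∈ closure {b, c} := by
    rw [R.g3]
    exact mul_mem (mul_mem (mul_mem hc' (pow_mem hb 2)) hc') (pow_mem hb 2)
  have hF : closure {c, x} ≤ closure {b, c} := by
    rw [closure_le]
    rintro g hg
    simp only [Set.mem_insert_iff, Set.mem_singleton_iff] at hg
    rcases hg with rfl | rfl
    · exact hc'
    · exact hx'
  have hn := (mem_Nz.1 (inv_mem (R.bc_norm (hF hf₁))) l).1 hl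
  obtain ⟨l₀, hl₀, m₀, hm₀, e₃⟩ := R.lam_split hn
  have e₄ : g = (f₁ * l₀) * (b * m₀ * b⁻¹) * w * f₂ := by
    calc g = f₁ * (f₁⁻¹ * l * f₁⁻¹⁻¹) * w * f₂ := by rw [e, e₂]; group
      _ = _ := by rw [e₃]; simp only [mul_assoc]
  rcases hw with hw | hw | hw <;> rw [hw] at e₄
  · left
    rw [e₄]
    exact mul_mem (mul_mem (mul_mem (mul_mem (KF hf₁) (KL hl₀)) (hKb' _ hm₀)) (one_mem _))
      (KF hf₂)
  · right
    refine ⟨f₁ * l₀, mul_mem (HF hf₁) (HL hl₀), m₀ * f₂, mul_mem (HL hm₀) (HF hf₂), ?_⟩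
    rw [e₄]
    group
  · left
    rw [e₄]
    exact mul_mem (mul_mem (mul_mem (mul_mem (KF hf₁) (KL hl₀)) (hKb' _ hm₀)) hKb) (KF hf₂)

end Rels

theorem double_coset {G : Type*} [Group G] {a b c : G}
    (hab : a * b * a = b * a * b) (hbc : b * c * b = c * b * c) (hac : a * c = c * a)
    (hb : b ^ 4 = 1) (hc : c ^ 4 = 1) (K : Subgroup G)
    (hKa : a ∈ K) (hKc : c ∈ K) (hKy : b * c ^ 2 * b ∈ K) (hKb : b ^ 2 ∈ K)
    (hK3 : b * (a * c * ((b * c) ^ 3)⁻¹) * b⁻¹ ∈ K)
    {g : G} (hg : g ∈ Subgroup.closure {a, b, c}) :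
    g ∈ K ∨ ∃ h₁ ∈ Subgroup.closure {a, c, b * c ^ 2 * b},
      ∃ h₂ ∈ Subgroup.closure {a, c, b * c ^ 2 * b}, g = h₁ * b * h₂ := by
  have R := rels hab hbc hac hb hc
  have hx := gx_eq₂ hbc
  have ma : a ∈ Subgroup.closure {a, c, b * c ^ 2 * b} := subset_closure (by simp)
  have mc : c ∈ Subgroup.closure {a, c, b * c ^ 2 * b} := subset_closure (by simp)
  have my : b * c ^ 2 * b ∈ Subgroup.closure {a, c, b * c ^ 2 * b} :=
    subset_closure (by simp)
  refine R.cosets hKa hKc ?_ hKb hK3 ma mc ?_ hg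
  · rw [hx]; exact mul_mem hKy (pow_mem hKc 2)
  · have e : (b * c) ^ 3 ∈ Subgroup.closure {a, c, b * c ^ 2 * b} := by
      rw [hx]; exact mul_mem my (pow_mem mc 2)
    exact e

end Pool.Agent.FMV
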