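import Pool.Agent.FMV.Letters
import Pool.Agent.FMV.Rules
import Pool.Agent.FMV.Color
import Pool.Agent.FMV.DC
import Mathlib.GroupTheory.Congruence.Hom
import Mathlib.Algebra.FreeMonoid.Basic

/-!
Braid words on four strings up to four-moves form a group; the double cosets of `H`.
-/

namespace Pool.Agent.FMV

/-! ### Colourings and permutations -/

theorem run_bw (L : List BLetter) : run 4 (bw L) = some 4 := by
  induction L with
  | nil => rfl
  | cons p L ih =>
      obtain ⟨i, s⟩ := p
      have hi : (i : ℕ) + 2 ≤ 4 := by have := i.2; omega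
      cases s <;> simp [bl, run, Piece.ins, Piece.outs, hi, ih]

theorem swapAt_ofFn (i : Fin 3) (v : Fin 4 → Bool) :
    swapAt i (List.ofFn v) = List.ofFn (v ∘ Equiv.swap i.castSucc i.succ) := by
  revert i v
  decide

theorem sumColorings_bw (L : List BLetter) (f : List Bool → ℕ) (v : Fin 4 → Bool) :
    sumColorings (bw L) f (List.ofFn v) = f (List.ofFn (v ∘ permL L)) := by
  induction L generalizing v with
  | nil => simp [permL]
  | cons p L ih =>
      obtain ⟨i, s⟩ := p
      have e : sumColorings (bw ((i, s) :: L)) f (List.ofFn v)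
          = sumColorings (bw L) f (swapAt i (List.ofFn v)) := by
        cases s <;> simp [bl]
      rw [e, swapAt_ofFn, ih]
      rfl

theorem permL_append (L L' : List BLetter) : permL (L ++ L') = permL L * permL L' := by
  induction L with
  | nil => simp [permL]
  | cons p L ih => simp [permL, ih, mul_assoc]

theorem permL_eq {L L' : List BLetter} (h : FourEquiv 4 4 (bw L) (bw L')) :
    permL L = permL L' := by
  have key : ∀ v : Fin 4 → Bool, v ∘ permL L = v ∘ permL L' := by
    intro v
    have h1 := h.sumColorings_eq (fun u => if u = List.ofFn (v ∘ permL L) then 1 else 0)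
      (s := List.ofFn v) (by simp)
    rw [sumColorings_bw, sumColorings_bw] at h1
    simp only [if_true] at h1
    have h2 : List.ofFn (v ∘ permL L') = List.ofFn (v ∘ permL L) := by
      by_contra hne
      rw [if_neg hne] at h1
      exact one_ne_zero h1
    exact (List.ofFn_injective h2).symm
  ext i
  by_contra hne
  have := congrFun (key fun j => decide (j = permL L i)) i
  simp only [Function.comp_apply, decide_true] at this
  have h3 : permL L' i = permL L i := by simpa using this.symm
  exact hne (by rw [h3])

/-! ### The group -/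

/-- Braid words on four strings up to four-moves. -/
def braidCon : Con (FreeMonoid BLetter) where
  r L L' := FourEquiv 4 4 (bw L.toList) (bw L'.toList)
  iseqv := ⟨fun _ => .refl _, .symm, .trans⟩
  mul' {w x y z} h h' := by
    have e1 : FourEquiv 4 4 (bw w.toList ++ bw y.toList) (bw x.toList ++ bw y.toList) :=
      h.append_right (run_bw _)
    have e2 : FourEquiv 4 4 (bw x.toList ++ bw y.toList) (bw x.toList ++ bw z.toList) :=
      h'.append_left (run_bw _)
    simpa using e1.trans e2

/-- The monoid of classes of braid words. -/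
abbrev BG : Type := braidCon.Quotient

/-- The class of a braid word. -/
def cls (L : List BLetter) : BG := braidCon.mk' (FreeMonoid.ofList L)

theorem cls_eq {L L' : List BLetter} : cls L = cls L' ↔ FourEquiv 4 4 (bw L) (bw L') :=
  Con.eq braidCon

theorem cls_append (L L' : List BLetter) : cls (L ++ L') = cls L * cls L' := rfl

theorem cls_nil : cls [] = 1 := rfl

theorem cls_cons (p : BLetter) (L : List BLetter) : cls (p :: L) = cls [p] * cls L := rfl

theorem cls_surj (x : BG) : ∃ L, cls L = x := by
  obtain ⟨w, rfl⟩ := Con.mk'_surjective x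
  exact ⟨w.toList, rfl⟩

theorem move4 {l r : Word} (h : Move l r) (h₁ : run 4 l = some 4) (h₂ : run 4 r = some 4) :
    FourEquiv 4 4 l r := by
  have := Step.mk (n := 4) (m := 4) [] l r [] h (by simpa using h₁) (by simpa using h₂)
  simp only [List.nil_append, List.append_nil] at this
  exact Relation.EqvGen.rel _ _ this

theorem cls_cancel (i : Fin 3) (s : Bool) : cls [(i, s)] * cls [(i, !s)] = 1 := by
  rw [← cls_append, ← cls_nil, cls_eq]
  cases s
  · refine move4 (Move.r2₂ (i : ℕ)) ?_ rfl
    revert i; decide
  · refine move4 (Move.r2₁ (i : ℕ)) ?_ rfl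
    revert i; decide

theorem exists_inv (x : BG) : ∃ y : BG, y * x = 1 := by
  obtain ⟨L, rfl⟩ := cls_surj x
  induction L with
  | nil => exact ⟨1, by rw [cls_nil, one_mul]⟩
  | cons p L ih =>
      obtain ⟨y, hy⟩ := ih
      obtain ⟨i, s⟩ := p
      refine ⟨y * cls [(i, !s)], ?_⟩
      have h1 := cls_cancel i (!s)
      rw [Bool.not_not] at h1
      have e : y * cls [(i, !s)] * cls ((i, s) :: L)
          = y * ((cls [(i, !s)] * cls [(i, s)]) * cls L) := by
        rw [cls_cons (i, s) L]
        simp only [mul_assoc]
      rw [e, h1, one_mul, hy]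

noncomputable instance : Group BG :=
  { (inferInstance : Monoid BG) with
    inv := fun x => Classical.choose (exists_inv x)
    inv_mul_cancel := fun x => Classical.choose_spec (exists_inv x) }

/-- The generator at place `i`. -/
def gen (i : Fin 3) : BG := cls [(i, true)]

theorem cls_neg (i : Fin 3) : cls [(i, false)] = (gen i)⁻¹ := by
  rw [eq_inv_iff_mul_eq_one]
  exact cls_cancel i false

theorem gen_pow_four (i : Fin 3) : gen i ^ 4 = 1 := by
  have e : gen i ^ 4 = cls [(i, true), (i, true), (i, true), (i, true)] := by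
    simp only [pow_succ, pow_zero, one_mul]
    rfl
  rw [e, ← cls_nil, cls_eq]
  refine move4 (Move.four (i : ℕ)) ?_ rfl
  clear e
  revert i; decide

theorem gen_braid01 : gen 0 * gen 1 * gen 0 = gen 1 * gen 0 * gen 1 := by
  have e : cls [(0, true), (1, true), (0, true)] = cls [(1, true), (0, true), (1, true)] := by
    rw [cls_eq]
    exact move4 (Move.r3 0) rfl rfl
  exact e

theorem gen_braid12 : gen 1 * gen 2 * gen 1 = gen 2 * gen 1 * gen 2 := by
  have e : cls [(1, true), (2, true), (1, true)] = cls [(2, true), (1, true), (2, true)] := by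
    rw [cls_eq]
    exact move4 (Move.r3 1) rfl rfl
  exact e

theorem gen_comm : gen 0 * gen 2 = gen 2 * gen 0 := by
  have e : cls [(0, true), (2, true)] = cls [(2, true), (0, true)] := by
    rw [cls_eq]
    exact move4 (Move.far .pos .pos 0 0) rfl rfl
  exact e

/-- The permutation of a class. -/
noncomputable def permG : BG →* Equiv.Perm (Fin 4) :=
  braidCon.lift
    { toFun := fun L => permL L.toList
      map_one' := rfl
      map_mul' := fun _ _ => permL_append _ _ }
    (fun _ _ h => permL_eq h)

theorem permG_cls (L : List BLetter) : permG (cls L) = permL L := rfl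

/-- The permutations which preserve the partition form a subgroup. -/
def pairSubgroup : Subgroup (Equiv.Perm (Fin 4)) where
  carrier := {σ | PairPreserving σ}
  mul_mem' {σ τ} := by
    revert σ τ
    simp only [Set.mem_ofPred_eq]
    decide
  one_mem' := by
    simp only [Set.mem_ofPred_eq]
    decide
  inv_mem' {σ} := by
    revert σ
    simp only [Set.mem_ofPred_eq]
    decide

theorem mem_pairSubgroup {σ : Equiv.Perm (Fin 4)} : σ ∈ pairSubgroup ↔ PairPreserving σ :=
  Iff.rfl

/-! ### Words in the generators of `H` -/

theorem inH_append {L L' : List BLetter} (h : InH L) (h' : InH L') : InH (L ++ L') := by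
  induction h with
  | nil => exact h'
  | a _ ih => exact .a ih
  | c _ ih => exact .c ih
  | y _ ih => exact .y ih

theorem gen_y : gen 1 * gen 2 ^ 2 * gen 1
    = cls [(1, true), (2, true), (2, true), (1, true)] := by
  rw [pow_two]
  simp only [mul_assoc]
  rfl

theorem inv_of_pow_four {G : Type*} [Group G] {x : G} (h : x ^ 4 = 1) : x⁻¹ = x * x * x := by
  rw [inv_eq_iff_mul_eq_one, ← h]
  simp only [pow_succ, pow_zero, one_mul, mul_assoc]

theorem inH_inv {L : List BLetter} (h : InH L) : ∃ L', InH L' ∧ cls L' = (cls L)⁻¹ := by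
  have step : ∀ (w L : List BLetter), InH w → cls w ^ 4 = 1 →
      (∃ L', InH L' ∧ cls L' = (cls L)⁻¹) → ∃ L', InH L' ∧ cls L' = (cls (w ++ L))⁻¹ := by
    rintro w L hw hw4 ⟨L', h1, h2⟩
    refine ⟨L' ++ (w ++ w ++ w), inH_append h1 (inH_append (inH_append hw hw) hw), ?_⟩
    rw [cls_append, cls_append, cls_append, cls_append, h2, mul_inv_rev,
      inv_of_pow_four hw4]
  induction h with
  | nil => exact ⟨[], .nil, by rw [cls_nil, inv_one]⟩
  | a _ ih => exact step [(0, true)] _ (.a .nil) (gen_pow_four 0) ih
  | c _ ih => exact step [(2, true)] _ (.c .nil) (gen_pow_four 2) ih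
  | y _ ih =>
      refine step [(1, true), (2, true), (2, true), (1, true)] _ (.y .nil) ?_ ih
      rw [← gen_y]
      exact y_pow gen_braid12 (gen_pow_four 1) (gen_pow_four 2)

theorem inH_of_mem {x : BG}
    (h : x ∈ Subgroup.closure {gen 0, gen 2, gen 1 * gen 2 ^ 2 * gen 1}) :
    ∃ L, InH L ∧ cls L = x := by
  induction h using Subgroup.closure_induction with
  | mem x hx =>
      simp only [Set.mem_insert_iff, Set.mem_singleton_iff] at hx
      rcases hx with rfl | rfl | rfl
      · exact ⟨[(0, true)], .a .nil, rfl⟩
      · exact ⟨[(2, true)], .c .nil, rfl⟩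
      · exact ⟨_, .y .nil, gen_y.symm⟩
  | one => exact ⟨[], .nil, cls_nil⟩
  | mul x y _ _ hx hy =>
      obtain ⟨L, h1, rfl⟩ := hx
      obtain ⟨L', h2, rfl⟩ := hy
      exact ⟨L ++ L', inH_append h1 h2, cls_append _ _⟩
  | inv x _ hx =>
      obtain ⟨L, h1, rfl⟩ := hx
      exact inH_inv h1

theorem cls_mem (L : List BLetter) : cls L ∈ Subgroup.closure {gen 0, gen 1, gen 2} := by
  induction L with
  | nil => exact one_mem _
  | cons p L ih =>
      rw [cls_cons]
      refine mul_mem ?_ ih
      obtain ⟨i, s⟩ := p
      have hi : gen i ∈ Subgroup.closure {gen 0, gen 1, gen 2} := by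
        apply Subgroup.subset_closure
        fin_cases i <;> simp
      cases s
      · rw [cls_neg]; exact inv_mem hi
      · exact hi

theorem permG_gen (i : Fin 3) : permG (gen i) = Equiv.swap i.castSucc i.succ := by
  rw [gen, permG_cls]
  simp [permL]

/-- A braid word on four strings preserves the partition of the places, or it is `h b h'` up
to four-moves with positive words `h`, `h'` in `a`, `c`, `b c c b`. -/
theorem braid_cases (L : List BLetter) :
    PairPreserving (permL L) ∨ ∃ L₁ L₂, InH L₁ ∧ InH L₂ ∧
      FourEquiv 4 4 (bw L) (bw (L₁ ++ (1, true) :: L₂)) := by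
  have key := double_coset gen_braid01 gen_braid12 gen_comm (gen_pow_four 1) (gen_pow_four 2)
    (pairSubgroup.comap permG)
    (by rw [Subgroup.mem_comap, permG_gen, mem_pairSubgroup]; decide)
    (by rw [Subgroup.mem_comap, permG_gen, mem_pairSubgroup]; decide)
    (by
      rw [Subgroup.mem_comap]
      simp only [map_mul, map_pow, permG_gen]
      rw [mem_pairSubgroup]
      decide)
    (by
      rw [Subgroup.mem_comap]
      simp only [map_pow, permG_gen]
      rw [mem_pairSubgroup]
      decide)
    (by
      rw [Subgroup.mem_comap]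
      simp only [map_mul, map_pow, map_inv, permG_gen]
      rw [mem_pairSubgroup]
      decide)
    (cls_mem L)
  rcases key with h | ⟨h₁, m₁, h₂, m₂, e⟩
  · left
    rw [Subgroup.mem_comap, permG_cls, mem_pairSubgroup] at h
    exact h
  · right
    obtain ⟨L₁, i₁, rfl⟩ := inH_of_mem m₁
    obtain ⟨L₂, i₂, rfl⟩ := inH_of_mem m₂
    refine ⟨L₁, L₂, i₁, i₂, ?_⟩
    rw [← cls_eq, e, cls_append, cls_cons (1, true) L₂, mul_assoc]
    rfl

end Pool.Agent.FMV
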