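import Pool.Agent.FMV.Rules

/-!
Boxes which slide around the closure, and boxes at other places.
-/

namespace Pool.Agent.FMV

theorem top_pos_0 : FourEquiv 0 6 [⟨.cup, 0⟩, ⟨.cup, 1⟩, ⟨.cup, 2⟩, ⟨.pos, 0⟩]
    [⟨.cup, 0⟩, ⟨.cup, 1⟩, ⟨.cup, 2⟩, ⟨.pos, 4⟩] := cert 5 19637426010500246929474 (by decide)

theorem bot_pos_0 : FourEquiv 6 0 [⟨.pos, 4⟩, ⟨.cap, 2⟩, ⟨.cap, 1⟩, ⟨.cap, 0⟩]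
    [⟨.pos, 0⟩, ⟨.cap, 2⟩, ⟨.cap, 1⟩, ⟨.cap, 0⟩] := cert 5 19037618597763414622272 (by decide)

theorem top_pos_1 : FourEquiv 0 6 [⟨.cup, 0⟩, ⟨.cup, 1⟩, ⟨.cup, 2⟩, ⟨.pos, 1⟩]
    [⟨.cup, 0⟩, ⟨.cup, 1⟩, ⟨.cup, 2⟩, ⟨.pos, 3⟩] := cert 3 1273268833292738 (by decide)

theorem bot_pos_1 : FourEquiv 6 0 [⟨.pos, 3⟩, ⟨.cap, 2⟩, ⟨.cap, 1⟩, ⟨.cap, 0⟩]
    [⟨.pos, 1⟩, ⟨.cap, 2⟩, ⟨.cap, 1⟩, ⟨.cap, 0⟩] := cert 3 1200666706125120 (by decide)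

theorem top_neg_0 : FourEquiv 0 6 [⟨.cup, 0⟩, ⟨.cup, 1⟩, ⟨.cup, 2⟩, ⟨.neg, 0⟩]
    [⟨.cup, 0⟩, ⟨.cup, 1⟩, ⟨.cup, 2⟩, ⟨.neg, 4⟩] := cert 5 19637570125688314396738 (by decide)

theorem bot_neg_0 : FourEquiv 6 0 [⟨.neg, 4⟩, ⟨.cap, 2⟩, ⟨.cap, 1⟩, ⟨.cap, 0⟩]
    [⟨.neg, 0⟩, ⟨.cap, 2⟩, ⟨.cap, 1⟩, ⟨.cap, 0⟩] := cert 5 19037762712951482089536 (by decide)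

theorem top_neg_1 : FourEquiv 0 6 [⟨.cup, 0⟩, ⟨.cup, 1⟩, ⟨.cup, 2⟩, ⟨.neg, 1⟩]
    [⟨.cup, 0⟩, ⟨.cup, 1⟩, ⟨.cup, 2⟩, ⟨.neg, 3⟩] := cert 3 1274368344920450 (by decide)

theorem bot_neg_1 : FourEquiv 6 0 [⟨.neg, 3⟩, ⟨.cap, 2⟩, ⟨.cap, 1⟩, ⟨.cap, 0⟩]
    [⟨.neg, 1⟩, ⟨.cap, 2⟩, ⟨.cap, 1⟩, ⟨.cap, 0⟩] := cert 3 1201766217752832 (by decide)

theorem top_turn_0 : FourEquiv 0 6 [⟨.cup, 0⟩, ⟨.cup, 1⟩, ⟨.cup, 2⟩, ⟨.cap, 0⟩, ⟨.cup, 0⟩]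
    [⟨.cup, 0⟩, ⟨.cup, 1⟩, ⟨.cup, 2⟩, ⟨.cap, 4⟩, ⟨.cup, 4⟩] := cert 11 98774880249990057928367496278738327466163747241984066 (by decide)

theorem bot_turn_0 : FourEquiv 6 0 [⟨.cap, 4⟩, ⟨.cup, 4⟩, ⟨.cap, 2⟩, ⟨.cap, 1⟩, ⟨.cap, 0⟩]
    [⟨.cap, 0⟩, ⟨.cup, 0⟩, ⟨.cap, 2⟩, ⟨.cap, 1⟩, ⟨.cap, 0⟩] := cert 11 95781713478667716147493395608515047419754515181862977 (by decide)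

theorem top_turn_1 : FourEquiv 0 6 [⟨.cup, 0⟩, ⟨.cup, 1⟩, ⟨.cup, 2⟩, ⟨.cap, 1⟩, ⟨.cup, 1⟩]
    [⟨.cup, 0⟩, ⟨.cup, 1⟩, ⟨.cup, 2⟩, ⟨.cap, 3⟩, ⟨.cup, 3⟩] := cert 5 19775058266930714906818 (by decide)

theorem bot_turn_1 : FourEquiv 6 0 [⟨.cap, 3⟩, ⟨.cup, 3⟩, ⟨.cap, 2⟩, ⟨.cap, 1⟩, ⟨.cap, 0⟩]
    [⟨.cap, 1⟩, ⟨.cup, 1⟩, ⟨.cap, 2⟩, ⟨.cap, 1⟩, ⟨.cap, 0⟩] := cert 5 18889612299610559094977 (by decide)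

theorem top_clasp_0 : FourEquiv 0 6 [⟨.cup, 0⟩, ⟨.cup, 1⟩, ⟨.cup, 2⟩, ⟨.cup, 1⟩, ⟨.pos, 0⟩, ⟨.pos, 2⟩, ⟨.cap, 1⟩]
    [⟨.cup, 0⟩, ⟨.cup, 1⟩, ⟨.cup, 2⟩, ⟨.cup, 5⟩, ⟨.pos, 4⟩, ⟨.pos, 6⟩, ⟨.cap, 5⟩] := cert 22 19375626371943835986128810656996814225127474351717951456102654219702346023443112945535137677209495878877970498 (by decide)

theorem bot_clasp_0 : FourEquiv 6 0 [⟨.cup, 5⟩, ⟨.pos, 4⟩, ⟨.pos, 6⟩, ⟨.cap, 5⟩, ⟨.cap, 2⟩, ⟨.cap, 1⟩, ⟨.cap, 0⟩]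
    [⟨.cup, 1⟩, ⟨.pos, 0⟩, ⟨.pos, 2⟩, ⟨.cap, 1⟩, ⟨.cap, 2⟩, ⟨.cap, 1⟩, ⟨.cap, 0⟩] := cert 24 337914221698835089354725514540905666851742666890506465639208477398271514837952498566552135178524810887002758975368675776 (by decide)

theorem top_clasp_1 : FourEquiv 0 6 [⟨.cup, 0⟩, ⟨.cup, 1⟩, ⟨.cup, 2⟩, ⟨.cup, 2⟩, ⟨.pos, 1⟩, ⟨.pos, 3⟩, ⟨.cap, 2⟩]
    [⟨.cup, 0⟩, ⟨.cup, 1⟩, ⟨.cup, 2⟩, ⟨.cup, 4⟩, ⟨.pos, 3⟩, ⟨.pos, 5⟩, ⟨.cap, 4⟩] := cert 14 229161243610608777858741970315412583755081831192100249060239489761346 (by decide)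

theorem bot_clasp_1 : FourEquiv 6 0 [⟨.cup, 4⟩, ⟨.pos, 3⟩, ⟨.pos, 5⟩, ⟨.cap, 4⟩, ⟨.cap, 2⟩, ⟨.cap, 1⟩, ⟨.cap, 0⟩]
    [⟨.cup, 2⟩, ⟨.pos, 1⟩, ⟨.pos, 3⟩, ⟨.cap, 2⟩, ⟨.cap, 2⟩, ⟨.cap, 1⟩, ⟨.cap, 0⟩] := cert 14 225791224566010074324976972199469702501400815162586530708126330991040 (by decide)

theorem place_turn_1 : FourEquiv 4 4 [⟨.cap, 1⟩, ⟨.cup, 1⟩]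
    [⟨.neg, 2⟩, ⟨.neg, 1⟩, ⟨.cap, 2⟩, ⟨.cup, 2⟩, ⟨.pos, 1⟩, ⟨.pos, 2⟩] := cert 8 3022354552269310569478187094227508396032 (by decide)

theorem place_turn_0 : FourEquiv 4 4 [⟨.cap, 0⟩, ⟨.cup, 0⟩]
    [⟨.neg, 1⟩, ⟨.neg, 0⟩, ⟨.cap, 1⟩, ⟨.cup, 1⟩, ⟨.pos, 0⟩, ⟨.pos, 1⟩] := cert 8 300074847714368722460676042418764775424 (by decide)

theorem place_clasp_1 : FourEquiv 4 4 [⟨.cup, 2⟩, ⟨.pos, 1⟩, ⟨.pos, 3⟩, ⟨.cap, 2⟩]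
    [⟨.neg, 2⟩, ⟨.neg, 1⟩, ⟨.cup, 3⟩, ⟨.pos, 2⟩, ⟨.pos, 4⟩, ⟨.cap, 3⟩, ⟨.pos, 1⟩, ⟨.pos, 2⟩] := cert 16 289509818000676803966604985911205819266253276440252982039113099547492537860097 (by decide)

theorem place_clasp_0 : FourEquiv 4 4 [⟨.cup, 1⟩, ⟨.pos, 0⟩, ⟨.pos, 2⟩, ⟨.cap, 1⟩]
    [⟨.neg, 1⟩, ⟨.neg, 0⟩, ⟨.cup, 2⟩, ⟨.pos, 1⟩, ⟨.pos, 3⟩, ⟨.cap, 2⟩, ⟨.pos, 0⟩, ⟨.pos, 1⟩] := cert 16 289509818000676803163135963734942629100683336886995309806052793909513055109121 (by decide)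

end Pool.Agent.FMV
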