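import Pool.Agent.FMV.Rules

/-!
The relations used in the unravelling.
-/

namespace Pool.Agent.FMV

theorem cup_a : FourEquiv 2 4 [⟨.cup, 2⟩, ⟨.pos, 0⟩]
    [⟨.pos, 0⟩, ⟨.cup, 2⟩] := cert 1 64 (by decide)

theorem cup_c : FourEquiv 2 4 [⟨.cup, 2⟩, ⟨.pos, 2⟩]
    [⟨.cup, 2⟩] := cert 1 8832 (by decide)

theorem cup_y : FourEquiv 2 4 [⟨.cup, 2⟩, ⟨.pos, 1⟩, ⟨.pos, 2⟩, ⟨.pos, 2⟩, ⟨.pos, 1⟩]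
    [⟨.cup, 2⟩] := cert 4 11099198248651526592 (by decide)

theorem cap_a : FourEquiv 4 2 [⟨.pos, 0⟩, ⟨.cap, 2⟩]
    [⟨.cap, 2⟩, ⟨.pos, 0⟩] := cert 1 0 (by decide)

theorem cap_c : FourEquiv 4 2 [⟨.pos, 2⟩, ⟨.cap, 2⟩]
    [⟨.cap, 2⟩] := cert 1 8704 (by decide)

theorem cap_y : FourEquiv 4 2 [⟨.pos, 1⟩, ⟨.pos, 2⟩, ⟨.pos, 2⟩, ⟨.pos, 1⟩, ⟨.cap, 2⟩]
    [⟨.cap, 2⟩] := cert 4 10953956078328746243 (by decide)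

theorem clasp_a : FourEquiv 4 4 [⟨.pos, 0⟩, ⟨.cup, 3⟩, ⟨.pos, 2⟩, ⟨.pos, 4⟩, ⟨.cap, 3⟩]
    [⟨.cup, 3⟩, ⟨.pos, 2⟩, ⟨.pos, 4⟩, ⟨.cap, 3⟩, ⟨.pos, 0⟩] := cert 4 6755433800925184 (by decide)

theorem clasp_c1 : FourEquiv 4 4 [⟨.pos, 2⟩, ⟨.cup, 3⟩, ⟨.pos, 2⟩, ⟨.pos, 4⟩, ⟨.cap, 3⟩]
    [⟨.cup, 3⟩, ⟨.pos, 2⟩, ⟨.pos, 4⟩, ⟨.cap, 3⟩] := cert 8 5742329863766174300450251998392337506753 (by decide)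

theorem clasp_c2 : FourEquiv 4 4 [⟨.cup, 3⟩, ⟨.pos, 2⟩, ⟨.pos, 4⟩, ⟨.cap, 3⟩, ⟨.pos, 2⟩]
    [⟨.cup, 3⟩, ⟨.pos, 2⟩, ⟨.pos, 4⟩, ⟨.cap, 3⟩] := cert 8 8380848066530774897670524101680664224192 (by decide)

theorem clasp_y : FourEquiv 4 4 [⟨.pos, 1⟩, ⟨.pos, 2⟩, ⟨.pos, 2⟩, ⟨.pos, 1⟩, ⟨.cup, 3⟩, ⟨.pos, 2⟩, ⟨.pos, 4⟩, ⟨.cap, 3⟩]
    [⟨.cup, 3⟩, ⟨.pos, 2⟩, ⟨.pos, 4⟩, ⟨.cap, 3⟩, ⟨.pos, 1⟩, ⟨.pos, 2⟩, ⟨.pos, 2⟩, ⟨.pos, 1⟩] := cert 34 22647521583761488581079256034864550257699087658355079355102260516789696511158313500669295330502454670858520488426500895036815544742471284197860317984497811910231161569285 (by decide)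

theorem cup_b_cap : FourEquiv 2 2 [⟨.cup, 2⟩, ⟨.pos, 1⟩, ⟨.cap, 2⟩]
    [] := cert 3 72568916873664 (by decide)

theorem cup_b_clasp : FourEquiv 2 4 [⟨.cup, 2⟩, ⟨.pos, 1⟩, ⟨.cup, 3⟩, ⟨.pos, 2⟩, ⟨.pos, 4⟩, ⟨.cap, 3⟩]
    [⟨.cup, 2⟩, ⟨.pos, 1⟩, ⟨.pos, 1⟩] := cert 13 116832456008580177736116996327213643839319004973325916424334807488 (by decide)

theorem pos_four : FourEquiv 2 2 [⟨.pos, 0⟩, ⟨.pos, 0⟩, ⟨.pos, 0⟩, ⟨.pos, 0⟩]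
    [] := cert 3 14293760345344 (by decide)

theorem unlink_cert : FourEquiv 0 0 [⟨.cup, 0⟩, ⟨.cup, 1⟩, ⟨.cap, 1⟩, ⟨.cap, 0⟩]
    [⟨.cup, 0⟩, ⟨.cap, 0⟩, ⟨.cup, 0⟩, ⟨.cap, 0⟩] := cert 6 2514584605221622513588699970 (by decide)

end Pool.Agent.FMV
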