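import Pool.Agent.FMV.Basic

/-!
A checker for sequences of moves.
-/

namespace Pool.Agent.FMV

/-- Code of a letter. -/
def Letter.code : Letter → ℕ
  | ⟨.pos, i⟩ => 4 * i
  | ⟨.neg, i⟩ => 4 * i + 1
  | ⟨.cup, i⟩ => 4 * i + 2
  | ⟨.cap, i⟩ => 4 * i + 3

theorem Letter.code_inj {a b : Letter} (h : a.code = b.code) : a = b := by
  obtain ⟨ka, ia⟩ := a
  obtain ⟨kb, ib⟩ := b
  cases ka <;> cases kb <;> simp only [Letter.code] at h <;>
    first
    | (have : ia = ib := by omega
       subst this; rfl)
    | (exfalso; omega)

/-- The rest of the second word if it begins with the first. -/
def strip : Word → Word → Option Word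
  | [], w => some w
  | a :: l, b :: w => bif Nat.beq a.code b.code then strip l w else none
  | _ :: _, [] => none

theorem strip_eq {l w r : Word} (h : strip l w = some r) : w = l ++ r := by
  induction l generalizing w with
  | nil => simp only [strip, Option.some.injEq] at h; simp [h]
  | cons a l ih =>
      cases w with
      | nil => simp [strip] at h
      | cons b w =>
          simp only [strip] at h
          cases hb : Nat.beq a.code b.code with
          | false => rw [hb] at h; simp at h
          | true =>
              rw [hb] at h
              have e := Letter.code_inj (Nat.eq_of_beq_eq_true hb)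
              subst e
              rw [ih h]; rfl

/-- Replace the subword `l` at position `k` by `r`. -/
def replaceAt (l r : Word) : ℕ → Word → Option Word
  | 0, w => match strip l w with
      | some t => some (r ++ t)
      | none => none
  | k + 1, x :: w => match replaceAt l r k w with
      | some t => some (x :: t)
      | none => none
  | _ + 1, [] => none

theorem replaceAt_eq {l r : Word} {k : ℕ} {w w' : Word} (h : replaceAt l r k w = some w') :
    ∃ a b, w = a ++ l ++ b ∧ w' = a ++ r ++ b := by
  induction k generalizing w w' with
  | zero =>
      simp only [replaceAt] at h
      cases hs : strip l w with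
      | none => rw [hs] at h; simp at h
      | some t =>
          rw [hs] at h
          simp only [Option.some.injEq] at h
          exact ⟨[], t, by simpa using strip_eq hs, by simp [← h]⟩
  | succ k ih =>
      cases w with
      | nil => simp [replaceAt] at h
      | cons x w =>
          simp only [replaceAt] at h
          cases hr : replaceAt l r k w with
          | none => rw [hr] at h; simp at h
          | some t =>
              rw [hr] at h
              simp only [Option.some.injEq] at h
              obtain ⟨a, b, e₁, e₂⟩ := ih hr
              exact ⟨x :: a, b, by simp [e₁], by simp [← h, e₂]⟩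

/-- Interchange of the two first letters, the second one lying to the right. -/
def commR : Word → Option Word
  | g :: h :: w =>
      bif Nat.ble (g.place + g.kind.outs) h.place then
        some (⟨h.kind, g.place + g.kind.ins + (h.place - (g.place + g.kind.outs))⟩ :: g :: w)
      else none
  | _ => none

/-- Interchange of the two first letters, the second one lying to the left. -/
def commL : Word → Option Word
  | g :: h :: w =>
      bif Nat.ble (h.place + h.kind.ins) g.place then
        some (h :: ⟨g.kind, h.place + h.kind.outs + (g.place - (h.place + h.kind.ins))⟩ :: w)
      else none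
  | _ => none

theorem commR_eq {w w' : Word} (h : commR w = some w') :
    ∃ l r b, Move l r ∧ w = l ++ b ∧ w' = r ++ b := by
  match w with
  | [] => simp [commR] at h
  | [g] => simp [commR] at h
  | g :: k :: w =>
      simp only [commR] at h
      cases hb : Nat.ble (g.place + g.kind.outs) k.place with
      | false => rw [hb] at h; simp at h
      | true =>
          rw [hb] at h
          simp only [cond_true, Option.some.injEq] at h
          have hle := Nat.le_of_ble_eq_true hb
          refine ⟨_, _, w, Move.far g.kind k.kind g.place
            (k.place - (g.place + g.kind.outs)), ?_, ?_⟩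
          · simp only [List.cons_append, List.nil_append]
            rw [show g.place + g.kind.outs + (k.place - (g.place + g.kind.outs)) = k.place by
              omega]
          · rw [← h]; rfl

theorem commL_eq {w w' : Word} (h : commL w = some w') :
    ∃ l r b, Move l r ∧ w = r ++ b ∧ w' = l ++ b := by
  match w with
  | [] => simp [commL] at h
  | [g] => simp [commL] at h
  | g :: k :: w =>
      simp only [commL] at h
      cases hb : Nat.ble (k.place + k.kind.ins) g.place with
      | false => rw [hb] at h; simp at h
      | true =>
          rw [hb] at h
          simp only [cond_true, Option.some.injEq] at h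
          have hle := Nat.le_of_ble_eq_true hb
          refine ⟨_, _, w, Move.far k.kind g.kind k.place
            (g.place - (k.place + k.kind.ins)), ?_, ?_⟩
          · simp only [List.cons_append, List.nil_append]
            rw [show k.place + k.kind.ins + (g.place - (k.place + k.kind.ins)) = g.place by
              omega]
          · rw [← h]; rfl

/-- Apply a partial function to the word behind the first `k` letters. -/
def behind (f : Word → Option Word) : ℕ → Word → Option Word
  | 0, w => f w
  | k + 1, x :: w => match behind f k w with
      | some t => some (x :: t)
      | none => none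
  | _ + 1, [] => none

theorem behind_eq {f : Word → Option Word} {k : ℕ} {w w' : Word}
    (h : behind f k w = some w') : ∃ a u v, w = a ++ u ∧ w' = a ++ v ∧ f u = some v := by
  induction k generalizing w w' with
  | zero => exact ⟨[], w, w', rfl, rfl, h⟩
  | succ k ih =>
      cases w with
      | nil => simp [behind] at h
      | cons x w =>
          simp only [behind] at h
          cases hr : behind f k w with
          | none => rw [hr] at h; simp at h
          | some t =>
              rw [hr] at h
              simp only [Option.some.injEq] at h
              obtain ⟨a, u, v, e₁, e₂, e₃⟩ := ih hr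
              exact ⟨x :: a, u, v, by simp [e₁], by simp [← h, e₂], e₃⟩

/-- A rule which may be used at every place inside every diagram. -/
def ValidRule (l r : Word) : Prop :=
  ∀ (k n m : ℕ) (a b : Word), run n (a ++ shift k l ++ b) = some m →
    run n (a ++ shift k r ++ b) = some m →
    FourEquiv n m (a ++ shift k l ++ b) (a ++ shift k r ++ b)

theorem Move.validRule {l r : Word} (h : Move l r) : ValidRule l r := by
  intro k n m a b h₁ h₂
  exact Relation.EqvGen.rel _ _ (Step.mk _ _ _ _ (h.shift k) h₁ h₂)

theorem ValidRule.symm {l r : Word} (h : ValidRule l r) : ValidRule r l :=
  fun k n m a b h₁ h₂ => (h k n m a b h₂ h₁).symm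

theorem ValidRule.of {n₀ m₀ : ℕ} {l r : Word} (h : FourEquiv n₀ m₀ l r)
    (hl : ∀ k n m, run n (FMV.shift k l) = some m →
      ∃ j, n = k + n₀ + j ∧ m = k + m₀ + j) : ValidRule l r := by
  intro k n m a b h₁ _
  obtain ⟨p, hp, hb⟩ := run_append_some h₁
  obtain ⟨q, hq, hl'⟩ := run_append_some hp
  obtain ⟨j, rfl, rfl⟩ := hl k q p hl'
  exact h.context hq hb

/-- The table of rules. -/
abbrev Table := List (Word × Word)

def Table.Good (T : Table) : Prop := ∀ p ∈ T, ValidRule p.1 p.2

/-- One step: `c` is position + 64 * rule + 4096 * shift + 65536 * direction. Rules 0 and 1
are the interchanges. -/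
def stepAt (T : Table) (c : ℕ) (w : Word) : Option Word :=
  let pos := c % 64
  let rule := c / 64 % 64
  match rule with
  | 0 => behind commR pos w
  | 1 => behind commL pos w
  | i + 2 => match T[i]? with
      | none => none
      | some p =>
          bif Nat.beq (c / 65536 % 2) 0 then
            replaceAt (shift (c / 4096 % 16) p.1) (shift (c / 4096 % 16) p.2) pos w
          else
            replaceAt (shift (c / 4096 % 16) p.2) (shift (c / 4096 % 16) p.1) pos w

theorem stepAt_sound {T : Table} (hT : T.Good) {c n m : ℕ} {w w' : Word}
    (h : stepAt T c w = some w') (h₁ : run n w = some m) (h₂ : run n w' = some m) :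
    FourEquiv n m w w' := by
  unfold stepAt at h
  simp only at h
  split at h
  · obtain ⟨a, u, v, rfl, rfl, hf⟩ := behind_eq h
    obtain ⟨l, r, b, hm, rfl, rfl⟩ := commR_eq hf
    have := Relation.EqvGen.rel _ _ (Step.mk (n := n) (m := m) a l r b hm
      (by simpa using h₁) (by simpa using h₂))
    simpa [FourEquiv] using this
  · obtain ⟨a, u, v, rfl, rfl, hf⟩ := behind_eq h
    obtain ⟨l, r, b, hm, rfl, rfl⟩ := commL_eq hf
    have := Relation.EqvGen.rel _ _ (Step.mk (n := n) (m := m) a l r b hm
      (by simpa using h₂) (by simpa using h₁))
    have := Relation.EqvGen.symm _ _ this
    simpa [FourEquiv] using this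
  · split at h
    · simp at h
    · rename_i p hp
      have hv := hT p (List.mem_of_getElem? hp)
      cases hb : Nat.beq (c / 65536 % 2) 0 with
      | true =>
          rw [hb] at h
          obtain ⟨a, b, rfl, rfl⟩ := replaceAt_eq h
          exact hv _ _ _ _ _ h₁ h₂
      | false =>
          rw [hb] at h
          obtain ⟨a, b, rfl, rfl⟩ := replaceAt_eq h
          exact hv.symm _ _ _ _ _ h₁ h₂

def sameOpt : Option ℕ → ℕ → Bool
  | some a, b => Nat.beq a b
  | none, _ => false

theorem sameOpt_eq {o : Option ℕ} {m : ℕ} (h : sameOpt o m = true) : o = some m := by
  cases o with
  | none => simp [sameOpt] at h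
  | some a => simp only [sameOpt] at h; rw [Nat.eq_of_beq_eq_true h]

/-- Run a sequence of `k` steps coded by the number `c` in base 2 ^ 17. -/
def runCert (T : Table) (n m : ℕ) : ℕ → ℕ → Word → Option Word
  | 0, _, w => some w
  | k + 1, c, w => match stepAt T (c % 131072) w with
      | none => none
      | some w' => bif sameOpt (run n w') m then runCert T n m k (c / 131072) w' else none

theorem runCert_sound {T : Table} (hT : T.Good) {n m k c : ℕ} {w w' : Word}
    (h : runCert T n m k c w = some w') (h₁ : run n w = some m) :
    FourEquiv n m w w' ∧ run n w' = some m := by
  induction k generalizing c w with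
  | zero =>
      simp only [runCert, Option.some.injEq] at h
      subst h; exact ⟨.refl _, h₁⟩
  | succ k ih =>
      simp only [runCert] at h
      cases hs : stepAt T (c % 131072) w with
      | none => rw [hs] at h; simp at h
      | some u =>
          rw [hs] at h
          simp only at h
          cases hr : sameOpt (run n u) m with
          | false => rw [hr] at h; simp at h
          | true =>
              rw [hr] at h
              simp only [cond_true] at h
              have hu := sameOpt_eq hr
              obtain ⟨h₃, h₄⟩ := ih h hu
              exact ⟨(stepAt_sound hT hs h₁ hu).trans h₃, h₄⟩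

def sameWord : Word → Word → Bool
  | [], [] => true
  | a :: u, b :: v => bif Nat.beq a.code b.code then sameWord u v else false
  | _, _ => false

theorem sameWord_eq {u v : Word} (h : sameWord u v = true) : u = v := by
  induction u generalizing v with
  | nil => cases v with
      | nil => rfl
      | cons b v => simp [sameWord] at h
  | cons a u ih =>
      cases v with
      | nil => simp [sameWord] at h
      | cons b v =>
          simp only [sameWord] at h
          cases hb : Nat.beq a.code b.code with
          | false => rw [hb] at h; simp at h
          | true =>
              rw [hb] at h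
              rw [Letter.code_inj (Nat.eq_of_beq_eq_true hb), ih h]

/-- The full check of one certificate. -/
def checkCert (T : Table) (n m k c : ℕ) (w w' : Word) : Bool :=
  bif sameOpt (run n w) m then
    match runCert T n m k c w with
    | none => false
    | some u => sameWord u w'
  else false

theorem checkCert_sound {T : Table} (hT : T.Good) {n m k c : ℕ} {w w' : Word}
    (h : checkCert T n m k c w w' = true) : FourEquiv n m w w' := by
  unfold checkCert at h
  cases hr : sameOpt (run n w) m with
  | false => rw [hr] at h; simp at h
  | true =>
      rw [hr] at h
      simp only [cond_true] at h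
      split at h
      · simp at h
      · rename_i u hu
        rw [← sameWord_eq h]
        exact (runCert_sound hT hu (sameOpt_eq hr)).1

end Pool.Agent.FMV
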