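import Pool.Agent.FMV.Braid
import Pool.Agent.FMV.Count
import Pool.Agent.FMV.CertC

/-!
Unravelling of partial closures.
-/

namespace Pool.Agent.FMV

/-- The box on the third and fourth string. -/
def bx (k : Bool) : Word :=
  if k then [⟨.cup, 3⟩, ⟨.pos, 2⟩, ⟨.pos, 4⟩, ⟨.cap, 3⟩] else [⟨.cap, 2⟩, ⟨.cup, 2⟩]

/-- Braids on four strings with boxes between them. -/
def boxes : List (List BLetter × Bool) → List BLetter → Word
  | [], g => bw g
  | p :: r, g => bw p.1 ++ bx p.2 ++ boxes r g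

/-- A power of the crossing of the first two strings. -/
def pow (j : ℕ) : Word := List.replicate j ⟨.pos, 0⟩

@[simp] theorem pow_zero' : pow 0 = [] := rfl

theorem pow_succ' (j : ℕ) : pow (j + 1) = ⟨.pos, 0⟩ :: pow j := rfl

theorem pow_add' (i j : ℕ) : pow i ++ pow j = pow (i + j) := by
  simp [pow, List.replicate_append_replicate]

theorem run_pow (n j : ℕ) : run (n + 2) (pow j) = some (n + 2) := by
  induction j with
  | zero => rfl
  | succ j ih =>
      rw [pow_succ']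
      simp only [run, Piece.ins, Piece.outs]
      rw [if_pos (by omega)]
      exact ih

theorem run_bx (k : Bool) : run 4 (bx k) = some 4 := by cases k <;> rfl

theorem run_boxes (r : List (List BLetter × Bool)) (g : List BLetter) :
    run 4 (boxes r g) = some 4 := by
  induction r with
  | nil => exact run_bw g
  | cons p r ih => exact run_append_of (run_append_of (run_bw _) (run_bx _)) ih

theorem cup_H {L : List BLetter} (h : InH L) :
    ∃ j, FourEquiv 2 4 ([⟨.cup, 2⟩] ++ bw L) (pow j ++ [⟨.cup, 2⟩]) := by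
  induction h with
  | nil => exact ⟨0, .refl _⟩
  | @a L _ ih =>
      obtain ⟨j, hj⟩ := ih
      refine ⟨j + 1, (cup_a.append_right (run_bw L)).trans ?_⟩
      exact hj.append_left (a := [⟨.pos, 0⟩]) (p := 2) rfl
  | @c L _ ih =>
      obtain ⟨j, hj⟩ := ih
      exact ⟨j, (cup_c.append_right (run_bw L)).trans hj⟩
  | @y L _ ih =>
      obtain ⟨j, hj⟩ := ih
      exact ⟨j, (cup_y.append_right (run_bw L)).trans hj⟩

theorem cap_H {L : List BLetter} (h : InH L) :
    ∃ j, FourEquiv 4 2 (bw L ++ [⟨.cap, 2⟩]) ([⟨.cap, 2⟩] ++ pow j) := by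
  induction h with
  | nil => exact ⟨0, .refl _⟩
  | @a L _ ih =>
      obtain ⟨j, hj⟩ := ih
      refine ⟨j + 1, (hj.append_left (a := [⟨.pos, 0⟩]) (p := 4) rfl).trans ?_⟩
      exact cap_a.append_right (run_pow 0 j)
  | @c L _ ih =>
      obtain ⟨j, hj⟩ := ih
      refine ⟨j, (hj.append_left (a := [⟨.pos, 2⟩]) (p := 4) rfl).trans ?_⟩
      exact cap_c.append_right (run_pow 0 j)
  | @y L _ ih =>
      obtain ⟨j, hj⟩ := ih
      refine ⟨j, (hj.append_left (a := [⟨.pos, 1⟩, ⟨.pos, 2⟩, ⟨.pos, 2⟩, ⟨.pos, 1⟩])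
        (p := 4) rfl).trans ?_⟩
      exact cap_y.append_right (run_pow 0 j)

theorem clasp_H {L : List BLetter} (h : InH L) :
    FourEquiv 4 4 (bw L ++ bx true) (bx true ++ bw L) := by
  induction h with
  | nil => exact .refl _
  | @a L _ ih =>
      refine (ih.append_left (a := [⟨.pos, 0⟩]) (p := 4) rfl).trans ?_
      exact clasp_a.append_right (run_bw L)
  | @c L _ ih =>
      refine (ih.append_left (a := [⟨.pos, 2⟩]) (p := 4) rfl).trans ?_
      refine (clasp_c1.append_right (run_bw L)).trans ?_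
      exact (clasp_c2.append_right (run_bw L)).symm
  | @y L _ ih =>
      refine (ih.append_left (a := [⟨.pos, 1⟩, ⟨.pos, 2⟩, ⟨.pos, 2⟩, ⟨.pos, 1⟩])
        (p := 4) rfl).trans ?_
      exact clasp_y.append_right (run_bw L)

/-- The conditions on colourings: no closed component, the top strings are not joined. -/
def Good (T : Word) : Prop :=
  colorings T [false, false] [false, false] = 1 ∧ ∃ x t, colorings T [x, !x] t ≠ 0

theorem Good.congr {T T' : Word} (h : Good T) (e : FourEquiv 2 2 T T') : Good T' := by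
  obtain ⟨h₁, x, t, h₂⟩ := h
  rw [e.colorings_eq rfl] at h₁ h₂
  exact ⟨h₁, x, t, h₂⟩

theorem Good.of_pos {T : Word} (h : Good (⟨.pos, 0⟩ :: T)) : Good T := by
  obtain ⟨h₁, x, t, h₂⟩ := h
  unfold colorings at h₁ h₂
  simp only [sumColorings_pos, swapAt_zero] at h₁ h₂
  refine ⟨h₁, !x, t, ?_⟩
  unfold colorings
  simpa using h₂

theorem Good.of_pow {T : Word} (j : ℕ) (h : Good (pow j ++ T)) : Good T := by
  induction j with
  | zero => exact h
  | succ j ih => exact ih (Good.of_pos h)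

theorem perm_cases : ∀ σ : Equiv.Perm (Fin 4), PairPreserving σ →
    ((σ 2 = 2 ∧ σ 3 = 3 ∨ σ 2 = 3 ∧ σ 3 = 2) ∧ (σ 0 = 0 ∧ σ 1 = 1 ∨ σ 0 = 1 ∧ σ 1 = 0)) ∨
      (σ 2 = 0 ∧ σ 3 = 1 ∨ σ 2 = 1 ∧ σ 3 = 0) := by
  decide

theorem not_good {L : List BLetter} {R : Word}
    (h₀ : ∀ f p q x, sumColorings R f [p, q, x, !x] = 0)
    (h₁ : ∀ f p q, sumColorings R f [p, q, true, true] = sumColorings R f [p, q, false, false])
    (hg : Good ([⟨.cup, 2⟩] ++ bw L ++ R)) : ¬ PairPreserving (permL L) := by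
  intro hp
  obtain ⟨g₁, x, t, g₂⟩ := hg
  have key (f : List Bool → ℕ) (x y : Bool) :
      sumColorings ([⟨.cup, 2⟩] ++ bw L ++ R) f [x, y] =
        sumColorings R f (List.ofFn (![x, y, false, false] ∘ permL L)) +
        sumColorings R f (List.ofFn (![x, y, true, true] ∘ permL L)) := by
    rw [List.append_assoc, List.cons_append, List.nil_append, sumColorings_cup,
      sumColorings_append, sumColorings_append]
    have b₁ := sumColorings_bw L (sumColorings R f) ![x, y, false, false]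
    have b₂ := sumColorings_bw L (sumColorings R f) ![x, y, true, true]
    rw [← b₁, ← b₂]
    rfl
  unfold colorings at g₁ g₂
  rw [key] at g₁ g₂
  have e (v : Fin 4 → Bool) : List.ofFn (v ∘ permL L) =
      [v (permL L 0), v (permL L 1), v (permL L 2), v (permL L 3)] := by
    simp [List.ofFn_succ]
  rw [e, e] at g₁ g₂
  rcases perm_cases _ hp with ⟨ha, hb⟩ | ha
  · rcases ha with ⟨a₁, a₂⟩ | ⟨a₁, a₂⟩ <;> rcases hb with ⟨b₁, b₂⟩ | ⟨b₁, b₂⟩ <;>
      (rw [a₁, a₂, b₁, b₂] at g₁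
       simp [h₁] at g₁
       omega)
  · refine g₂ ?_
    have h₀' (f : List Bool → ℕ) (p q x : Bool) : sumColorings R f [p, q, !x, x] = 0 := by
      have := h₀ f p q (!x)
      simpa using this
    rcases ha with ⟨a₁, a₂⟩ | ⟨a₁, a₂⟩
    · rw [a₁, a₂]
      have := h₀ (fun u => if u = t then 1 else 0)
      simp [this]
    · rw [a₁, a₂]
      have := h₀' (fun u => if u = t then 1 else 0)
      simp [this]

theorem boxed_zero (k : Bool) (R : Word) (f : List Bool → ℕ) (p q x : Bool) :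
    sumColorings (bx k ++ R) f [p, q, x, !x] = 0 := by
  cases k <;> cases x <;> simp [bx]

theorem boxed_same (k : Bool) (R : Word) (f : List Bool → ℕ) (p q : Bool) :
    sumColorings (bx k ++ R) f [p, q, true, true] =
      sumColorings (bx k ++ R) f [p, q, false, false] := by
  cases k <;> simp [bx]

/-- A partial closure of a braid with boxes. -/
def tang (h : List BLetter) (r : List (List BLetter × Bool)) (g : List BLetter) : Word :=
  [⟨.cup, 2⟩] ++ bw h ++ boxes r g ++ [⟨.cap, 2⟩]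

theorem run_tail (r : List (List BLetter × Bool)) (g : List BLetter) :
    run 4 (boxes r g ++ [⟨.cap, 2⟩]) = some 2 := run_append_of (run_boxes r g) rfl

theorem unravel (r : List (List BLetter × Bool)) (h g : List BLetter)
    (hg : Good (tang h r g)) : ∃ j, FourEquiv 2 2 (tang h r g) (pow j) := by
  induction r generalizing h with
  | nil =>
      have e : tang h [] g = [⟨.cup, 2⟩] ++ bw (h ++ g) ++ [⟨.cap, 2⟩] := by
        simp [tang, boxes]
      rw [e] at hg ⊢
      have hn := not_good (R := [⟨.cap, 2⟩]) (fun f p q x => by cases x <;> simp)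
        (fun f p q => by simp) hg
      obtain ⟨L₁, L₂, h₁, h₂, hL⟩ := (braid_cases (h ++ g)).resolve_left hn
      obtain ⟨i, hi⟩ := cup_H h₁
      obtain ⟨j, hj⟩ := cap_H h₂
      refine ⟨i + j, ?_⟩
      have s₁ := hL.append (p := 2) (q := 2) (a := [⟨.cup, 2⟩]) (b := [⟨.cap, 2⟩]) rfl rfl
      have s₂ := hi.append_right (q := 2) (b := bw ((1, true) :: L₂) ++ [⟨.cap, 2⟩])
        (run_append_of (run_bw _) rfl)
      have s₃ := hj.append_left (p := 2) (a := pow i ++ [⟨.cup, 2⟩, ⟨.pos, 1⟩])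
        (run_append_of (run_pow 0 i) rfl)
      have s₄ := cup_b_cap.append (p := 2) (q := 2) (a := pow i) (b := pow j) (run_pow 0 i)
        (run_pow 0 j)
      have t₁ : [⟨.cup, 2⟩] ++ bw (L₁ ++ (1, true) :: L₂) ++ [⟨.cap, 2⟩] =
          [⟨.cup, 2⟩] ++ bw L₁ ++ (bw ((1, true) :: L₂) ++ [⟨.cap, 2⟩]) := by simp
      have t₂ : pow i ++ [⟨.cup, 2⟩] ++ (bw ((1, true) :: L₂) ++ [⟨.cap, 2⟩]) =
          pow i ++ [⟨.cup, 2⟩, ⟨.pos, 1⟩] ++ (bw L₂ ++ [⟨.cap, 2⟩]) := by simp [bl]
      have t₃ : pow i ++ [⟨.cup, 2⟩, ⟨.pos, 1⟩] ++ ([⟨.cap, 2⟩] ++ pow j) =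
          pow i ++ [⟨.cup, 2⟩, ⟨.pos, 1⟩, ⟨.cap, 2⟩] ++ pow j := by simp
      have t₄ : pow i ++ [] ++ pow j = pow (i + j) := by rw [List.append_nil, pow_add']
      rw [t₁] at s₁
      rw [t₂] at s₂
      rw [t₃] at s₃
      rw [t₄] at s₄
      exact s₁.trans (s₂.trans (s₃.trans s₄))
  | cons p r ih =>
      obtain ⟨g', k⟩ := p
      have e : tang h ((g', k) :: r) g =
          [⟨.cup, 2⟩] ++ bw (h ++ g') ++ (bx k ++ (boxes r g ++ [⟨.cap, 2⟩])) := by
        simp [tang, boxes]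
      rw [e] at hg ⊢
      have hn := not_good (R := bx k ++ (boxes r g ++ [⟨.cap, 2⟩]))
        (fun f p q x => boxed_zero _ _ _ _ _ _) (fun f p q => boxed_same _ _ _ _ _) hg
      obtain ⟨L₁, L₂, h₁, h₂, hL⟩ := (braid_cases (h ++ g')).resolve_left hn
      obtain ⟨i, hi⟩ := cup_H h₁
      have ht := run_tail r g
      have s₁ := hL.append (p := 2) (q := 2) (a := [⟨.cup, 2⟩])
        (b := bx k ++ (boxes r g ++ [⟨.cap, 2⟩])) rfl (run_append_of (run_bx k) ht)
      have s₂ := hi.append_right (q := 2)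
        (b := bw ((1, true) :: L₂) ++ (bx k ++ (boxes r g ++ [⟨.cap, 2⟩])))
        (run_append_of (run_bw _) (run_append_of (run_bx k) ht))
      have s₁₂ : FourEquiv 2 2
          ([⟨.cup, 2⟩] ++ bw (h ++ g') ++ (bx k ++ (boxes r g ++ [⟨.cap, 2⟩])))
          (pow i ++ [⟨.cup, 2⟩] ++
            (bw ((1, true) :: L₂) ++ (bx k ++ (boxes r g ++ [⟨.cap, 2⟩])))) := by
        refine s₁.trans ?_
        simpa using s₂
      cases k with
      | false =>
          obtain ⟨j, hj⟩ := cap_H h₂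
          have s₃ := hj.append (p := 2) (q := 2) (a := pow i ++ [⟨.cup, 2⟩, ⟨.pos, 1⟩])
            (b := [⟨.cup, 2⟩] ++ (boxes r g ++ [⟨.cap, 2⟩]))
            (run_append_of (run_pow 0 i) rfl) (run_append_of (show run 2 _ = some 4 from rfl) ht)
          have s₄ := cup_b_cap.append (p := 2) (q := 2) (a := pow i)
            (b := pow j ++ ([⟨.cup, 2⟩] ++ (boxes r g ++ [⟨.cap, 2⟩]))) (run_pow 0 i)
            (run_append_of (run_pow 0 j) (run_append_of (show run 2 _ = some 4 from rfl) ht))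
          have t₂ : pow i ++ [⟨.cup, 2⟩] ++
              (bw ((1, true) :: L₂) ++ (bx false ++ (boxes r g ++ [⟨.cap, 2⟩]))) =
              pow i ++ [⟨.cup, 2⟩, ⟨.pos, 1⟩] ++ (bw L₂ ++ [⟨.cap, 2⟩]) ++
                ([⟨.cup, 2⟩] ++ (boxes r g ++ [⟨.cap, 2⟩])) := by simp [bl, bx]
          have t₃ : pow i ++ [⟨.cup, 2⟩, ⟨.pos, 1⟩] ++ ([⟨.cap, 2⟩] ++ pow j) ++
              ([⟨.cup, 2⟩] ++ (boxes r g ++ [⟨.cap, 2⟩])) =
              pow i ++ [⟨.cup, 2⟩, ⟨.pos, 1⟩, ⟨.cap, 2⟩] ++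
                (pow j ++ ([⟨.cup, 2⟩] ++ (boxes r g ++ [⟨.cap, 2⟩]))) := by simp
          have t₄ : pow i ++ [] ++ (pow j ++ ([⟨.cup, 2⟩] ++ (boxes r g ++ [⟨.cap, 2⟩]))) =
              pow (i + j) ++ tang [] r g := by
            rw [List.append_nil, ← List.append_assoc, pow_add']
            simp [tang]
          rw [t₂] at s₁₂
          rw [t₃] at s₃
          rw [t₄] at s₄
          have s := s₁₂.trans (s₃.trans s₄)
          have hg' := (hg.congr s).of_pow
          obtain ⟨m, hm⟩ := ih [] hg'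
          refine ⟨i + j + m, s.trans ?_⟩
          rw [← pow_add' (i + j) m]
          exact hm.append_left (run_pow 0 _)
      | true =>
          have hj := clasp_H h₂
          have s₃ := hj.append (p := 2) (q := 2) (a := pow i ++ [⟨.cup, 2⟩, ⟨.pos, 1⟩])
            (b := boxes r g ++ [⟨.cap, 2⟩]) (run_append_of (run_pow 0 i) rfl) ht
          have s₄ := cup_b_clasp.append (p := 2) (q := 2) (a := pow i)
            (b := bw L₂ ++ (boxes r g ++ [⟨.cap, 2⟩])) (run_pow 0 i)
            (run_append_of (run_bw _) ht)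
          have t₂ : pow i ++ [⟨.cup, 2⟩] ++
              (bw ((1, true) :: L₂) ++ (bx true ++ (boxes r g ++ [⟨.cap, 2⟩]))) =
              pow i ++ [⟨.cup, 2⟩, ⟨.pos, 1⟩] ++ (bw L₂ ++ bx true) ++
                (boxes r g ++ [⟨.cap, 2⟩]) := by simp [bl]
          have t₃ : pow i ++ [⟨.cup, 2⟩, ⟨.pos, 1⟩] ++ (bx true ++ bw L₂) ++
              (boxes r g ++ [⟨.cap, 2⟩]) =
              pow i ++ [⟨.cup, 2⟩, ⟨.pos, 1⟩, ⟨.cup, 3⟩, ⟨.pos, 2⟩, ⟨.pos, 4⟩, ⟨.cap, 3⟩] ++
                (bw L₂ ++ (boxes r g ++ [⟨.cap, 2⟩])) := by simp [bx]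
          have t₄ : pow i ++ [⟨.cup, 2⟩, ⟨.pos, 1⟩, ⟨.pos, 1⟩] ++
              (bw L₂ ++ (boxes r g ++ [⟨.cap, 2⟩])) =
              pow i ++ tang ((1, true) :: (1, true) :: L₂) r g := by simp [tang, bl]
          rw [t₂] at s₁₂
          rw [t₃] at s₃
          rw [t₄] at s₄
          have s := s₁₂.trans (s₃.trans s₄)
          have hg' := (hg.congr s).of_pow
          obtain ⟨m, hm⟩ := ih _ hg'
          refine ⟨i + m, s.trans ?_⟩
          rw [← pow_add']
          exact hm.append_left (run_pow 0 _)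

end Pool.Agent.FMV
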