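import Pool.Agent.FMV.Alg
import Pool.Agent.FMV.Level
import Pool.Agent.FMV.Unravel
import Pool.Agent.FMV.CertB

/-!
Closures of words on three strings.
-/

namespace Pool.Agent.FMV

theorem run_box (k : Kind) : run 2 (box k) = some 2 := by cases k <;> rfl

theorem run_word3 (Y : List TLetter) : run 3 (word3 Y) = some 3 := by
  induction Y with
  | nil => rfl
  | cons p Y ih => exact run_append_of (run_tl p) ih

/-- One letter far to the right passes a word. -/
theorem letter_comm {n m : ℕ} {W : Word} (hW : run n W = some m) (b : Piece) (q s : ℕ)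
    (hq : q + b.ins ≤ s) :
    FourEquiv (n + s) (m + (s - b.ins + b.outs)) (⟨b, n + q⟩ :: W) (W ++ [⟨b, m + q⟩]) := by
  induction W generalizing n with
  | nil =>
      simp only [run, Option.some.injEq] at hW
      subst hW
      exact .refl _
  | cons l W ih =>
      obtain ⟨a, i⟩ := l
      simp only [run] at hW
      split at hW
      · rename_i hle
        have h := ih hW
        have hr : run (n - a.ins + a.outs + s) (W ++ [⟨b, m + q⟩]) =
            some (m + (s - b.ins + b.outs)) := by
          have := run_shift 0 s hW
          simp only [shift_zero, Nat.zero_add] at this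
          refine run_append_of this ?_
          simp only [run]
          rw [if_pos (by omega)]
          congr 1
          omega
        have hr' := h.run_iff.2 hr
        have e : FourEquiv (n + s) (n - a.ins + a.outs + (s - b.ins + b.outs))
            [⟨b, n + q⟩, ⟨a, i⟩] [⟨a, i⟩, ⟨b, n - a.ins + a.outs + q⟩] := by
          have hm := Move.far a b i (n - a.ins - i + q)
          rw [show i + a.outs + (n - a.ins - i + q) = n - a.ins + a.outs + q by omega,
            show i + a.ins + (n - a.ins - i + q) = n + q by omega] at hm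
          refine Relation.EqvGen.symm _ _ (Relation.EqvGen.rel _ _ ?_)
          have := Step.mk (n := n + s) (m := n - a.ins + a.outs + (s - b.ins + b.outs))
            [] _ _ [] hm
          simp only [List.nil_append, List.append_nil] at this
          refine this ?_ ?_
          · simp only [run]
            rw [if_pos (by omega), if_pos (by omega)]
            congr 1
            omega
          · simp only [run]
            rw [if_pos (by omega), if_pos (by omega)]
            congr 1
            omega
        have h₁ := e.append_right (q := m + (s - b.ins + b.outs)) (b := W)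
          (by
            have := run_shift 0 (s - b.ins + b.outs) hW
            simpa using this)
        have h₂ := h.append_left (p := n + s) (a := [⟨a, i⟩])
          (by
            simp only [run]
            rw [if_pos (by omega)]
            congr 1
            omega)
        exact h₁.trans h₂
      · simp at hW

/-- A diagram on the right passes a diagram on the left. -/
theorem word_comm {n m s t : ℕ} {W V : Word} (hW : run n W = some m) (hV : run s V = some t) :
    FourEquiv (n + s) (m + t) (shift n V ++ W) (W ++ shift m V) := by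
  induction V generalizing s with
  | nil =>
      simp only [run, Option.some.injEq] at hV
      subst hV
      simp only [shift_nil, List.nil_append, List.append_nil]
      exact .refl _
  | cons l V ih =>
      obtain ⟨b, q⟩ := l
      simp only [run] at hV
      split at hV
      · rename_i hle
        have h := ih hV
        have h₁ := h.append_left (p := n + s) (a := [⟨b, n + q⟩])
          (by
            simp only [run]
            rw [if_pos (by omega)]
            congr 1
            omega)
        have h₂ := (letter_comm hW b q s hle).append_right (q := m + t) (b := shift m V)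
          (by
            have := run_shift m 0 hV
            simpa using this)
        have e₁ : shift n (⟨b, q⟩ :: V) ++ W = [⟨b, n + q⟩] ++ (shift n V ++ W) := by
          simp [Nat.add_comm]
        have e₂ : W ++ shift m (⟨b, q⟩ :: V) = W ++ [⟨b, m + q⟩] ++ shift m V := by
          simp [Nat.add_comm]
        have e₃ : [⟨b, n + q⟩] ++ (W ++ shift m V) = ⟨b, n + q⟩ :: W ++ shift m V := by simp
        rw [e₁, e₂]
        rw [e₃] at h₁
        exact h₁.trans h₂
      · simp at hV

/-- The three maxima of a closure. -/
def cups : Word := [⟨.cup, 0⟩, ⟨.cup, 1⟩, ⟨.cup, 2⟩]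

/-- The three minima of a closure. -/
def caps : Word := [⟨.cap, 2⟩, ⟨.cap, 1⟩, ⟨.cap, 0⟩]

theorem run_caps : run 6 caps = some 0 := rfl

theorem run_cups : run 0 cups = some 6 := rfl

theorem closure_eq (Y : Word) : closure Y = cups ++ Y ++ caps := rfl

theorem closure_congr {Y Y' : Word} (h : FourEquiv 3 3 Y Y') :
    FourEquiv 0 0 (closure Y) (closure Y') := by
  have := h.context (p := 0) (q := 0) (j := 0) (r := 3) (a := cups) (b := caps) rfl rfl
  simpa [closure_eq] using this

/-- The letter on the other side of the closure. -/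
def ol (p : TLetter) : Word := shift 3 (shift (if p.1 then 0 else 1) (box p.2))

theorem top_slide (p : TLetter) : FourEquiv 0 6 (cups ++ tl p) (cups ++ ol p) := by
  obtain ⟨b, k⟩ := p
  cases b <;> cases k
  · exact top_pos_0
  · exact top_neg_0
  · exact top_turn_0
  · exact top_clasp_0
  · exact top_pos_1
  · exact top_neg_1
  · exact top_turn_1
  · exact top_clasp_1

theorem bot_slide (p : TLetter) : FourEquiv 6 0 (ol p ++ caps) (tl p ++ caps) := by
  obtain ⟨b, k⟩ := p
  cases b <;> cases k
  · exact bot_pos_0
  · exact bot_neg_0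
  · exact bot_turn_0
  · exact bot_clasp_0
  · exact bot_pos_1
  · exact bot_neg_1
  · exact bot_turn_1
  · exact bot_clasp_1

theorem run_ol (p : TLetter) : run 3 (shift (if p.1 then 0 else 1) (box p.2)) = some 3 := by
  obtain ⟨b, k⟩ := p
  cases b <;> cases k <;> rfl

theorem closure_rotate_one (p : TLetter) (Y : List TLetter) :
    FourEquiv 0 0 (closure (word3 (p :: Y))) (closure (word3 (Y ++ [p]))) := by
  have hY : run 6 (word3 Y) = some 6 := by simpa using run_shift 0 3 (run_word3 Y)
  have h₁ := (top_slide p).append_right (q := 0) (b := word3 Y ++ caps)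
    (run_append_of hY rfl)
  have h₂ := (word_comm (run_word3 Y) (run_ol p)).append (p := 0) (q := 0) (a := cups)
    (b := caps) rfl rfl
  have h₃ := (bot_slide p).append_left (p := 0) (a := cups ++ word3 Y)
    (run_append_of run_cups hY)
  have e₁ : closure (word3 (p :: Y)) = cups ++ tl p ++ (word3 Y ++ caps) := by
    simp [closure_eq]
  have e₂ : cups ++ ol p ++ (word3 Y ++ caps) = cups ++ (ol p ++ word3 Y) ++ caps := by simp
  have e₃ : cups ++ (word3 Y ++ ol p) ++ caps = cups ++ word3 Y ++ (ol p ++ caps) := by simp
  have e₄ : cups ++ word3 Y ++ (tl p ++ caps) = closure (word3 (Y ++ [p])) := by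
    simp [closure_eq]
  rw [← e₁, e₂] at h₁
  rw [e₄] at h₃
  change FourEquiv 0 0 (cups ++ (ol p ++ word3 Y) ++ caps)
    (cups ++ (word3 Y ++ ol p) ++ caps) at h₂
  rw [e₃] at h₂
  exact h₁.trans (h₂.trans h₃)

theorem closure_rotate (Y Z : List TLetter) :
    FourEquiv 0 0 (closure (word3 (Y ++ Z))) (closure (word3 (Z ++ Y))) := by
  induction Y generalizing Z with
  | nil => simpa using FourEquiv.refl _
  | cons p Y ih =>
      have h₁ := closure_rotate_one p (Y ++ Z)
      have h₂ := ih (Z ++ [p])
      simp only [List.cons_append, List.append_assoc, List.nil_append] at h₁ h₂ ⊢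
      exact h₁.trans h₂

/-- The basic tangles as words in boxes. -/
def sixL : Six → List Kind
  | .id => []
  | .pos => [.pos]
  | .neg => [.neg]
  | .two => [.pos, .pos]
  | .turn => [.turn]
  | .clasp => [.clasp]

theorem six_word (b : Bool) (t : Six) :
    shift (if b then 1 else 0) (six t) = word3 ((sixL t).map fun k => (b, k)) := by
  cases b <;> cases t <;> rfl

theorem ThreeString.word {Y : Word} (h : ThreeString Y) :
    run 3 Y = some 3 ∧ ∃ Z : List TLetter, FourEquiv 3 3 Y (word3 Z) := by
  induction h with
  | nil => exact ⟨rfl, [], .refl _⟩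
  | @box A Y i hi hA hc _ ih =>
      obtain ⟨hr, Z, hZ⟩ := ih
      obtain ⟨t, ht⟩ := hA.basic hc
      have hA3 : run 3 (shift i A) = some 3 := by
        have := run_shift i (1 - i) hA.run
        rwa [show i + 2 + (1 - i) = 3 by omega] at this
      refine ⟨run_append_of hA3 hr, (sixL t).map (fun k => (decide (i = 1), k)) ++ Z, ?_⟩
      have h₁ : FourEquiv 3 3 (shift i A) (shift i (six t)) := by
        have := ht.shift i (1 - i)
        rwa [show i + 2 + (1 - i) = 3 by omega] at this
      have h₂ : shift i (six t) = word3 ((sixL t).map fun k => (decide (i = 1), k)) := by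
        rw [← six_word]
        rcases Nat.le_one_iff_eq_zero_or_eq_one.1 hi with rfl | rfl <;> simp
      rw [word3_append, ← h₂]
      refine (h₁.append_right hr).trans ?_
      exact hZ.append_left (h₁.run_iff.1 hA3)

theorem pre_boxes (h : List BLetter) (r : List (List BLetter × Bool)) (g : List BLetter) :
    ∃ r' g', bw h ++ boxes r g = boxes r' g' := by
  cases r with
  | nil => exact ⟨[], h ++ g, by simp [boxes]⟩
  | cons p r => exact ⟨(h ++ p.1, p.2) :: r, g, by simp [boxes]⟩

theorem place_letter (p : TLetter) (r : List (List BLetter × Bool)) (g : List BLetter) :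
    ∃ r' g', FourEquiv 4 4 (tl p ++ boxes r g) (boxes r' g') := by
  obtain ⟨b, k⟩ := p
  have one (c : Fin 3 × Bool) : ∃ r' g', FourEquiv 4 4 (bw [c] ++ boxes r g) (boxes r' g') := by
    obtain ⟨r', g', h⟩ := pre_boxes [c] r g
    exact ⟨r', g', h ▸ .refl _⟩
  have two (h h' : List BLetter) (k : Bool) (W : Word)
      (e : FourEquiv 4 4 W (bw h ++ bx k ++ bw h')) :
      ∃ r' g', FourEquiv 4 4 (W ++ boxes r g) (boxes r' g') := by
    obtain ⟨r', g', hr⟩ := pre_boxes h' r g
    refine ⟨(h, k) :: r', g', ?_⟩
    have := e.append_right (run_boxes r g)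
    rw [List.append_assoc, hr] at this
    exact this
  cases b <;> cases k
  · exact one (0, true)
  · exact one (0, false)
  · refine two [(1, false), (0, false), (2, false), (1, false)]
      [(1, true), (2, true), (0, true), (1, true)] false _ ?_
    refine place_turn_0.trans ?_
    exact place_turn_1.append (a := [⟨.neg, 1⟩, ⟨.neg, 0⟩]) (b := [⟨.pos, 0⟩, ⟨.pos, 1⟩])
      (p := 4) (q := 4) rfl rfl
  · refine two [(1, false), (0, false), (2, false), (1, false)]
      [(1, true), (2, true), (0, true), (1, true)] true _ ?_
    refine place_clasp_0.trans ?_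
    exact place_clasp_1.append (a := [⟨.neg, 1⟩, ⟨.neg, 0⟩]) (b := [⟨.pos, 0⟩, ⟨.pos, 1⟩])
      (p := 4) (q := 4) rfl rfl
  · exact one (1, true)
  · exact one (1, false)
  · exact two [(2, false), (1, false)] [(1, true), (2, true)] false _ place_turn_1
  · exact two [(2, false), (1, false)] [(1, true), (2, true)] true _ place_clasp_1

theorem word_boxes (Z : List TLetter) : ∃ r g, FourEquiv 4 4 (word3 Z) (boxes r g) := by
  induction Z with
  | nil => exact ⟨[], [], .refl _⟩
  | cons p Z ih =>
      obtain ⟨r, g, h⟩ := ih
      obtain ⟨r', g', h'⟩ := place_letter p r g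
      have hp : run 4 (tl p) = some 4 := by simpa using run_shift 0 1 (run_tl p)
      exact ⟨r', g', (h.append_left hp).trans h'⟩

/-- The closure of a power of one crossing. -/
def closed (j : ℕ) : Word := [⟨.cup, 0⟩, ⟨.cup, 1⟩] ++ pow j ++ [⟨.cap, 1⟩, ⟨.cap, 0⟩]

theorem closed_four (j : ℕ) : FourEquiv 0 0 (closed (j + 4)) (closed j) := by
  have h := pos_four.context (p := 0) (q := 0) (j := 0) (r := 2) (a := [⟨.cup, 0⟩, ⟨.cup, 1⟩])
    (b := pow j ++ [⟨.cap, 1⟩, ⟨.cap, 0⟩]) rfl (run_append_of (run_pow 2 j) rfl)
  have e : closed (j + 4) = [⟨.cup, 0⟩, ⟨.cup, 1⟩] ++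
      shift 0 [⟨.pos, 0⟩, ⟨.pos, 0⟩, ⟨.pos, 0⟩, ⟨.pos, 0⟩] ++
        (pow j ++ [⟨.cap, 1⟩, ⟨.cap, 0⟩]) := by
    simp [closed, pow_succ']
  have e' : closed j = [⟨.cup, 0⟩, ⟨.cup, 1⟩] ++ shift 0 [] ++
      (pow j ++ [⟨.cap, 1⟩, ⟨.cap, 0⟩]) := by simp [closed]
  rw [e, e']
  exact h

theorem closed_cases (j : ℕ) (h : colorings (closed j) [] [] = 4) :
    FourEquiv 0 0 (closed j) unlink ∨ FourEquiv 0 0 (closed j) hopf := by
  induction j using Nat.strong_induction_on with
  | _ j ih =>
      match j, ih, h with
      | 0, _, _ => exact .inl unlink_cert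
      | 1, _, h => exact absurd h (by decide)
      | 2, _, _ => exact .inr (.refl _)
      | 3, _, h => exact absurd h (by decide)
      | j + 4, ih, h =>
          have e := closed_four j
          rw [e.colorings_eq rfl] at h
          rcases ih j (by omega) h with h | h
          · exact .inl (e.trans h)
          · exact .inr (e.trans h)

/-- Words with a suitable level. -/
theorem closure_of_level (Z : List TLetter) {s : List Bool} (hs : s.length = 3)
    (h01 : s[0]! ≠ s[1]!) (hc : colorings (word3 Z) s s ≠ 0)
    (h : colorings (closure (word3 Z)) [] [] = 4) :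
    FourEquiv 0 0 (closure (word3 Z)) unlink ∨ FourEquiv 0 0 (closure (word3 Z)) hopf := by
  have hg : Good ([⟨.cup, 2⟩] ++ word3 Z ++ [⟨.cap, 2⟩]) :=
    partial_closure (run_word3 Z) h hs h01 hc
  obtain ⟨r, g, hb⟩ := word_boxes Z
  have h₁ : FourEquiv 2 2 ([⟨.cup, 2⟩] ++ word3 Z ++ [⟨.cap, 2⟩]) (tang [] r g) := by
    have := hb.append (p := 2) (q := 2) (a := [⟨.cup, 2⟩]) (b := [⟨.cap, 2⟩]) rfl rfl
    simpa [tang] using this
  obtain ⟨j, hj⟩ := unravel r [] g (hg.congr h₁)
  have h₂ : FourEquiv 0 0 (closure (word3 Z)) (closed j) := by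
    have := (h₁.trans hj).context (p := 0) (q := 0) (j := 0) (r := 2)
      (a := [⟨.cup, 0⟩, ⟨.cup, 1⟩]) (b := [⟨.cap, 1⟩, ⟨.cap, 0⟩]) rfl rfl
    simpa [closure, closed] using this
  rw [h₂.colorings_eq rfl] at h
  rcases closed_cases j h with h | h
  · exact .inl (h₂.trans h)
  · exact .inr (h₂.trans h)

theorem FourEquiv.cases_congr {W W' : Word} (e : FourEquiv 0 0 W W')
    (h : FourEquiv 0 0 W' unlink ∨ FourEquiv 0 0 W' hopf) :
    FourEquiv 0 0 W unlink ∨ FourEquiv 0 0 W hopf := by
  rcases h with h | h
  · exact .inl (e.trans h)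
  · exact .inr (e.trans h)

theorem closure_word (Y : List TLetter) (h : colorings (closure (word3 Y)) [] [] = 4) :
    FourEquiv 0 0 (closure (word3 Y)) unlink ∨ FourEquiv 0 0 (closure (word3 Y)) hopf := by
  obtain ⟨Y₁, Y₂, s, rfl, hs, hf, ht, hc⟩ := exists_level Y h
  have e := closure_rotate Y₁ Y₂
  refine e.cases_congr ?_
  rw [e.colorings_eq rfl] at h
  match s, hs with
  | [a, b, c], _ =>
      by_cases hab : a = b
      · subst hab
        have hac : a ≠ c := by
          rintro rfl
          cases a
          · exact hf rfl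
          · exact ht rfl
        have e₁ : FourEquiv 0 0 (closure (word3 ((true, Kind.pos) :: (Y₂ ++ Y₁) ++
            [(true, Kind.neg)]))) (closure (word3 (Y₂ ++ Y₁))) := by
          have r₁ := closure_rotate [(true, Kind.pos)] ((Y₂ ++ Y₁) ++ [(true, Kind.neg)])
          have r₂ : FourEquiv 3 3 (word3 ((Y₂ ++ Y₁) ++ [(true, Kind.neg)] ++
              [(true, Kind.pos)])) (word3 (Y₂ ++ Y₁)) := by
            have m : FourEquiv 3 3 [⟨.neg, 1⟩, ⟨.pos, 1⟩] [] :=
              Relation.EqvGen.rel _ _ (Step.mk [] _ _ [] (Move.r2₂ 1) rfl rfl)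
            have := m.append_left (run_word3 (Y₂ ++ Y₁))
            simpa [tl, box] using this
          have r₃ := closure_congr r₂
          simp only [List.cons_append, List.nil_append] at r₁ ⊢
          exact r₁.trans r₃
        refine e₁.symm.cases_congr ?_
        rw [← e₁.colorings_eq rfl] at h
        refine closure_of_level _ (s := [a, c, a]) rfl (by simpa using hac) ?_ h
        have : colorings (word3 ((true, Kind.pos) :: (Y₂ ++ Y₁) ++ [(true, Kind.neg)]))
            [a, c, a] [a, c, a] = colorings (word3 (Y₂ ++ Y₁)) [a, a, c] [a, a, c] := by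
          have w : word3 ((true, Kind.pos) :: (Y₂ ++ Y₁) ++ [(true, Kind.neg)]) =
              [⟨.pos, 1⟩] ++ (word3 (Y₂ ++ Y₁) ++ [⟨.neg, 1⟩]) := by simp [tl, box]
          rw [w]
          unfold colorings
          rw [sumColorings_append]
          simp only [sumColorings_pos, sumColorings_nil, swapAt_succ, swapAt_zero]
          rw [sumColorings_append]
          refine sumColorings_congr (run_word3 _) (fun t ht => ?_) rfl
          match t, ht with
          | [x, y, z], _ =>
            simp only [sumColorings_neg, sumColorings_nil, swapAt_succ, swapAt_zero]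
            cases x <;> cases y <;> cases z <;> cases a <;> cases c <;> rfl
        rw [this]
        exact hc
      · exact closure_of_level _ (s := [a, b, c]) rfl (by simpa using hab) hc h

end Pool.Agent.FMV
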