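import Pool.Agent.FMV.DC0

/-!
Identities in a quotient of the braid group on four strings, second part.
-/

namespace Pool.Agent.FMV

section

variable {G : Type*} [Group G] {a b c : G}

theorem w_b (hab : a * b * a = b * a * b) (hac : a * c = c * a) :
    Commute (a * b * c * c * b * a) b := by
  change (a * b * c * c * b * a) * b = b * (a * b * c * c * b * a)
  symm
  calc b * (a * b * c * c * b * a) = (b * a * b) * c * c * b * a := by simp [mul_assoc]
    _ = (a * b * a) * c * c * b * a := by rw [← hab]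
    _ = a * b * (a * c) * c * b * a := by simp [mul_assoc]
    _ = a * b * (c * a) * c * b * a := by rw [hac]
    _ = a * b * c * (a * c) * b * a := by simp [mul_assoc]
    _ = a * b * c * (c * a) * b * a := by rw [hac]
    _ = a * b * c * c * (a * b * a) := by simp [mul_assoc]
    _ = a * b * c * c * (b * a * b) := by rw [hab]
    _ = _ := by simp [mul_assoc]

theorem w_c (hbc : b * c * b = c * b * c) (hac : a * c = c * a) :
    Commute (a * b * c * c * b * a) c := by
  change (a * b * c * c * b * a) * c = c * (a * b * c * c * b * a)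
  symm
  calc c * (a * b * c * c * b * a) = (c * a) * b * c * c * b * a := by simp [mul_assoc]
    _ = (a * c) * b * c * c * b * a := by rw [← hac]
    _ = a * (c * b * c) * c * b * a := by simp [mul_assoc]
    _ = a * (b * c * b) * c * b * a := by rw [← hbc]
    _ = a * b * c * (b * c * b) * a := by simp [mul_assoc]
    _ = a * b * c * (c * b * c) * a := by rw [hbc]
    _ = a * b * c * c * b * (c * a) := by simp [mul_assoc]
    _ = a * b * c * c * b * (a * c) := by rw [← hac]
    _ = _ := by simp [mul_assoc]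

/-- The relations used below. -/
structure Rels (a b c x z : G) : Prop where
  hab : a * b * a = b * a * b
  hbc : b * c * b = c * b * c
  ac : Commute a c
  xb : Commute x b
  xc : Commute x c
  za : Commute z a
  zb : Commute z b
  zc : Commute z c
  zx : Commute z x
  b4 : b ^ 4 = 1
  c4 : c ^ 4 = 1
  x4 : x ^ 4 = 1
  k1 : c * b⁻¹ * c⁻¹ * x = b * c * b⁻¹
  g1 : b ^ 2 * c⁻¹ * b ^ 2 = x⁻¹ * c
  g2 : b⁻¹ = x⁻¹ * c ^ 2 * b * c ^ 2
  g3 : x = c * b ^ 2 * c * b ^ 2
  y : b * c ^ 2 * b = x * c ^ 2
  z₁ : z = x * a * x * a * c ^ 2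
  z₂ : z = a * x * a * x * c ^ 2

theorem rels (hab : a * b * a = b * a * b) (hbc : b * c * b = c * b * c) (hac : a * c = c * a)
    (hb : b ^ 4 = 1) (hc : c ^ 4 = 1) :
    Rels a b c ((b * c) ^ 3) ((b * c) ^ 3 * (a * b * c * c * b * a)) := by
  have xb : Commute ((b * c) ^ 3) b := gx_b hbc
  have xc : Commute ((b * c) ^ 3) c := gx_c hbc
  have wb := w_b hab hac
  have wc := w_c hbc hac
  have ac : Commute a c := hac
  have hy := gy_eq hbc hc
  have hg1 := g1 hbc hb
  have hg2 := g2 hbc
  have hg3 := gx_eq₃ hbc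
  have hk1 := k1 hbc hc
  have hx4 := x_pow hbc hb hc
  have hz : (b * c) ^ 3 * (a * b * c * c * b * a) =
      (b * c) ^ 3 * a * (b * c) ^ 3 * a * c ^ 2 := by
    calc (b * c) ^ 3 * (a * b * c * c * b * a) =
        (b * c) ^ 3 * a * (b * c ^ 2 * b) * a := by simp only [pow_two, mul_assoc]
      _ = (b * c) ^ 3 * a * ((b * c) ^ 3 * c ^ 2) * a := by rw [hy]
      _ = (b * c) ^ 3 * a * (b * c) ^ 3 * (c ^ 2 * a) := by simp only [mul_assoc]
      _ = (b * c) ^ 3 * a * (b * c) ^ 3 * (a * c ^ 2) := by rw [(ac.pow_right 2).eq]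
      _ = _ := by simp only [mul_assoc]
  have zb : Commute ((b * c) ^ 3 * (a * b * c * c * b * a)) b := xb.mul_left wb
  have zc : Commute ((b * c) ^ 3 * (a * b * c * c * b * a)) c := xc.mul_left wc
  have zx : Commute ((b * c) ^ 3 * (a * b * c * c * b * a)) ((b * c) ^ 3) :=
    (zb.mul_right zc).pow_right 3
  generalize hX : (b * c) ^ 3 = x at *
  generalize hZ : x * (a * b * c * c * b * a) = z at *
  have ax : a * x * a * x = x * a * x * a := by
    have h := zx.eq
    rw [hz] at h
    have h' : x * (a * x * a * x) * c ^ 2 = x * (x * a * x * a) * c ^ 2 := by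
      calc x * (a * x * a * x) * c ^ 2 = x * a * x * a * (x * c ^ 2) := by
            simp only [mul_assoc]
        _ = x * a * x * a * (c ^ 2 * x) := by rw [(xc.pow_right 2).eq]
        _ = x * a * x * a * c ^ 2 * x := by simp only [mul_assoc]
        _ = x * (x * a * x * a * c ^ 2) := h
        _ = _ := by simp only [mul_assoc]
    exact mul_left_cancel (mul_right_cancel h')
  have z₂ : z = a * x * a * x * c ^ 2 := by rw [hz, ax]
  have za : Commute z a := by
    change z * a = a * z
    calc z * a = x * a * x * a * (c ^ 2 * a) := by rw [hz]; simp only [mul_assoc]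
      _ = x * a * x * a * (a * c ^ 2) := by rw [(ac.pow_right 2).eq]
      _ = (a * x * a * x) * (a * c ^ 2) := by rw [ax]
      _ = a * z := by rw [hz]; simp only [mul_assoc]
  exact ⟨hab, hbc, ac, xb, xc, za, zb, zc, zx, hb, hc, hx4, hk1, hg1, hg2, hg3, hy, hz, z₂⟩

end

end Pool.Agent.FMV
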