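import Pool.Agent.FMV.DC1

/-!
Identities in a quotient of the braid group on four strings, third part.
-/

namespace Pool.Agent.FMV

variable {G : Type*} [Group G]

/-- The first translation. -/
def s1 (a c x : G) : G := a * c * x⁻¹

/-- The second translation. -/
def s2 (a c x : G) : G := x * s1 a c x * x⁻¹

/-- The third translation. -/
def s3 (a b c x : G) : G := b * s1 a c x * b⁻¹

/-- The fourth translation. -/
def s4 (a b c x : G) : G := x * s3 a b c x * x⁻¹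

namespace Rels

variable {a b c x z : G} (R : Rels a b c x z)
include R

theorem s4_eq : s4 a b c x = b * s2 a c x * b⁻¹ := by
  unfold s4 s3 s2
  calc x * (b * s1 a c x * b⁻¹) * x⁻¹ = (x * b) * s1 a c x * (x * b)⁻¹ := by group
    _ = (b * x) * s1 a c x * (b * x)⁻¹ := by rw [R.xb.eq]
    _ = _ := by group

theorem x3 : (x ^ 3)⁻¹ = x := by
  have := cube_inv R.x4
  rw [← this, inv_inv]

theorem c3 : (c ^ 3)⁻¹ = c := by
  have := cube_inv R.c4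
  rw [← this, inv_inv]

theorem e₁ : s1 a c x * (x * s2 a c x * x⁻¹) = z := by
  unfold s2 s1
  calc a * c * x⁻¹ * (x * (x * (a * c * x⁻¹) * x⁻¹) * x⁻¹) =
      a * (c * x) * a * c * (x ^ 3)⁻¹ := by group
    _ = a * (x * c) * a * c * x := by rw [R.x3, R.xc.eq]
    _ = a * x * (c * a) * (c * x) := by simp only [mul_assoc]
    _ = a * x * (a * c) * (x * c) := by rw [R.ac.eq, R.xc.eq]
    _ = a * x * a * (c * x) * c := by simp only [mul_assoc]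
    _ = a * x * a * (x * c) * c := by rw [R.xc.eq]
    _ = a * x * a * x * c ^ 2 := by simp only [mul_assoc, pow_two]
    _ = z := R.z₂.symm

theorem xs2 : x * s2 a c x * x⁻¹ = (s1 a c x)⁻¹ * z := by
  rw [← R.e₁]; group

theorem z_comm_s1 : Commute z (s1 a c x) := (R.za.mul_right R.zc).mul_right R.zx.inv_right

theorem z_comm_s2 : Commute z (s2 a c x) :=
  (R.zx.mul_right R.z_comm_s1).mul_right R.zx.inv_right

theorem z_comm_s3 : Commute z (s3 a b c x) :=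
  (R.zb.mul_right R.z_comm_s1).mul_right R.zb.inv_right

theorem z_comm_s4 : Commute z (s4 a b c x) :=
  (R.zx.mul_right R.z_comm_s3).mul_right R.zx.inv_right

theorem c_comm_s1 : Commute c (s1 a c x) :=
  (R.ac.symm.mul_right (Commute.refl c)).mul_right R.xc.symm.inv_right

theorem c_comm_s2 : Commute c (s2 a c x) :=
  (R.xc.symm.mul_right R.c_comm_s1).mul_right R.xc.symm.inv_right

theorem xs4 : x * s4 a b c x * x⁻¹ = (s3 a b c x)⁻¹ * z := by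
  rw [R.s4_eq]
  calc x * (b * s2 a c x * b⁻¹) * x⁻¹ = (x * b) * s2 a c x * (x * b)⁻¹ := by group
    _ = (b * x) * s2 a c x * (b * x)⁻¹ := by rw [R.xb.eq]
    _ = b * (x * s2 a c x * x⁻¹) * b⁻¹ := by group
    _ = b * (s1 a c x)⁻¹ * (z * b⁻¹) := by rw [R.xs2]; simp only [mul_assoc]
    _ = b * (s1 a c x)⁻¹ * (b⁻¹ * z) := by rw [R.zb.inv_right.eq]
    _ = _ := by unfold s3; group

theorem d1 : c * s3 a b c x * c⁻¹ = s1 a c x * s4 a b c x := by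
  have e : c * b⁻¹ * c⁻¹ * x⁻¹ = b * c * b⁻¹ * x⁻¹ * x⁻¹ := by
    rw [← R.k1]; group
  have hxb : x⁻¹ * b * x = b := by
    have : x⁻¹ * b = b * x⁻¹ := R.xb.inv_left.eq
    rw [this]; group
  have hxc : x⁻¹ * b⁻¹ * c⁻¹ = b⁻¹ * c⁻¹ * x⁻¹ := by
    have : Commute x⁻¹ (b⁻¹ * c⁻¹) := (R.xb.inv_right.mul_right R.xc.inv_right).inv_left
    rw [mul_assoc]; exact this.eq
  have hxb' : x⁻¹ * b⁻¹ = b⁻¹ * x⁻¹ := R.xb.inv_right.inv_left.eq
  symm
  calc s1 a c x * s4 a b c x =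
      a * c * (x⁻¹ * x) * b * a * c * (x⁻¹ * b⁻¹) * x⁻¹ := by
        unfold s4 s3 s1; simp only [mul_assoc]
    _ = (a * c) * b * a * c * (b⁻¹ * x⁻¹) * x⁻¹ := by
        rw [inv_mul_cancel, mul_one, hxb']
    _ = (c * a) * b * a * c * (b⁻¹ * x⁻¹) * x⁻¹ := by rw [R.ac.eq]
    _ = c * (a * b * a) * c * (b⁻¹ * x⁻¹) * x⁻¹ := by simp only [mul_assoc]
    _ = c * (b * a * b) * c * (b⁻¹ * x⁻¹) * x⁻¹ := by rw [R.hab]
    _ = c * b * a * (b * c * b⁻¹ * x⁻¹ * x⁻¹) := by simp only [mul_assoc]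
    _ = c * b * a * (c * b⁻¹ * c⁻¹ * x⁻¹) := by rw [← e]
    _ = c * b * a * c * (b⁻¹ * c⁻¹ * x⁻¹) := by simp only [mul_assoc]
    _ = c * b * a * c * (x⁻¹ * b⁻¹ * c⁻¹) := by rw [← hxc]
    _ = _ := by unfold s3 s1; simp only [mul_assoc]

theorem d1' : c * s4 a b c x * c⁻¹ = s2 a c x * (s3 a b c x)⁻¹ * z := by
  calc c * s4 a b c x * c⁻¹ = (c * x) * s3 a b c x * (c * x)⁻¹ := by unfold s4; group
    _ = (x * c) * s3 a b c x * (x * c)⁻¹ := by rw [R.xc.eq]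
    _ = x * (c * s3 a b c x * c⁻¹) * x⁻¹ := by group
    _ = x * (s1 a c x * s4 a b c x) * x⁻¹ := by rw [R.d1]
    _ = (x * s1 a c x * x⁻¹) * (x * s4 a b c x * x⁻¹) := by group
    _ = s2 a c x * ((s3 a b c x)⁻¹ * z) := by rw [R.xs4]; rfl
    _ = _ := by rw [mul_assoc]

theorem xinv_s1 : x⁻¹ * s1 a c x * x = (s2 a c x)⁻¹ * z := by
  have h := R.e₁
  have hz : x⁻¹ * z * x = z := by
    have : x⁻¹ * z = z * x⁻¹ := R.zx.inv_right.symm.eq
    rw [this]; group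
  have h' : x⁻¹ * s1 a c x * x * s2 a c x = z := by
    calc x⁻¹ * s1 a c x * x * s2 a c x =
        x⁻¹ * (s1 a c x * (x * s2 a c x * x⁻¹)) * x := by group
      _ = x⁻¹ * z * x := by rw [h]
      _ = z := hz
  have h'' : x⁻¹ * s1 a c x * x = z * (s2 a c x)⁻¹ := by rw [← h']; group
  rw [h'', R.z_comm_s2.inv_right.eq]

theorem cb2 : c * b ^ 2 = x * b ^ 2 * c⁻¹ := by
  have hb := sq_inv R.b4
  calc c * b ^ 2 = (c * b ^ 2 * c * b ^ 2) * (b ^ 2)⁻¹ * c⁻¹ := by group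
    _ = x * (b ^ 2)⁻¹ * c⁻¹ := by rw [← R.g3]
    _ = _ := by rw [hb]

theorem bc2 : c⁻¹ * b * c ^ 2 = c * b⁻¹ * x := by
  have h := R.k1
  have hx : c⁻¹ * x = x * c⁻¹ := R.xc.inv_right.symm.eq
  have e₁ : b * c * b⁻¹ = c⁻¹ * b * c := by
    calc b * c * b⁻¹ = c⁻¹ * (c * b * c) * b⁻¹ := by group
      _ = c⁻¹ * (b * c * b) * b⁻¹ := by rw [R.hbc]
      _ = _ := by group
  calc c⁻¹ * b * c ^ 2 = (c⁻¹ * b * c) * c := by rw [pow_two]; simp only [mul_assoc]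
    _ = (c * b⁻¹ * c⁻¹ * x) * c := by rw [← e₁, ← h]
    _ = c * b⁻¹ * (c⁻¹ * x) * c := by simp only [mul_assoc]
    _ = c * b⁻¹ * (x * c⁻¹) * c := by rw [hx]
    _ = _ := by group

theorem d2 : b * s3 a b c x * b⁻¹ = (s2 a c x)⁻¹ * z * s3 a b c x * s4 a b c x := by
  rw [← R.xinv_s1]
  have hx2 : b⁻¹ * b⁻¹ * x⁻¹ = x⁻¹ * b⁻¹ * b⁻¹ := by
    have : Commute x⁻¹ (b⁻¹ * b⁻¹) := (R.xb.inv_right.mul_right R.xb.inv_right).inv_left
    rw [mul_assoc x⁻¹]; exact this.eq.symm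
  have hxb : Commute x⁻¹ b⁻¹ := R.xb.inv_right.inv_left
  have key : x * b ^ 2 * a * c * b⁻¹ * x = a * c * b * a ^ 2 * c ^ 2 := by
    symm
    calc a * c * b * a ^ 2 * c ^ 2 = (a * c) * b * a * a * c ^ 2 := by
          rw [pow_two a]; simp only [mul_assoc]
      _ = (c * a) * b * a * a * c ^ 2 := by rw [R.ac.eq]
      _ = c * (a * b * a) * a * c ^ 2 := by simp only [mul_assoc]
      _ = c * (b * a * b) * a * c ^ 2 := by rw [R.hab]
      _ = c * b * (a * b * a) * c ^ 2 := by simp only [mul_assoc]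
      _ = c * b * (b * a * b) * c ^ 2 := by rw [R.hab]
      _ = (c * b ^ 2) * a * b * c ^ 2 := by rw [pow_two b]; simp only [mul_assoc]
      _ = (x * b ^ 2 * c⁻¹) * a * b * c ^ 2 := by rw [R.cb2]
      _ = x * b ^ 2 * (c⁻¹ * a) * b * c ^ 2 := by simp only [mul_assoc]
      _ = x * b ^ 2 * (a * c⁻¹) * b * c ^ 2 := by rw [R.ac.inv_right.eq]
      _ = x * b ^ 2 * a * (c⁻¹ * b * c ^ 2) := by simp only [mul_assoc]
      _ = x * b ^ 2 * a * (c * b⁻¹ * x) := by rw [R.bc2]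
      _ = _ := by simp only [mul_assoc]
  calc b * s3 a b c x * b⁻¹ = b ^ 2 * a * c * x⁻¹ * b⁻¹ * b⁻¹ := by
        unfold s3 s1; rw [pow_two]; simp only [mul_assoc]
    _ = x⁻¹ * (x * b ^ 2 * a * c * b⁻¹ * x) * x⁻¹ * b * (x⁻¹ * b⁻¹ * b⁻¹) := by group
    _ = x⁻¹ * (x * b ^ 2 * a * c * b⁻¹ * x) * x⁻¹ * b * (b⁻¹ * b⁻¹ * x⁻¹) := by rw [hx2]
    _ = x⁻¹ * (x * b ^ 2 * a * c * b⁻¹ * x) * (x⁻¹ * b⁻¹) * x⁻¹ := by group
    _ = x⁻¹ * (a * c * b * a ^ 2 * c ^ 2) * (x⁻¹ * b⁻¹) * x⁻¹ := by rw [key]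
    _ = x⁻¹ * a * c * b * a * (a * c) * c * (x⁻¹ * b⁻¹) * x⁻¹ := by
        simp only [pow_two, mul_assoc]
    _ = x⁻¹ * a * c * b * a * (c * a) * c * (x⁻¹ * b⁻¹) * x⁻¹ := by rw [R.ac.eq]
    _ = x⁻¹ * a * c * (x⁻¹ * x) * b * a * c * x⁻¹ * (b⁻¹ * x * b) * a * c * (x⁻¹ * b⁻¹) *
          x⁻¹ := by
        rw [show b⁻¹ * x * b = x by rw [R.xb.inv_right.symm.eq]; group]
        group
    _ = _ := by unfold s4 s3 s1; group

end Rels

end Pool.Agent.FMV
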