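import Pool.Agent.FMV.DC2

/-!
Identities in a quotient of the braid group on four strings, fourth part.
-/

namespace Pool.Agent.FMV

variable {G : Type*} [Group G]

namespace Rels

variable {a b c x z : G} (R : Rels a b c x z)
include R

theorem d2' : b * s4 a b c x * b⁻¹ = s1 a c x * s4 a b c x * (s3 a b c x)⁻¹ * z := by
  have h₁ : x * (s2 a c x)⁻¹ * x⁻¹ = z⁻¹ * s1 a c x := by
    have := R.xs2
    calc x * (s2 a c x)⁻¹ * x⁻¹ = (x * s2 a c x * x⁻¹)⁻¹ := by group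
      _ = ((s1 a c x)⁻¹ * z)⁻¹ := by rw [this]
      _ = _ := by group
  have h₂ : x * z * x⁻¹ = z := by rw [R.zx.symm.eq]; group
  have h₃ : z⁻¹ * s1 a c x * z = s1 a c x := by
    rw [R.z_comm_s1.inv_left.eq]; group
  calc b * s4 a b c x * b⁻¹ = (b * x) * s3 a b c x * (b * x)⁻¹ := by unfold s4; group
    _ = (x * b) * s3 a b c x * (x * b)⁻¹ := by rw [R.xb.eq]
    _ = x * (b * s3 a b c x * b⁻¹) * x⁻¹ := by group
    _ = x * ((s2 a c x)⁻¹ * z * s3 a b c x * s4 a b c x) * x⁻¹ := by rw [R.d2]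
    _ = (x * (s2 a c x)⁻¹ * x⁻¹) * (x * z * x⁻¹) * (x * s3 a b c x * x⁻¹) *
          (x * s4 a b c x * x⁻¹) := by group
    _ = (z⁻¹ * s1 a c x) * z * s4 a b c x * ((s3 a b c x)⁻¹ * z) := by
        rw [h₁, h₂, R.xs4]; rfl
    _ = s1 a c x * s4 a b c x * ((s3 a b c x)⁻¹ * z) := by rw [h₃]
    _ = _ := by simp only [mul_assoc]

theorem a2 : a * s2 a c x * a⁻¹ = z * (s1 a c x)⁻¹ := by
  have h₁ : a * x * a = z * (c ^ 2)⁻¹ * x⁻¹ := by rw [R.z₂]; group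
  have hcx : Commute x (c ^ 3) := R.xc.pow_right 3
  calc a * s2 a c x * a⁻¹ = (a * x * a) * (c * x⁻¹) * x⁻¹ * a⁻¹ := by
        unfold s2 s1; simp only [mul_assoc]
    _ = z * (c ^ 2)⁻¹ * x⁻¹ * (c * x⁻¹) * x⁻¹ * a⁻¹ := by rw [h₁]
    _ = z * (c ^ 2)⁻¹ * (x⁻¹ * c) * x⁻¹ * x⁻¹ * a⁻¹ := by simp only [mul_assoc]
    _ = z * (c ^ 2)⁻¹ * (c * x⁻¹) * x⁻¹ * x⁻¹ * a⁻¹ := by rw [R.xc.inv_left.eq]
    _ = z * c⁻¹ * (x ^ 3)⁻¹ * a⁻¹ := by group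
    _ = z * (c⁻¹ * x) * a⁻¹ := by rw [R.x3]; simp only [mul_assoc]
    _ = z * (x * c⁻¹) * a⁻¹ := by rw [R.xc.inv_right.eq]
    _ = _ := by unfold s1; group

theorem a3 : a * s3 a b c x * a⁻¹ = s3 a b c x * (s1 a c x)⁻¹ := by
  have hxb : x⁻¹ * b⁻¹ = b⁻¹ * x⁻¹ := R.xb.inv_right.inv_left.eq
  have hxb' : x⁻¹ * b⁻¹ * x = b⁻¹ := by rw [hxb]; group
  calc a * s3 a b c x * a⁻¹ = (a * b * a) * c * (x⁻¹ * b⁻¹) * a⁻¹ := by
        unfold s3 s1; simp only [mul_assoc]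
    _ = (b * a * b) * c * (b⁻¹ * x⁻¹) * a⁻¹ := by rw [R.hab, hxb]
    _ = b * a * (b * c * b⁻¹) * x⁻¹ * a⁻¹ := by simp only [mul_assoc]
    _ = b * a * (c * b⁻¹ * c⁻¹ * x) * x⁻¹ * a⁻¹ := by rw [R.k1]
    _ = b * a * c * (b⁻¹) * c⁻¹ * a⁻¹ := by group
    _ = b * a * c * (x⁻¹ * b⁻¹ * x) * c⁻¹ * a⁻¹ := by rw [hxb']
    _ = _ := by unfold s3 s1; group

theorem xinv_s3 : x⁻¹ * s3 a b c x * x = (s4 a b c x)⁻¹ * z := by
  have h := R.xs4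
  have hz : x⁻¹ * z * x = z := by
    have : x⁻¹ * z = z * x⁻¹ := R.zx.inv_right.symm.eq
    rw [this]; group
  have h' : s4 a b c x = x⁻¹ * ((s3 a b c x)⁻¹ * z) * x := by rw [← h]; group
  have h'' : s4 a b c x = (x⁻¹ * s3 a b c x * x)⁻¹ * (x⁻¹ * z * x) := by rw [h']; group
  rw [hz] at h''
  have h₃ : x⁻¹ * s3 a b c x * x = z * (s4 a b c x)⁻¹ := by
    rw [h'']; group
  rw [h₃, R.z_comm_s4.inv_right.eq]

/-- `t₁ t₃ t₁⁻¹ = z⁻¹ t₃`. -/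
theorem c13 : s1 a c x * s3 a b c x * (s1 a c x)⁻¹ = z⁻¹ * s3 a b c x := by
  have h₁ : c * (s4 a b c x)⁻¹ * c⁻¹ = z⁻¹ * s3 a b c x * (s2 a c x)⁻¹ := by
    calc c * (s4 a b c x)⁻¹ * c⁻¹ = (c * s4 a b c x * c⁻¹)⁻¹ := by group
      _ = (s2 a c x * (s3 a b c x)⁻¹ * z)⁻¹ := by rw [R.d1']
      _ = _ := by group
  have h₂ : c * z * c⁻¹ = z := by rw [R.zc.symm.eq]; group
  have h₃ : a * z⁻¹ * a⁻¹ = z⁻¹ := by rw [R.za.inv_left.symm.eq]; group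
  have h₄ : a * z * a⁻¹ = z := by rw [R.za.symm.eq]; group
  calc s1 a c x * s3 a b c x * (s1 a c x)⁻¹ =
      a * (c * (x⁻¹ * s3 a b c x * x) * c⁻¹) * a⁻¹ := by unfold s1; group
    _ = a * ((c * (s4 a b c x)⁻¹ * c⁻¹) * (c * z * c⁻¹)) * a⁻¹ := by
        rw [R.xinv_s3]; group
    _ = a * (z⁻¹ * s3 a b c x * (s2 a c x)⁻¹ * z) * a⁻¹ := by rw [h₁, h₂]
    _ = (a * z⁻¹ * a⁻¹) * (a * s3 a b c x * a⁻¹) * (a * s2 a c x * a⁻¹)⁻¹ *
          (a * z * a⁻¹) := by group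
    _ = z⁻¹ * (s3 a b c x * (s1 a c x)⁻¹) * (z * (s1 a c x)⁻¹)⁻¹ * z := by
        rw [h₃, R.a3, R.a2, h₄]
    _ = _ := by group

/-- `t₃` commutes with `t₁ t₂`. -/
theorem c123 : s1 a c x * s2 a c x * s3 a b c x = s3 a b c x * (s1 a c x * s2 a c x) := by
  have k1 : c * s1 a c x * c⁻¹ = s1 a c x := by rw [R.c_comm_s1.eq]; group
  have k2 : c * s2 a c x * c⁻¹ = s2 a c x := by rw [R.c_comm_s2.eq]; group
  have kz : c * z * c⁻¹ = z := by rw [R.zc.symm.eq]; group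
  have e₁ := R.d1
  have e₂ : c ^ 2 * s3 a b c x * (c ^ 2)⁻¹ =
      s1 a c x * (s2 a c x * (s3 a b c x)⁻¹ * z) := by
    calc c ^ 2 * s3 a b c x * (c ^ 2)⁻¹ = c * (c * s3 a b c x * c⁻¹) * c⁻¹ := by
          rw [pow_two]; group
      _ = (c * s1 a c x * c⁻¹) * (c * s4 a b c x * c⁻¹) := by rw [e₁]; group
      _ = _ := by rw [k1, R.d1']
  have e₃ : c ^ 3 * s3 a b c x * (c ^ 3)⁻¹ =
      s1 a c x * s2 a c x * (s1 a c x * s4 a b c x)⁻¹ * z := by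
    calc c ^ 3 * s3 a b c x * (c ^ 3)⁻¹ = c * (c ^ 2 * s3 a b c x * (c ^ 2)⁻¹) * c⁻¹ := by
          group
      _ = (c * s1 a c x * c⁻¹) * (c * s2 a c x * c⁻¹) * (c * s3 a b c x * c⁻¹)⁻¹ *
            (c * z * c⁻¹) := by rw [e₂]; group
      _ = _ := by rw [k1, k2, kz, e₁]
  have e₄ : c ^ 4 * s3 a b c x * (c ^ 4)⁻¹ =
      s1 a c x * s2 a c x * (s1 a c x * (s2 a c x * (s3 a b c x)⁻¹ * z))⁻¹ * z := by
    calc c ^ 4 * s3 a b c x * (c ^ 4)⁻¹ = c * (c ^ 3 * s3 a b c x * (c ^ 3)⁻¹) * c⁻¹ := by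
          group
      _ = (c * s1 a c x * c⁻¹) * (c * s2 a c x * c⁻¹) * ((c * s1 a c x * c⁻¹) *
            (c * s4 a b c x * c⁻¹))⁻¹ * (c * z * c⁻¹) := by rw [e₃]; group
      _ = _ := by rw [k1, k2, kz, R.d1']
  rw [R.c4] at e₄
  have e₅ : s3 a b c x = s1 a c x * s2 a c x * (z⁻¹ * s3 a b c x * (s2 a c x)⁻¹ *
      (s1 a c x)⁻¹) * z := by
    calc s3 a b c x = 1 * s3 a b c x * 1⁻¹ := by group
      _ = _ := by rw [e₄]; group
  have hz : z⁻¹ * (s3 a b c x * (s2 a c x)⁻¹ * (s1 a c x)⁻¹) =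
      (s3 a b c x * (s2 a c x)⁻¹ * (s1 a c x)⁻¹) * z⁻¹ :=
    ((R.z_comm_s3.mul_right R.z_comm_s2.inv_right).mul_right
      R.z_comm_s1.inv_right).inv_left.eq
  have e₆ : s3 a b c x = s1 a c x * s2 a c x * (s3 a b c x * (s2 a c x)⁻¹ *
      (s1 a c x)⁻¹) := by
    calc s3 a b c x = s1 a c x * s2 a c x * (z⁻¹ * (s3 a b c x * (s2 a c x)⁻¹ *
      (s1 a c x)⁻¹)) * z := by rw [← mul_assoc z⁻¹, ← mul_assoc z⁻¹]; exact e₅
      _ = _ := by rw [hz]; group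
  calc s1 a c x * s2 a c x * s3 a b c x =
      s1 a c x * s2 a c x * (s3 a b c x * (s2 a c x)⁻¹ * (s1 a c x)⁻¹) *
        (s1 a c x * s2 a c x) := by group
    _ = _ := by rw [← e₆]

theorem c31 : s3 a b c x * s1 a c x * (s3 a b c x)⁻¹ = z * s1 a c x := by
  have h := R.c13
  have h' : s1 a c x * s3 a b c x = z⁻¹ * s3 a b c x * s1 a c x := by rw [← h]; group
  have h'' : z * (s1 a c x * s3 a b c x) = s3 a b c x * s1 a c x := by rw [h']; group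
  rw [← h'']; group

theorem c32 : s3 a b c x * s2 a c x * (s3 a b c x)⁻¹ = z⁻¹ * s2 a c x := by
  have h := R.c123
  have h₁ := R.c31
  have h₂ : s3 a b c x * s1 a c x = z * s1 a c x * s3 a b c x := by rw [← h₁]; group
  have h₃ : s1 a c x * (s2 a c x * s3 a b c x) =
      s1 a c x * (z * s3 a b c x * s2 a c x) := by
    calc s1 a c x * (s2 a c x * s3 a b c x) = s1 a c x * s2 a c x * s3 a b c x := by
          rw [mul_assoc]
      _ = s3 a b c x * s1 a c x * s2 a c x := by rw [h]; rw [mul_assoc]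
      _ = z * s1 a c x * s3 a b c x * s2 a c x := by rw [h₂]
      _ = s1 a c x * z * s3 a b c x * s2 a c x := by rw [R.z_comm_s1.eq]
      _ = _ := by simp only [mul_assoc]
  have h₄ := mul_left_cancel h₃
  calc s3 a b c x * s2 a c x * (s3 a b c x)⁻¹ =
      z⁻¹ * (z * s3 a b c x * s2 a c x) * (s3 a b c x)⁻¹ := by group
    _ = _ := by rw [← h₄]; group

theorem c42 : s4 a b c x * s2 a c x * (s4 a b c x)⁻¹ = z * s2 a c x := by
  have h := R.c31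
  have hz : x * z = z * x := R.zx.symm.eq
  calc s4 a b c x * s2 a c x * (s4 a b c x)⁻¹ =
      x * (s3 a b c x * s1 a c x * (s3 a b c x)⁻¹) * x⁻¹ := by unfold s4 s2; group
    _ = (x * z) * s1 a c x * x⁻¹ := by rw [h]; group
    _ = _ := by rw [hz]; unfold s2; group

theorem c41 : s4 a b c x * s1 a c x * (s4 a b c x)⁻¹ = z * s1 a c x := by
  have h := R.c32
  have h₁ : s1 a c x = z * (x * s2 a c x * x⁻¹)⁻¹ := by
    rw [R.xs2]; group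
  have hz : x * z⁻¹ = z⁻¹ * x := R.zx.inv_left.symm.eq
  have h₂ : s4 a b c x * (x * s2 a c x * x⁻¹) * (s4 a b c x)⁻¹ =
      z⁻¹ * (x * s2 a c x * x⁻¹) := by
    calc s4 a b c x * (x * s2 a c x * x⁻¹) * (s4 a b c x)⁻¹ =
        x * (s3 a b c x * s2 a c x * (s3 a b c x)⁻¹) * x⁻¹ := by unfold s4; group
      _ = (x * z⁻¹) * s2 a c x * x⁻¹ := by rw [h]; group
      _ = _ := by rw [hz]; group
  have hz4 : s4 a b c x * z * (s4 a b c x)⁻¹ = z := by rw [R.z_comm_s4.symm.eq]; group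
  have hz5 : Commute z (x * s2 a c x * x⁻¹) :=
    (R.zx.mul_right R.z_comm_s2).mul_right R.zx.inv_right
  calc s4 a b c x * s1 a c x * (s4 a b c x)⁻¹ =
      (s4 a b c x * z * (s4 a b c x)⁻¹) *
        (s4 a b c x * (x * s2 a c x * x⁻¹) * (s4 a b c x)⁻¹)⁻¹ := by
        rw [h₁]; group
    _ = z * (z⁻¹ * (x * s2 a c x * x⁻¹))⁻¹ := by rw [hz4, h₂]
    _ = z * ((x * s2 a c x * x⁻¹)⁻¹ * z) := by group
    _ = z * (z * (x * s2 a c x * x⁻¹)⁻¹) := by rw [hz5.inv_right.eq]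
    _ = z * s1 a c x := by rw [← h₁]

end Rels

end Pool.Agent.FMV
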