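import Mathlib.Logic.Relation
import Mathlib.Data.List.Basic
import Mathlib.Data.Fintype.Basic

/-!
Tangle and link diagrams in Morse position, read from top to bottom, the moves on them
(Reidemeister moves, planar isotopies, the four-move), and the diagrams of the hand-in.
-/

namespace Pool.Agent.FMV

/-- The elementary pieces of a diagram: a crossing of two neighbouring strings whose strand
from top left to bottom right passes over (`pos`) or under (`neg`), a local maximum which
creates two strings (`cup`), a local minimum which joins two strings (`cap`). -/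
inductive Piece where
  | pos
  | neg
  | cup
  | cap
  deriving DecidableEq

namespace Piece

/-- Number of strings entering a piece from above. -/
def ins : Piece → ℕ
  | .pos => 2
  | .neg => 2
  | .cup => 0
  | .cap => 2

/-- Number of strings leaving a piece below. -/
def outs : Piece → ℕ
  | .pos => 2
  | .neg => 2
  | .cup => 2
  | .cap => 0

end Piece

/-- A piece together with the number of strings to the left of it. -/
structure Letter where
  kind : Piece
  place : ℕ
  deriving DecidableEq

/-- A diagram in Morse position: its pieces from top to bottom. -/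
abbrev Word := List Letter

/-- The diagram with `k` strings added on the left. -/
def shift (k : ℕ) (w : Word) : Word := w.map fun l => ⟨l.kind, l.place + k⟩

/-- The number of strings at the bottom of the diagram `w` if there are `n` at its top;
`none` if the diagram makes no sense with `n` strings at its top. -/
def run : ℕ → Word → Option ℕ
  | n, [] => some n
  | n, l :: w =>
      if l.place + l.kind.ins ≤ n then run (n - l.kind.ins + l.kind.outs) w else none

/-- The local moves: planar isotopies (`far`, `zig`, `zag`, `slide`), Reidemeister moves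
(`r1`, `r2`, `r3`) and the four-move (`four`). -/
inductive Move : Word → Word → Prop
  | far (a b : Piece) (i k : ℕ) :
      Move [⟨a, i⟩, ⟨b, i + a.outs + k⟩] [⟨b, i + a.ins + k⟩, ⟨a, i⟩]
  | zig (i : ℕ) : Move [⟨.cup, i⟩, ⟨.cap, i + 1⟩] []
  | zag (i : ℕ) : Move [⟨.cup, i + 1⟩, ⟨.cap, i⟩] []
  | slide₁ (i : ℕ) : Move [⟨.pos, i⟩, ⟨.cap, i + 1⟩] [⟨.neg, i + 1⟩, ⟨.cap, i⟩]
  | slide₂ (i : ℕ) : Move [⟨.neg, i⟩, ⟨.cap, i + 1⟩] [⟨.pos, i + 1⟩, ⟨.cap, i⟩]
  | slide₃ (i : ℕ) : Move [⟨.cup, i⟩, ⟨.pos, i + 1⟩] [⟨.cup, i + 1⟩, ⟨.neg, i⟩]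
  | slide₄ (i : ℕ) : Move [⟨.cup, i⟩, ⟨.neg, i + 1⟩] [⟨.cup, i + 1⟩, ⟨.pos, i⟩]
  | r1₁ (i : ℕ) : Move [⟨.pos, i⟩, ⟨.cap, i⟩] [⟨.cap, i⟩]
  | r1₂ (i : ℕ) : Move [⟨.neg, i⟩, ⟨.cap, i⟩] [⟨.cap, i⟩]
  | r1₃ (i : ℕ) : Move [⟨.cup, i⟩, ⟨.pos, i⟩] [⟨.cup, i⟩]
  | r1₄ (i : ℕ) : Move [⟨.cup, i⟩, ⟨.neg, i⟩] [⟨.cup, i⟩]
  | r2₁ (i : ℕ) : Move [⟨.pos, i⟩, ⟨.neg, i⟩] []
  | r2₂ (i : ℕ) : Move [⟨.neg, i⟩, ⟨.pos, i⟩] []
  | r3 (i : ℕ) :
      Move [⟨.pos, i⟩, ⟨.pos, i + 1⟩, ⟨.pos, i⟩] [⟨.pos, i + 1⟩, ⟨.pos, i⟩, ⟨.pos, i + 1⟩]
  | four (i : ℕ) : Move [⟨.pos, i⟩, ⟨.pos, i⟩, ⟨.pos, i⟩, ⟨.pos, i⟩] []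

/-- One move inside a diagram with `n` strings at the top and `m` at the bottom. -/
inductive Step (n m : ℕ) : Word → Word → Prop
  | mk (a l r b : Word) (h : Move l r) (h₁ : run n (a ++ l ++ b) = some m)
      (h₂ : run n (a ++ r ++ b) = some m) : Step n m (a ++ l ++ b) (a ++ r ++ b)

/-- Four-move equivalence of diagrams with `n` strings at the top and `m` at the bottom:
the equivalence relation generated by the moves. For `n = m = 0`: of link diagrams. -/
def FourEquiv (n m : ℕ) : Word → Word → Prop := Relation.EqvGen (Step n m)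

/-- Interchange of the entries number `i` and `i + 1`. -/
def swapAt : ℕ → List Bool → List Bool
  | 0, x :: y :: s => y :: x :: s
  | i + 1, x :: s => x :: swapAt i s
  | _, s => s

/-- Insertion of two entries `c` behind the first `i` entries. -/
def insertPair (c : Bool) : ℕ → List Bool → List Bool
  | i + 1, x :: s => x :: insertPair c i s
  | _, s => c :: c :: s

/-- Removal of the entries number `i` and `i + 1` if they are equal. -/
def removePair : ℕ → List Bool → Option (List Bool)
  | 0, x :: y :: s => if x = y then some s else none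
  | i + 1, x :: s => (removePair i s).map (x :: ·)
  | _, _ => none

/-- Sum of `f` over the colours of the bottom strings, over all colourings of the strands of
the diagram with two colours (constant along every strand, also through the crossings) with
the given colours of the top strings. -/
def sumColorings : Word → (List Bool → ℕ) → List Bool → ℕ
  | [], f, s => f s
  | ⟨.pos, i⟩ :: w, f, s => sumColorings w f (swapAt i s)
  | ⟨.neg, i⟩ :: w, f, s => sumColorings w f (swapAt i s)
  | ⟨.cup, i⟩ :: w, f, s =>
      sumColorings w f (insertPair false i s) + sumColorings w f (insertPair true i s)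
  | ⟨.cap, i⟩ :: w, f, s => (removePair i s).elim 0 (sumColorings w f)

/-- The number of colourings of the strands of the diagram with two colours with given
colours of the top and of the bottom strings. A diagram with `c` closed components has
exactly `2 ^ c` colourings with all end strings of the first colour. -/
def colorings (w : Word) (s t : List Bool) : ℕ :=
  sumColorings w (fun u => if u = t then 1 else 0) s

/-- Algebraic two-tangles in the sense of Conway: the tangles with at most one crossing,
closed under horizontal composition and rotation by a quarter turn. -/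
inductive Algebraic : Word → Prop
  | two : Algebraic []
  | pos : Algebraic [⟨.pos, 0⟩]
  | neg : Algebraic [⟨.neg, 0⟩]
  | turn : Algebraic [⟨.cap, 0⟩, ⟨.cup, 0⟩]
  | beside {A B : Word} (hA : Algebraic A) (hB : Algebraic B) :
      Algebraic ([⟨.cup, 1⟩] ++ A ++ shift 2 B ++ [⟨.cap, 1⟩])
  | rotate {A : Word} (hA : Algebraic A) :
      Algebraic ([⟨.cup, 2⟩] ++ shift 1 A ++ [⟨.cap, 0⟩])

/-- Three-string diagrams built from algebraic two-tangles without closed components, each
of them placed on the first two or on the last two strings. (Crossings are such tangles.) -/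
inductive ThreeString : Word → Prop
  | nil : ThreeString []
  | box {A Y : Word} (i : ℕ) (hi : i ≤ 1) (hA : Algebraic A)
      (hc : colorings A [false, false] [false, false] = 1) (hY : ThreeString Y) :
      ThreeString (shift i A ++ Y)

/-- The closure of a three-string diagram. -/
def closure (Y : Word) : Word :=
  [⟨.cup, 0⟩, ⟨.cup, 1⟩, ⟨.cup, 2⟩] ++ Y ++ [⟨.cap, 2⟩, ⟨.cap, 1⟩, ⟨.cap, 0⟩]

/-- The trivial link of two components. -/
def unlink : Word := [⟨.cup, 0⟩, ⟨.cap, 0⟩, ⟨.cup, 0⟩, ⟨.cap, 0⟩]

/-- The Hopf link: the closure of the two-string braid with two crossings. -/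
def hopf : Word :=
  [⟨.cup, 0⟩, ⟨.cup, 1⟩, ⟨.pos, 0⟩, ⟨.pos, 0⟩, ⟨.cap, 1⟩, ⟨.cap, 0⟩]

end Pool.Agent.FMV
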