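import Pool.Agent.FMV.Defs
import Mathlib.Logic.Equiv.Basic
import Mathlib.Data.Fintype.Perm

/-!
Letters for braid words on four strings and for words on three strings.
-/

namespace Pool.Agent.FMV

/-- A crossing of a braid on four strings: its place and its sign. -/
abbrev BLetter := Fin 3 × Bool

/-- The crossing as a letter. -/
def bl (p : BLetter) : Letter := ⟨if p.2 then .pos else .neg, p.1⟩

/-- The braid word as a diagram. -/
def bw (L : List BLetter) : Word := L.map bl

@[simp] theorem bw_nil : bw [] = [] := rfl

@[simp] theorem bw_cons (p : BLetter) (L : List BLetter) : bw (p :: L) = bl p :: bw L := rfl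

@[simp] theorem bw_append (L L' : List BLetter) : bw (L ++ L') = bw L ++ bw L' := by
  simp [bw]

/-- The permutation of a braid word: the string at place `j` below is the string at place
`permL L j` above. -/
def permL : List BLetter → Equiv.Perm (Fin 4)
  | [] => 1
  | p :: L => Equiv.swap p.1.castSucc p.1.succ * permL L

/-- The permutations which preserve the partition of the four places in `0, 1` and `2, 3`. -/
def PairPreserving (σ : Equiv.Perm (Fin 4)) : Prop :=
  (σ 2 = 2 ∨ σ 2 = 3) ↔ (σ 3 = 2 ∨ σ 3 = 3)

instance (σ : Equiv.Perm (Fin 4)) : Decidable (PairPreserving σ) := by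
  unfold PairPreserving; infer_instance

/-- Positive words in `a`, `c` and `y = b c c b`. -/
inductive InH : List BLetter → Prop
  | nil : InH []
  | a {L : List BLetter} (h : InH L) : InH ((0, true) :: L)
  | c {L : List BLetter} (h : InH L) : InH ((2, true) :: L)
  | y {L : List BLetter} (h : InH L) :
      InH ((1, true) :: (2, true) :: (2, true) :: (1, true) :: L)

/-- The four kinds of boxes in words on three strings. -/
inductive Kind where
  | pos
  | neg
  | turn
  | clasp
  deriving DecidableEq

/-- The box as a diagram on two strings. -/
def box : Kind → Word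
  | .pos => [⟨.pos, 0⟩]
  | .neg => [⟨.neg, 0⟩]
  | .turn => [⟨.cap, 0⟩, ⟨.cup, 0⟩]
  | .clasp => [⟨.cup, 1⟩, ⟨.pos, 0⟩, ⟨.pos, 2⟩, ⟨.cap, 1⟩]

/-- A letter of a word on three strings: a box on the first two (`false`) or on the last two
(`true`) strings. -/
abbrev TLetter := Bool × Kind

/-- The letter as a diagram on three strings. -/
def tl (p : TLetter) : Word := shift (if p.1 then 1 else 0) (box p.2)

/-- The word on three strings. -/
def word3 : List TLetter → Word
  | [] => []
  | p :: Y => tl p ++ word3 Y

@[simp] theorem word3_nil : word3 [] = [] := rfl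

@[simp] theorem word3_cons (p : TLetter) (Y : List TLetter) :
    word3 (p :: Y) = tl p ++ word3 Y := rfl

@[simp] theorem word3_append (Y Z : List TLetter) : word3 (Y ++ Z) = word3 Y ++ word3 Z := by
  induction Y with
  | nil => rfl
  | cons p Y ih => simp [ih]

end Pool.Agent.FMV
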