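import Pool.Agent.FMV.Defs

/-!
The class of tangles and diagrams of the hand-in.
-/

namespace Pool.Agent.FMV

/-- The partial closure of a diagram on four strings: a two-tangle. -/
def partClosure (W : Word) : Word := [⟨.cup, 2⟩] ++ W ++ [⟨.cap, 2⟩]

/-- `Built 2 W`: the two-tangle `W` is in the smallest class which contains the tangles with at
most one crossing and is closed under horizontal composition, rotation by a quarter turn and
partial closure of diagrams on four strings built from tangles of the class, provided that the
partial closure has no closed component and does not join its two top ends.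
`Built n W` for `n = 3, 4`: a diagram on `n` strings built from arbitrarily many tangles of the
class without closed components, each of them placed on two neighbouring strings. -/
inductive Built : ℕ → Word → Prop
  | two : Built 2 []
  | pos : Built 2 [⟨.pos, 0⟩]
  | neg : Built 2 [⟨.neg, 0⟩]
  | turn : Built 2 [⟨.cap, 0⟩, ⟨.cup, 0⟩]
  | beside {A B : Word} (hA : Built 2 A) (hB : Built 2 B) :
      Built 2 ([⟨.cup, 1⟩] ++ A ++ shift 2 B ++ [⟨.cap, 1⟩])
  | rotate {A : Word} (hA : Built 2 A) :
      Built 2 ([⟨.cup, 2⟩] ++ shift 1 A ++ [⟨.cap, 0⟩])
  | close {W : Word} (hW : Built 4 W)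
      (h₁ : colorings (partClosure W) [false, false] [false, false] = 1)
      (h₂ : ∃ t, colorings (partClosure W) [false, true] t ≠ 0) :
      Built 2 (partClosure W)
  | nil (n : ℕ) (hn : 3 ≤ n) (hn' : n ≤ 4) : Built n []
  | box {n : ℕ} {A Y : Word} (i : ℕ) (hn : 3 ≤ n) (hi : i + 2 ≤ n) (hA : Built 2 A)
      (hc : colorings A [false, false] [false, false] = 1) (hY : Built n Y) :
      Built n (shift i A ++ Y)

end Pool.Agent.FMV
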