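import Pool.Agent.FMV.Closure
import Pool.Agent.FMV.Nested

/-!
Diagrams of the class are equivalent to words in basic boxes.
-/

namespace Pool.Agent.FMV

/-- A word in basic boxes at arbitrary places. -/
def gword : List (ℕ × Kind) → Word
  | [] => []
  | p :: Z => shift p.1 (box p.2) ++ gword Z

theorem gword_append (Y Z : List (ℕ × Kind)) : gword (Y ++ Z) = gword Y ++ gword Z := by
  induction Y with
  | nil => rfl
  | cons p Y ih => simp [gword, ih]

theorem six_gword (i : ℕ) (t : Six) :
    shift i (six t) = gword ((sixL t).map fun k => (i, k)) := by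
  cases t <;> simp [six, sixL, gword, box]

theorem gword_three (Z : List (ℕ × Kind)) (hZ : ∀ p ∈ Z, p.1 + 2 ≤ 3) :
    ∃ Y : List TLetter, gword Z = word3 Y := by
  induction Z with
  | nil => exact ⟨[], rfl⟩
  | cons p Z ih =>
      obtain ⟨Y, hY⟩ := ih fun q hq => hZ q (List.mem_cons_of_mem _ hq)
      have hp := hZ p List.mem_cons_self
      refine ⟨(decide (p.1 = 1), p.2) :: Y, ?_⟩
      rw [word3_cons, ← hY]
      obtain ⟨i, k⟩ := p
      simp only at hp
      rcases Nat.le_one_iff_eq_zero_or_eq_one.1 (show i ≤ 1 by omega) with rfl | rfl <;>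
        simp [gword, tl]

theorem place_two (k : Kind) (r : List (List BLetter × Bool)) (g : List BLetter) :
    ∃ r' g', FourEquiv 4 4 (shift 2 (box k) ++ boxes r g) (boxes r' g') := by
  cases k
  · obtain ⟨r', g', h⟩ := pre_boxes [(2, true)] r g
    exact ⟨r', g', h ▸ .refl _⟩
  · obtain ⟨r', g', h⟩ := pre_boxes [(2, false)] r g
    exact ⟨r', g', h ▸ .refl _⟩
  · exact ⟨([], false) :: r, g, .refl _⟩
  · exact ⟨([], true) :: r, g, .refl _⟩

theorem gword_boxes (Z : List (ℕ × Kind)) (hZ : ∀ p ∈ Z, p.1 + 2 ≤ 4) :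
    ∃ r g, FourEquiv 4 4 (gword Z) (boxes r g) := by
  induction Z with
  | nil => exact ⟨[], [], .refl _⟩
  | cons p Z ih =>
      obtain ⟨r, g, h⟩ := ih fun q hq => hZ q (List.mem_cons_of_mem _ hq)
      have hp := hZ p List.mem_cons_self
      obtain ⟨i, k⟩ := p
      simp only at hp
      have hr : run 4 (shift i (box k)) = some 4 := by
        have := run_shift i (2 - i) (run_box k)
        rwa [show i + 2 + (2 - i) = 4 by omega] at this
      have h₁ : FourEquiv 4 4 (gword ((i, k) :: Z)) (shift i (box k) ++ boxes r g) :=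
        h.append_left hr
      have h₂ : ∃ r' g', FourEquiv 4 4 (shift i (box k) ++ boxes r g) (boxes r' g') := by
        rcases (show i = 0 ∨ i = 1 ∨ i = 2 by omega) with rfl | rfl | rfl
        · exact place_letter (false, k) r g
        · exact place_letter (true, k) r g
        · exact place_two k r g
      obtain ⟨r', g', h₂⟩ := h₂
      exact ⟨r', g', h₁.trans h₂⟩

theorem pow_six (j : ℕ) : ∃ t, FourEquiv 2 2 (pow j) (six t) := by
  induction j using Nat.strong_induction_on with
  | _ j ih =>
      match j, ih with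
      | 0, _ => exact ⟨.id, .refl _⟩
      | 1, _ => exact ⟨.pos, .refl _⟩
      | 2, _ => exact ⟨.two, .refl _⟩
      | 3, _ =>
          refine ⟨.neg, ?_⟩
          have h₁ : FourEquiv 2 2 (pow 3) (pow 3 ++ ([⟨.pos, 0⟩, ⟨.neg, 0⟩] : Word)) := by
            have m : FourEquiv 2 2 [⟨.pos, 0⟩, ⟨.neg, 0⟩] [] :=
              Relation.EqvGen.rel _ _ (Step.mk [] _ _ [] (Move.r2₁ 0) rfl rfl)
            have := m.append_left (p := 2) (a := pow 3) rfl
            rw [List.append_nil] at this
            exact this.symm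
          have h₂ := pos_four.append_right (q := 2) (b := [⟨.neg, 0⟩]) rfl
          exact h₁.trans h₂
      | j + 4, ih =>
          obtain ⟨t, ht⟩ := ih j (by omega)
          have h := pos_four.append_right (q := 2) (b := pow j) (run_pow 0 j)
          exact ⟨t, h.trans ht⟩

/-- The two statements about the class. -/
theorem Built.main {n : ℕ} {W : Word} (h : Built n W) :
    (n = 2 → run 2 W = some 2 ∧ (colorings W [false, false] [false, false] = 1 →
      ∃ t, FourEquiv 2 2 W (six t))) ∧
    (3 ≤ n → n ≤ 4 ∧ run n W = some n ∧ ∃ Z : List (ℕ × Kind), (∀ p ∈ Z, p.1 + 2 ≤ n) ∧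
      FourEquiv n n W (gword Z)) := by
  induction h with
  | two => exact ⟨fun _ => ⟨rfl, fun _ => ⟨.id, .refl _⟩⟩, fun h => absurd h (by omega)⟩
  | pos => exact ⟨fun _ => ⟨rfl, fun _ => ⟨.pos, .refl _⟩⟩, fun h => absurd h (by omega)⟩
  | neg => exact ⟨fun _ => ⟨rfl, fun _ => ⟨.neg, .refl _⟩⟩, fun h => absurd h (by omega)⟩
  | turn => exact ⟨fun _ => ⟨rfl, fun _ => ⟨.turn, .refl _⟩⟩, fun h => absurd h (by omega)⟩
  | @beside A B hA hB ihA ihB =>
      refine ⟨fun _ => ?_, fun h => absurd h (by omega)⟩
      obtain ⟨rA, ihA⟩ := ihA.1 rfl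
      obtain ⟨rB, ihB⟩ := ihB.1 rfl
      refine ⟨run_beside rA rB, fun hc => ?_⟩
      have h₁ := one_le_alg rA
      have h₂ := one_le_alg rB
      have h₃ := colorings_beside (B := B) rA
      change colorings (FMV.beside A B) [false, false] [false, false] = 1 at hc
      rw [hc] at h₃
      have hA1 : colorings A [false, false] [false, false] = 1 := by nlinarith
      have hB1 : colorings B [false, false] [false, false] = 1 := by nlinarith
      obtain ⟨s, hs⟩ := ihA hA1
      obtain ⟨t, ht⟩ := ihB hB1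
      have hst := beside_congr hs ht rA rB
      obtain ⟨r, hr⟩ := beside_six s t (by rw [← hst.colorings_eq rfl]; exact hc)
      exact ⟨r, hst.trans hr⟩
  | @rotate A hA ih =>
      refine ⟨fun _ => ?_, fun h => absurd h (by omega)⟩
      obtain ⟨rA, ih⟩ := ih.1 rfl
      refine ⟨run_rot rA, fun hc => ?_⟩
      change colorings (FMV.rot A) [false, false] [false, false] = 1 at hc
      rw [colorings_rot rA] at hc
      obtain ⟨s, hs⟩ := ih hc
      obtain ⟨r, hr⟩ := rot_six s
      exact ⟨r, (rot_congr hs).trans hr⟩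
  | @close W hW h₁ h₂ ih =>
      refine ⟨fun _ => ?_, fun h => absurd h (by omega)⟩
      obtain ⟨_, rW, Z, hZ, hWZ⟩ := ih.2 (by omega)
      refine ⟨run_append_of (run_append_of (show run 2 [⟨.cup, 2⟩] = some 4 from rfl) rW) rfl,
        fun _ => ?_⟩
      obtain ⟨r, g, hb⟩ := gword_boxes Z hZ
      have e : FourEquiv 2 2 (partClosure W) (tang [] r g) := by
        have := (hWZ.trans hb).append (p := 2) (q := 2) (a := [⟨.cup, 2⟩])
          (b := [⟨.cap, 2⟩]) rfl rfl
        simpa [tang, partClosure] using this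
      have hg : Good (partClosure W) := by
        obtain ⟨t, ht⟩ := h₂
        exact ⟨h₁, false, t, ht⟩
      obtain ⟨j, hj⟩ := unravel r [] g (hg.congr e)
      obtain ⟨t, ht⟩ := pow_six j
      exact ⟨t, (e.trans hj).trans ht⟩
  | nil n hn hn' =>
      exact ⟨fun h => absurd h (by omega), fun _ => ⟨hn', rfl, [], by simp, .refl _⟩⟩
  | @box n A Y i hn hi hA hc hY ihA ihY =>
      refine ⟨fun h => absurd h (by omega), fun _ => ?_⟩
      obtain ⟨rA, ihA⟩ := ihA.1 rfl
      obtain ⟨hn', rY, Z, hZ, hYZ⟩ := ihY.2 hn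
      obtain ⟨t, ht⟩ := ihA hc
      have rA' : run n (shift i A) = some n := by
        have := run_shift i (n - 2 - i) rA
        rwa [show i + 2 + (n - 2 - i) = n by omega] at this
      refine ⟨hn', run_append_of rA' rY, (sixL t).map (fun k => (i, k)) ++ Z, ?_, ?_⟩
      · intro p hp
        rcases List.mem_append.1 hp with hp | hp
        · obtain ⟨k, _, rfl⟩ := List.mem_map.1 hp
          exact hi
        · exact hZ p hp
      · rw [gword_append, ← six_gword]
        have h₁ : FourEquiv n n (shift i A) (shift i (six t)) := by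
          have := ht.shift i (n - 2 - i)
          rwa [show i + 2 + (n - 2 - i) = n by omega] at this
        refine (h₁.append_right rY).trans ?_
        exact hYZ.append_left (h₁.run_iff.1 rA')

theorem Built.closure {Y : Word} (hY : Built 3 Y) (h : colorings (closure Y) [] [] = 4) :
    FourEquiv 0 0 (FMV.closure Y) unlink ∨ FourEquiv 0 0 (FMV.closure Y) hopf := by
  obtain ⟨_, _, Z, hZ, hYZ⟩ := hY.main.2 le_rfl
  obtain ⟨Z', hZ'⟩ := gword_three Z hZ
  rw [hZ'] at hYZ
  have e := closure_congr hYZ
  rw [e.colorings_eq rfl] at h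
  exact e.cases_congr (closure_word Z' h)

end Pool.Agent.FMV
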